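import Pool.Agent.Lib.MP_b67cc8_lc.Est

/-! The approximation scheme runs in polynomial time. -/

namespace Pool.Agent.Lib.MP_b67cc8_lc

open Pool.Agent.Lib.helper82 PT

attribute [fun_prop] PT PT.id PT.const PT.comp PT.pair PT.fst PT.snd PT.cons PT.append PT.tail
  PT.headD PT.isEmpty PT.cond PT.and PT.or PT.not PT.flatMap PT.map PT.filter PT.any PT.all
  PT.add PT.mul PT.length PT.ofB_pt PT.eq PT.mem PT.iteEq PT.natCastInt

variable {α β σ : Type} [Enc α] [Enc β] [Enc σ]

/-- computable in unary -/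
def UN (k : α → ℕ) : Prop := PT fun a => List.replicate (k a) true

namespace UN
variable {k k' : α → ℕ}

theorem len [Inhabited β] {l : α → List β} (h : PT l) : UN fun a => (l a).length :=
  (map (F := fun _ _ => true) h (const true)).congr fun a => by simp

theorem cst (c : ℕ) : UN fun _ : α => c := const _

theorem comp (h : UN k) {g : β → α} (hg : PT g) : UN fun b => k (g b) := PT.comp h hg

theorem add (h : UN k) (h' : UN k') : UN fun a => k a + k' a :=
  (append h h').congr fun a => by simp

theorem mul (h : UN k) (h' : UN k') : UN fun a => k a * k' a :=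
  (flatMap (F := fun a _ => List.replicate (k' a) true) h (h'.comp fst')).congr fun a => by
    simp [List.flatMap_replicate]

theorem pow (h : UN k) : ∀ c : ℕ, UN fun a => k a ^ c
  | 0 => cst 1
  | c + 1 => (h.pow c).mul h

theorem pt (h : UN k) : PT k := (length h).congr fun a => by simp

theorem bd (h : UN k) : Bd sz k := (sz_bd h).of_le fun a => by rw [sz_listBool]; simp; omega

theorem size (h : UN k) : UN fun a => (k a).size := by
  simpa only [Nat.size_eq_bits_len] using len (bits h.pt)

theorem iter {t : α → ℕ} (ht : UN t) {g : α → σ} {h : α → σ → σ} (hg : PT g)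
    (hh : PT fun p : α × σ => h p.1 p.2) {B : α → ℕ} (hB : Bd sz B)
    (hb : ∀ a i, i ≤ t a → sz ((h a)^[i] (g a)) ≤ B a) : PT fun a => (h a)^[t a] (g a) :=
  (foldl (h := fun a s (_ : Bool) => h a s) ht hg (PT.comp hh (pair fst' (fst snd'))) B hB
    fun a i => by rw [List.foldl_const]; exact hb a _ (by simp)).congr fun a => by
      rw [List.foldl_const, List.length_replicate]

theorem inv {t : α → ℕ} (ht : UN t) {g : α → σ} {h : α → σ → σ} (hg : PT g)
    (hh : PT fun p : α × σ => h p.1 p.2) {B : α → ℕ} (hB : Bd sz B) (I : α → ℕ → σ → Prop)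
    (h0 : ∀ a, I a 0 (g a)) (h1 : ∀ a i s, I a i s → I a (i + 1) (h a s))
    (hb : ∀ a i s, i ≤ t a → I a i s → sz s ≤ B a) : PT fun a => (h a)^[t a] (g a) :=
  ht.iter hg hh hB fun a i hi => hb a i _ hi (by
    clear hi
    induction i with
    | zero => exact h0 a
    | succ i ih => rw [Function.iterate_succ_apply']; exact h1 a i _ ih)

theorem split (h : UN k) {r : α → List Bool} (hr : PT r) :
    PT fun a => ((r a).take (k a), (r a).drop (k a)) := by
  have key : ∀ (r : List Bool) (i : ℕ), (fun s : List Bool × List Bool =>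
      (s.1 ++ bif s.2.isEmpty then [] else [s.2.headD false], s.2.tail))^[i] ([], r) =
      (r.take i, r.drop i) := fun r i => by
    induction i with
    | zero => rfl
    | succ i ih =>
      rw [Function.iterate_succ_apply', ih, List.take_add_one, ← List.head?_drop, List.tail_drop]
      cases r.drop i <;> rfl
  refine (h.iter (g := fun a => (([] : List Bool), r a)) (h := fun _ s =>
    (s.1 ++ bif s.2.isEmpty then [] else [s.2.headD false], s.2.tail)) (by fun_prop) (by fun_prop)
    (((Bd.const 3).mul hr.sz_bd).add (Bd.const 1)) fun a i _ => ?_).congr fun a => key _ _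
  rw [key, sz_prod]
  simp only [sz_listBool, List.length_take, List.length_drop]
  omega

theorem rit {t : α → ℕ} (hk : UN k) (ht : UN t) {g : α → σ} {h : α → σ → List Bool → σ}
    {r : α → List Bool} (hg : PT g) (hr : PT r)
    (hh : PT fun p : α × σ × List Bool => h p.1 p.2.1 p.2.2) {B : α → ℕ} (hB : Bd sz B)
    (I : α → ℕ → σ → Prop) (h0 : ∀ a, I a 0 (g a)) (h1 : ∀ a i s x, I a i s → I a (i + 1) (h a s x))
    (hb : ∀ a i s, i ≤ t a → I a i s → sz s ≤ B a) :
    PT fun a => rit (k a) (h a) (t a) (g a) (r a) := by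
  have h2 := (hk.comp (fst' (β := σ × List Bool))).split (snd snd')
  refine fst (ht.inv (h := fun a => rst (k a) (h a)) (pair hg hr)
    (pair (PT.comp hh (pair fst' (pair (fst snd') (fst h2)))) (snd h2))
    ((((Bd.const 2).mul hB).add (Bd.const 1)).add hr.sz_bd)
    (fun a i s => I a i s.1 ∧ sz s.2 ≤ sz (r a)) (fun a => ⟨h0 a, le_rfl⟩)
    (fun a i s hs => ⟨h1 a i _ _ hs.1, (sz_drop_le _ _).trans hs.2⟩) fun a i s hi hs => ?_)
  have := hb a i _ hi hs.1
  have := hs.2
  rw [← Prod.mk.eta (p := s), sz_prod]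
  omega

end UN

lemma Same.sz {D E : EL} (h : Same D E) : sz D ≤ 4 * sz E := by
  have h1 := h (fun e => helper82.sz e.1 + helper82.sz e.2 + 1) fun a b => by
    simp only; omega
  have h2 : ∀ L : EL, helper82.sz L ≤ 4 * sm (fun e => helper82.sz e.1 + helper82.sz e.2 + 1) L ∧
      sm (fun e => helper82.sz e.1 + helper82.sz e.2 + 1) L ≤ helper82.sz L := fun L => by
    induction L with
    | nil => simp [sz_nil]
    | cons e L ih => rw [sm_cons, ← Prod.mk.eta (p := e), sz_cons, sz_prod]; simp only; omega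
  have := (h2 D).1
  have := (h2 E).2
  omega

variable {D : α → EL} {i j : α → ℕ} {V : α → List ℕ} {x : α → List Bool}

@[fun_prop] theorem reach_pt (hD : PT D) (hj : PT j) : PT fun a => reach (D a) (j a) := by
  simp only [reach_eq]
  refine ((UN.len hD).add (UN.cst 1)).inv (by fun_prop) (by unfold grow; fun_prop)
    ((((Bd.const 2).mul hj.sz_bd).add (Bd.const 1)).add hD.sz_bd)
    (fun a _ s => sz s ≤ 2 * sz (j a) + 1 + sz (D a)) (fun a => ?_) (fun a _ s _ => ?_)
    fun _ _ _ _ h => h
  · rw [sz_cons, sz_nil]; omega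
  · rw [grow, sz_cons, Nat.add_le_add_iff_left]
    induction D a with
    | nil => simp [sz_nil]
    | cons e L ih =>
      rw [List.filter_cons, ← Prod.mk.eta (p := e), sz_cons, sz_prod]
      split_ifs
      · rw [List.map_cons, sz_cons]; simp only; omega
      · omega

@[fun_prop] theorem tcb_pt (hD : PT D) : PT fun a => tcb (D a) := by unfold tcb; fun_prop

lemma sz_ends {e : ℕ × ℕ} {L : EL} (h : e ∈ L) : sz e.1 ≤ sz L ∧ sz e.2 ≤ sz L := by
  have := sz_le_of_mem h
  rw [← Prod.mk.eta (p := e), sz_prod] at this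
  omega

@[fun_prop] theorem rev_pt (hD : PT D) (hi : PT i) (hj : PT j) :
    PT fun a => rev (D a) (i a) (j a) := by
  simp only [rev, List.foldl_const]
  have := (UN.len hD).iter (g := fun a => (D a, ([] : EL), i a)) (h := fun a => rstep (j a))
    (by fun_prop) (by unfold rstep good bad; fun_prop)
    ((((Bd.const 9).mul hD.sz_bd).add (Bd.const 2)).add hi.sz_bd) fun a t _ => by
      obtain ⟨h1, h2, -⟩ := rstep_same (j a) (D a) (i a) t
      generalize (rstep (j a))^[t] (D a, [], i a) = s at *
      obtain ⟨A, B, w⟩ := s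
      have h3 := h1.sz
      rw [sz_append] at h3
      rw [sz_prod, sz_prod]
      rcases h2 with rfl | ⟨e, he, rfl⟩
      · simp only at *; omega
      · have := sz_ends he
        simp only at *; omega
  exact append (fst this) (fst (snd this))

@[fun_prop] theorem can_pt (hD : PT D) (hi : PT i) (hj : PT j) :
    PT fun a => can (D a) (i a) (j a) := by unfold can; fun_prop

@[fun_prop] theorem step_pt (hD : PT D) (hi : PT i) (hj : PT j) :
    PT fun a => step (D a) (i a) (j a) := by unfold step; fun_prop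

@[fun_prop] theorem init_pt (hD : PT D) : PT fun a => init (D a) := by
  simp only [init, List.foldl_const]
  refine fst ((UN.len hD).iter (g := fun a => (([] : EL), D a)) (h := fun _ => istep)
    (by fun_prop) (by unfold istep swp; fun_prop)
    (((Bd.const 8).mul hD.sz_bd).add (Bd.const 1)) fun a t ht => ?_)
  obtain ⟨h1, h2, -⟩ := istep_iter (D a) t ht
  have h3 := h2.sz
  rw [sz_append, ← h1] at h3
  rw [← Prod.mk.eta (p := istep^[t] _), sz_prod]
  omega

@[fun_prop] theorem pick_pt (hV : PT V) (hi : PT i) : PT fun a => pick (V a) (i a) :=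
  snd (foldl_add (h := fun a => pstep (i a)) hV (const _) (by unfold pstep; fun_prop)
    (fun a => sz (V a) + 4) (hV.sz_bd.add (Bd.const 4)) fun a s b hb => by
      have := sz_le_of_mem hb
      have := sz_add_le s.1 1
      have := sz_nat_le_self 1
      rw [pstep, ← Prod.mk.eta (p := s), sz_prod, sz_prod]
      split_ifs <;> simp only <;> omega)

@[fun_prop] theorem nxt_pt (hD : PT D) : PT fun a => nxt (D a) := by
  simp only [nxt, rl, mrg, _root_.id]; fun_prop

theorem cstep_pt (hi : UN i) (hV : PT V) (hD : PT D) (hx : PT x) :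
    PT fun a => cstep (i a) (V a) (D a) (x a) := by
  have h := hi.split (tail hx)
  exact cond (headD hx false) hD (step_pt hD (pick_pt hV (ofB_pt (fst h))) (pick_pt hV (ofB_pt (snd h))))

theorem chunk_un (hi : UN i) : UN fun a => 2 * (i a).size + 1 :=
  ((UN.cst 2).mul hi.size).add (UN.cst 1)

theorem smp_pt (hi : UN i) (hV : PT V) (hD : PT D) (hx : PT x) :
    PT fun a => smp (i a) (V a) (D a) (x a) :=
  not (can_pt ((chunk_un hi).rit (hi.pow 16) (h := fun a => cstep (i a).size (V a)) hD hx
    (cstep_pt (hi.size.comp fst') (by fun_prop) (by fun_prop) (by fun_prop))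
    ((Bd.const 4).mul hD.sz_bd) (fun a _ s => Same s (D a)) (fun _ _ _ => rfl)
    (fun _ _ _ _ h => (cstep_same _ _ _ _).trans h) fun _ _ _ _ h => h.sz)
    (by fun_prop) (by fun_prop))

lemma cnt_le (k : ℕ) (g : List Bool → Bool) (s : ℕ) (r : List Bool) : cnt k g s r ≤ s := by
  unfold cnt rit
  induction s with
  | zero => rfl
  | succ s ih =>
    rw [Function.iterate_succ_apply', rst]
    have := Bool.toNat_le (g (List.take k ((rst k fun c x => c + (g x).toNat)^[s] (0, r)).2))
    simp only
    omega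

theorem est_pt (hi : UN i) (hV : PT V) (hD : PT D) (hx : PT x) :
    PT fun a => est (i a) (V a) (D a) (x a) :=
  iteEq (by fun_prop) (by fun_prop) (hi.pow 6).pt (((chunk_un hi).mul (hi.pow 16)).rit (hi.pow 6)
    (h := fun a c x => c + (smp (i a) (V a) (D a) x).toNat) (const 0) hx
    (add (fst snd') (PT.comp (ofFintype Bool.toNat)
      (smp_pt (hi.comp fst') (by fun_prop) (by fun_prop) (by fun_prop))))
    (hi.pow 6).bd (fun _ t c => c ≤ t) (fun _ => le_rfl)
    (fun _ _ _ _ h => Nat.add_le_add h (Bool.toNat_le _))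
    fun _ _ _ h h' => (sz_nat_le_self _).trans (h'.trans h))

lemma sz_mul_le (a b : ℕ) : sz (a * b) ≤ sz a + sz b := by
  rw [sz_nat_le, pow_add]
  exact Nat.mul_lt_mul'' (lt_two_pow_sz a) (lt_two_pow_sz b)

/-- the states along the contraction sequence are small -/
def Sml (L : EL) (b : ℕ) (s : EL × ℕ × ℕ) : Prop := s.1.length ≤ L.length ∧
  (∀ e ∈ s.1, sz e.1 ≤ sz L ∧ sz e.2 ≤ sz L) ∧ sz s.2.1 ≤ b ∧ sz s.2.2 ≤ b

lemma Sml.nxt {L : EL} {b c u v : ℕ} {s : EL × ℕ × ℕ} (h : Sml L b s) (hu : u ≤ c) (hv : v ≤ c) :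
    Sml L (b + c) (nxt s.1, s.2.1 * u, s.2.2 * v) := by
  obtain ⟨M, p, q⟩ := s
  obtain ⟨h1, h2, h3, h4⟩ := h
  have := sz_mul_le p u
  have := sz_mul_le q v
  have := sz_nat_le_self u
  have := sz_nat_le_self v
  refine ⟨by simp [MP_b67cc8_lc.nxt, rl] at h1 ⊢; omega, fun e he => ?_, by simp only at *; omega,
    by simp only at *; omega⟩
  obtain ⟨z, hz, rfl⟩ := List.mem_map.1 he
  rcases M with _ | ⟨y, M⟩
  · simp at hz
  have a1 := h2 z (List.mem_cons_of_mem _ hz)
  have a2 := h2 y List.mem_cons_self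
  simp only [mrg, _root_.id, List.headD_cons]
  constructor <;> split_ifs <;> omega

lemma Sml.sz {L : EL} {b : ℕ} {s : EL × ℕ × ℕ} (h : Sml L b s) :
    sz s ≤ 2 * (sz L * (6 * sz L + 3)) + (3 * b + 2) := by
  obtain ⟨M, p, q⟩ := s
  obtain ⟨h1, h2, h3, h4⟩ := h
  have h5 : helper82.sz M ≤ M.length * (6 * helper82.sz L + 3) := by
    clear h1
    induction M with
    | nil => simp [sz_nil]
    | cons e M ih =>
      obtain ⟨a, b⟩ := List.forall_mem_cons.1 h2
      have := ih b h3 h4
      rw [← Prod.mk.eta (p := e), sz_cons, sz_prod, List.length_cons, add_mul]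
      omega
  have h6 := Nat.mul_le_mul_right (6 * helper82.sz L + 3) (h1.trans (length_le_sz L))
  rw [sz_prod, sz_prod]
  simp only at *
  omega

lemma Sml.bd (hD : PT D) {b : α → ℕ} (hb : Bd helper82.sz b) : Bd helper82.sz fun a =>
    2 * (helper82.sz (D a) * (6 * helper82.sz (D a) + 3)) + (3 * b a + 2) :=
  ((Bd.const 2).mul (hD.sz_bd.mul (((Bd.const 6).mul hD.sz_bd).add (Bd.const 3)))).add
    (((Bd.const 3).mul hb).add (Bd.const 2))

lemma Sml.mono {L : EL} {b c : ℕ} {s : EL × ℕ × ℕ} (h : Sml L b s) (hb : b ≤ c) : Sml L c s :=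
  ⟨h.1, h.2.1, h.2.2.1.trans hb, h.2.2.2.trans hb⟩

theorem alg2_pt {k : α → ℕ} (hD : PT D) (hk : UN k) (hi : PT i) (hj : PT j) (hx : PT x) :
    PT fun a => alg2 (D a) (k a) (i a) (j a) (x a) := by
  have hn := (((UN.cst 2).mul (UN.len hD)).add hk).add (UN.cst 64)
  have hI := init_pt hD
  have hV : PT fun a => ends (init (D a)) := by unfold ends; fun_prop
  refine cond (tcb_pt hI) (snd ((((chunk_un hn).mul (hn.pow 16)).mul (hn.pow 6)).rit (UN.len hD)
    (h := fun a => sstep (2 * (D a).length + k a + 64) (ends (init (D a)))) (by fun_prop) hx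
    (pair (by fun_prop) (pair (mul (by fun_prop) ((hn.pow 6).comp fst').pt) (mul (by fun_prop)
      (est_pt (hn.comp fst') (hV.comp fst') (by fun_prop) (by fun_prop)))))
    (Sml.bd hI ((hi.sz_bd.add hj.sz_bd).add ((UN.len hD).mul (hn.pow 6)).bd))
    (fun a t => Sml (init (D a)) (sz (i a) + sz (j a) + t * (2 * (D a).length + k a + 64) ^ 6))
    (fun a => ⟨le_rfl, fun e he => sz_ends he, by simp, by simp⟩) (fun a t s x h => ?_)
    fun a t s ht h => (h.mono (by gcongr)).sz)) (const _)
  rw [add_mul, one_mul, ← add_assoc]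
  refine h.nxt le_rfl ?_
  unfold est
  split_ifs
  exacts [le_rfl, cnt_le _ _ _ _]

theorem gad_pt (ks : List ℕ) : ∀ (k : ℕ) {u v w : α → ℕ}, PT u → PT v → PT w →
    PT fun a => gad (u a) (v a) (w a) k ks := by
  have key : ∀ (k : ℕ) {u v : α → ℕ}, PT u → PT v → PT fun a => List.replicate k (u a, v a) :=
    fun k u v hu hv => (map (F := fun a _ => (u a, v a)) (const (List.replicate k true))
      (by fun_prop)).congr fun a => by simp
  induction ks with
  | nil => intro k u v w hu hv _; exact key k hu hv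
  | cons k' ks ih =>
    intro k u v w hu hv hw
    exact append (key k hu hw) (ih k' hw hv (succ hw))

theorem GG_pt (k : ℕ) (ks : List ℕ) (hi : PT i) (hD : PT D) : PT fun a => GG k ks (i a) (D a) := by
  refine (flatMap (F := fun _ z => gad z.2.1 z.2.2 z.1 k ks)
    (scan_pt (h := fun (w : ℕ) (_ : ℕ × ℕ) => w + ks.length) hD hi (by fun_prop)
      (sz ks.length + 1) fun s _ => sz_add_le _ _)
    (gad_pt ks k (by fun_prop) (by fun_prop) (by fun_prop))).congr fun a => ?_
  generalize i a = w
  induction D a generalizing w with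
  | nil => rfl
  | cons e L ih => simp only [scan, List.flatMap_cons, GG, ih]

theorem alg_pt (k₀ : ℕ) (ks : List ℕ) (p q c : ℕ) {k : α → ℕ} (hi : PT i) (hD : PT D) (hk : UN k)
    (hx : PT x) : PT fun a => alg k₀ ks p q c (i a) (D a) (k a) (x a) := by
  have h := (UN.len hD).inv (g := fun a => (D a, 1, 1)) (h := fun _ => kstep p q c) (by fun_prop)
    (by unfold kstep; fun_prop)
    (Sml.bd hD ((Bd.const 1).add ((UN.len hD).mul (UN.cst (p + 1 + c * (q + 1)))).bd))
    (fun a t => Sml (D a) (1 + t * (p + 1 + c * (q + 1))))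
    (fun a => ⟨le_rfl, fun e he => sz_ends he, by simpa using sz_nat_le_self 1,
      by simpa using sz_nat_le_self 1⟩) (fun a t s h => by
      rw [add_mul, one_mul, ← add_assoc]
      refine h.nxt ?_ ?_ <;> split_ifs <;> nlinarith [Nat.zero_le (c * q)])
    fun a t s ht h => (h.mono (by gcongr)).sz
  exact alg2_pt (GG_pt k₀ ks hi hD) hk (fst (snd h)) (snd (snd h)) hx

theorem bits_bd {m k : α → ℕ} (hm : UN m) (hk : UN k) : Bd sz fun a => bitsN (m a) (k a) :=
  have hn := (((UN.cst 2).mul hm).add hk).add (UN.cst 64)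
  ((((chunk_un hn).mul (hn.pow 16)).mul (hn.pow 6)).mul hm).bd

end Pool.Agent.Lib.MP_b67cc8_lc
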