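import Pool.Agent.Lib.MP_b67cc8_lc.Graph2

/-! The Tutte polynomial on the line `y = 1` and the lattice point count. -/

namespace Pool.Agent.Lib.MP_b67cc8_lc

open Finset

/-- the labelling after merging along all edges -/
def lab (f : ℕ → ℕ) : EL → ℕ → ℕ
  | [] => f
  | e :: L => lab (mrg f e.1 e.2) L

/-- the number of proper merges -/
def rk (f : ℕ → ℕ) : EL → ℕ
  | [] => 0
  | e :: L => (if f e.1 = f e.2 then 0 else 1) + rk (mrg f e.1 e.2) L

/-- the forest generating function -/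
def Phi (l : ℚ) : EL → (ℕ → ℕ) → ℚ
  | [], _ => 1
  | e :: L, f => Phi l L f + if f e.1 = f e.2 then 0 else l * Phi l L (mrg f e.1 e.2)

/-- `φ` factors through `f` -/
def Fac {β : Type} (φ : ℕ → β) (f : ℕ → ℕ) : Prop := ∀ x y, f x = f y → φ x = φ y

lemma mrg_eq (f : ℕ → ℕ) (u v x y : ℕ) : mrg f u v x = mrg f u v y ↔
    f x = f y ∨ (f x = f u ∧ f y = f v) ∨ (f x = f v ∧ f y = f u) := by
  unfold mrg
  split_ifs <;> omega

lemma mrg_loop {f : ℕ → ℕ} {u v : ℕ} (h : f u = f v) : mrg f u v = f := funext fun w => by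
  unfold mrg
  split_ifs <;> omega

lemma mrg_univ {β : Type} {φ : ℕ → β} {f : ℕ → ℕ} {u v : ℕ} :
    Fac φ (mrg f u v) ↔ Fac φ f ∧ φ u = φ v := by
  simp only [Fac, mrg_eq]
  refine ⟨fun h => ⟨fun x y e => h x y (.inl e), h u v (by simp)⟩, ?_⟩
  rintro ⟨h, e⟩ x y (a | ⟨a, b⟩ | ⟨a, b⟩)
  · exact h x y a
  · rw [h _ _ a, h _ _ b, e]
  · rw [h _ _ a, h _ _ b, e]

lemma lab_univ {β : Type} {φ : ℕ → β} {L : EL} : ∀ {f : ℕ → ℕ},
    Fac φ (lab f L) ↔ Fac φ f ∧ ∀ e ∈ L, φ e.1 = φ e.2 := by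
  induction L with
  | nil => simp [lab]
  | cons e L ih => intro f; simp only [lab, ih, mrg_univ, List.forall_mem_cons, and_assoc]

lemma lab_self (f : ℕ → ℕ) (L : EL) : Fac (lab f L) f ∧ ∀ e ∈ L, lab f L e.1 = lab f L e.2 :=
  lab_univ.1 fun _ _ h => h

lemma Phi_congr (l : ℚ) (W : ℕ → Prop) (L : EL) : ∀ f g : ℕ → ℕ, (∀ e ∈ L, W e.1 ∧ W e.2) →
    (∀ a b, W a → W b → (f a = f b ↔ g a = g b)) → Phi l L f = Phi l L g := by
  induction L with
  | nil => intros; rfl
  | cons e L ih =>
    intro f g h1 h2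
    obtain ⟨⟨a, b⟩, h3⟩ := List.forall_mem_cons.1 h1
    simp only [Phi, h2 _ _ a b]
    rw [ih f g h3 h2, ih (mrg f e.1 e.2) (mrg g e.1 e.2) h3 fun x y hx hy => by
      simp only [mrg_eq, h2, hx, hy, a, b]]

lemma Phi_bridge (l : ℚ) {φ : ℕ → ℕ} {u v : ℕ} (h : φ u ≠ φ v) (L : EL) : ∀ f : ℕ → ℕ,
    Fac φ f → (∀ e ∈ L, φ e.1 = φ e.2) → Phi l L f = Phi l L (mrg f u v) := by
  induction L with
  | nil => intros; rfl
  | cons e L ih =>
    intro f h1 h2
    obtain ⟨a, h3⟩ := List.forall_mem_cons.1 h2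
    have e1 : mrg f u v e.1 = mrg f u v e.2 ↔ f e.1 = f e.2 := by
      rw [mrg_eq]
      refine ⟨?_, .inl⟩
      rintro (b | ⟨b, c⟩ | ⟨b, c⟩)
      · exact b
      · exact absurd ((h1 _ _ b).symm.trans (a.trans (h1 _ _ c))) h
      · exact absurd ((h1 _ _ c).symm.trans (a.symm.trans (h1 _ _ b))) h
    have e2 : ∀ a b c d, Fac (mrg (mrg f a b) c d) (mrg (mrg f c d) a b) := fun a b c d => by
      obtain ⟨⟨x, y⟩, z⟩ := (and_congr_left' mrg_univ).1
        (mrg_univ.1 (show Fac (mrg (mrg f a b) c d) (mrg (mrg f a b) c d) from fun _ _ h => h))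
      exact mrg_univ.2 ⟨mrg_univ.2 ⟨x, z⟩, y⟩
    simp only [Phi, e1]
    rw [← ih f h1 h3, ih _ (mrg_univ.2 ⟨h1, a⟩) h3, Phi_congr l (fun _ => True) L
      (mrg (mrg f e.1 e.2) u v) (mrg (mrg f u v) e.1 e.2) (by simp)
      fun x y _ _ => ⟨e2 _ _ _ _ x y, e2 _ _ _ _ x y⟩]

lemma card_fac {U : Finset ℕ} {g h : ℕ → ℕ} (H : Fac h g) : (U.image h).card ≤ (U.image g).card := by
  classical
  refine le_trans (card_le_card ?_) (card_image_le (s := U.image g)
    (f := fun c => if H : ∃ x, g x = c then h H.choose else 0))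
  intro c hc
  obtain ⟨x, hx, rfl⟩ := mem_image.1 hc
  have : ∃ y, g y = g x := ⟨x, rfl⟩
  exact mem_image.2 ⟨g x, mem_image_of_mem _ hx, by
    rw [dif_pos this]; exact H _ _ this.choose_spec⟩

lemma card_lab {U : Finset ℕ} {L : EL} (hL : In U L) : ∀ f : ℕ → ℕ,
    (U.image (lab f L)).card + rk f L = (U.image f).card := by
  induction L with
  | nil => intro f; rfl
  | cons e L ih =>
    intro f
    obtain ⟨⟨a, b⟩, h⟩ := List.forall_mem_cons.1 hL
    have := ih h (mrg f e.1 e.2)
    simp only [lab, rk]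
    split_ifs with c
    · rw [mrg_loop c] at this ⊢
      omega
    · have e1 : U.image (mrg f e.1 e.2) = (U.image f).erase (f e.2) := by
        ext z
        simp only [mem_image, mem_erase, mrg]
        constructor
        · rintro ⟨w, hw, rfl⟩
          split_ifs with h1
          exacts [⟨c, _, a, rfl⟩, ⟨h1, _, hw, rfl⟩]
        · rintro ⟨h1, w, hw, rfl⟩
          exact ⟨w, hw, if_neg h1⟩
      have e2 := card_erase_add_one (mem_image_of_mem f b)
      rw [e1] at this
      omega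

lemma exists_In (L : EL) : ∃ U, In U L := ⟨(L.map Prod.fst).toFinset ∪ (L.map Prod.snd).toFinset,
  fun _ he => ⟨mem_union_left _ (List.mem_toFinset.2 (List.mem_map_of_mem he)),
    mem_union_right _ (List.mem_toFinset.2 (List.mem_map_of_mem he))⟩⟩

lemma rk_mono (f : ℕ → ℕ) {A L : EL} (h : A ⊆ L) : rk f A ≤ rk f L := by
  obtain ⟨U, hU⟩ := exists_In L
  have h1 := card_lab hU f
  have h2 := card_lab (U := U) (L := A) (fun e he => hU e (h he)) f
  have h3 := card_fac (U := U) (lab_univ (L := A).2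
    ⟨(lab_self f L).1, fun e he => (lab_self f L).2 e (h he)⟩)
  omega

lemma rk_conn {f : ℕ → ℕ} {e : ℕ × ℕ} {L : EL} (h : lab f L e.1 = lab f L e.2) :
    rk f (e :: L) = rk f L := by
  obtain ⟨U, hU⟩ := exists_In (e :: L)
  have h1 := card_lab hU f
  have h2 := card_lab (U := U) (L := L) (fun e he => hU e (List.mem_cons_of_mem _ he)) f
  have h3 := card_fac (U := U) (lab_univ (L := e :: L).2
    ⟨(lab_self f L).1, List.forall_mem_cons.2 ⟨h, (lab_self f L).2⟩⟩)
  have := rk_mono f (List.subset_cons_self e L)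
  omega

lemma rk_le (L : EL) : ∀ f, rk f L ≤ L.length := by
  induction L with
  | nil => intro f; rfl
  | cons e L ih =>
    intro f
    have := ih (mrg f e.1 e.2)
    simp only [rk, List.length_cons]
    split_ifs <;> omega

lemma Phi_eq (l : ℚ) (L : EL) : ∀ f, Phi l L f =
    (L.sublists'.map fun A => if rk f A = A.length then l ^ A.length else 0).sum := by
  induction L with
  | nil => intro f; simp [Phi, rk]
  | cons e L ih =>
    intro f
    rw [Phi, List.sublists'_cons, List.map_append, List.sum_append, ← ih, List.map_map, ih (mrg _ _ _),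
      ← List.sum_map_mul_left]
    congr 1
    split_ifs with h
    · refine (List.sum_eq_zero fun z hz => ?_).symm
      obtain ⟨A, -, rfl⟩ := List.mem_map.1 hz
      have := rk_le A (mrg f e.1 e.2)
      simp only [Function.comp, rk, h, if_true, List.length_cons]
      rw [if_neg (by omega)]
    · congr 1
      refine List.map_congr_left fun A _ => ?_
      simp only [Function.comp, rk, h, if_false, List.length_cons, add_comm 1,
        Nat.add_right_cancel_iff]
      split_ifs <;> ring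

/-- the Tutte polynomial at `(x, 1)` of the edge list `L` on the classes of `f` -/
def Tx (x : ℚ) (f : ℕ → ℕ) (L : EL) : ℚ := (x - 1) ^ rk f L * Phi (x - 1)⁻¹ L f

lemma Tx_cons {x : ℚ} (hx : x ≠ 1) (f : ℕ → ℕ) (e : ℕ × ℕ) (L : EL) : Tx x f (e :: L) =
    if f e.1 = f e.2 then Tx x f L else if lab f L e.1 = lab f L e.2 then
      Tx x f L + Tx x (mrg f e.1 e.2) L else x * Tx x (mrg f e.1 e.2) L := by
  have h0 : x - 1 ≠ 0 := sub_ne_zero.2 hx
  split_ifs with h1 h2
  · simp [Tx, rk, Phi, h1, mrg_loop h1]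
  · have := rk_conn h2
    simp only [rk, h1, if_false] at this
    simp only [Tx, rk, Phi, h1, if_false, ← this]
    field_simp
    ring
  · simp only [Tx, rk, Phi, h1, if_false]
    rw [Phi_bridge _ h2 L f (lab_self f L).1 (lab_self f L).2]
    field_simp
    ring

lemma Tx_nonneg {x : ℚ} (h0 : 0 ≤ x) (hx : x ≠ 1) (L : EL) : ∀ f, 0 ≤ Tx x f L := by
  induction L with
  | nil => intro f; simp [Tx, rk, Phi]
  | cons e L ih =>
    intro f
    rw [Tx_cons hx]
    have := ih f
    have := ih (mrg f e.1 e.2)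
    split_ifs <;> positivity

theorem card_JJ {U : Finset ℕ} (L : EL) : ∀ f : ℕ → ℕ, In U L → (∀ w ∈ U, f w ∈ U) →
    ((JJ U (rl f L)).card : ℚ) = Tx 0 f L ∧ (JJ U (rl f L)).card ≤ 2 ^ L.length := by
  classical
  induction L with
  | nil => intro f _ _; simp [Tx, rk, Phi, rl, JJ_nil]
  | cons e L ih =>
    intro f hL hf
    obtain ⟨⟨a, b⟩, h⟩ := List.forall_mem_cons.1 hL
    have i1 := ih f h hf
    have i2 := ih (mrg f e.1 e.2) h fun w hw => by
      unfold mrg; split_ifs; exacts [hf _ a, hf _ hw]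
    have e1 : rl f (e :: L) = (f e.1, f e.2) :: rl f L := rfl
    have e2 : rl (mrg id (f e.1) (f e.2)) (rl f L) = rl (mrg f e.1 e.2) L := by
      simp only [rl, List.map_map]; rfl
    have hI : In U (rl f (e :: L)) := fun z hz => by
      obtain ⟨y, hy, rfl⟩ := List.mem_map.1 hz
      exact ⟨hf _ (hL y hy).1, hf _ (hL y hy).2⟩
    rw [Tx_cons zero_ne_one, List.length_cons, pow_succ]
    rw [e1] at hI ⊢
    split_ifs with h1 h2
    · rw [← h1, JJ_loop (hf _ a)]
      exact ⟨i1.1, by omega⟩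
    · have := (fibre hI h1 fun S hS hc => hS (by
        have := (lab_univ (φ := fun w => f w ∈ S) (L := L) (f := f)).2 ⟨fun x y h => congrArg (· ∈ S) h,
          fun z hz => propext (cr_eq_zero.1 hc _ (List.mem_map_of_mem hz))⟩ _ _ h2
        exact iff_of_eq this)).2.1
      rw [this, e2, Nat.cast_add, i1.1, i2.1]
      exact ⟨rfl, by omega⟩
    · have key : ∀ w ∈ U, f w ∈ (U.filter fun w => lab f L w = lab f L e.1).image f ↔
          lab f L w = lab f L e.1 := fun w hw => by
        simp only [mem_image, mem_filter]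
        exact ⟨fun ⟨z, hz, h⟩ => ((lab_self f L).1 _ _ h).symm.trans hz.2, fun h => ⟨w, ⟨hw, h⟩, rfl⟩⟩
      rw [JJ_bridge (S := (U.filter fun w => lab f L w = lab f L e.1).image f) hI
        (by rw [key _ a, key _ b]; simpa using fun h => h2 h.symm) (cr_eq_zero.2 fun z hz => by
          obtain ⟨y, hy, rfl⟩ := List.mem_map.1 hz
          rw [key _ (h y hy).1, key _ (h y hy).2, (lab_self f L).2 y hy])]
      simp

/-! ### The series-parallel gadget -/

lemma Phi_bundle (u v : ℕ) (L : EL) (k : ℕ) : ∀ f, Phi (-1) (List.replicate k (u, v) ++ L) f =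
    Phi (-1) L f - if f u = f v then 0 else k * Phi (-1) L (mrg f u v) := by
  induction k with
  | zero => intro f; simp
  | succ k ih =>
    intro f
    have : mrg f u v u = mrg f u v v := by simp [mrg_eq]
    simp only [List.replicate_succ, List.cons_append, Phi, ih, this, if_true]
    split_ifs
    · simp
    · push_cast; ring

/-- a path of bundles of parallel edges from `u` to `v` through `w, w + 1, ...` -/
def gad (u v w k : ℕ) : List ℕ → EL
  | [] => List.replicate k (u, v)
  | k' :: ks => List.replicate k (u, w) ++ gad w v (w + 1) k' ks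

def pB (ks : List ℕ) : ℚ := (ks.map fun k : ℕ => -(k : ℚ)).prod
def pC (ks : List ℕ) : ℚ := (ks.map fun k : ℕ => 1 - (k : ℚ)).prod

lemma Phi_gad (v : ℕ) (L : EL) (ks : List ℕ) : ∀ (u w k : ℕ) (f : ℕ → ℕ), u < w → v < w →
    (∀ e ∈ L, (e.1 < w ∨ w + ks.length ≤ e.1) ∧ (e.2 < w ∨ w + ks.length ≤ e.2)) →
    (∀ z, w ≤ z → ∀ y, f y = f z → y = z) → Phi (-1) (gad u v w k ks ++ L) f =
      (pC (k :: ks) - pB (k :: ks)) * Phi (-1) L f +
        if f u = f v then 0 else pB (k :: ks) * Phi (-1) L (mrg f u v) := by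
  induction ks with
  | nil =>
    intro u w k f _ _ _ _
    simp only [gad, Phi_bundle, pB, pC]
    split_ifs <;> simp
    ring
  | cons k' ks ih =>
    intro u w k f hu hv hL hf
    have hL' : ∀ e ∈ L, (e.1 < w + 1 ∨ w + 1 + ks.length ≤ e.1) ∧
        (e.2 < w + 1 ∨ w + 1 + ks.length ≤ e.2) := fun e he => by
      have := hL e he
      simp only [List.length_cons] at this
      omega
    have hW : ∀ e ∈ L, e.1 ≠ w ∧ e.2 ≠ w := fun e he => by
      have := hL e he
      simp only [List.length_cons] at this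
      omega
    have f1 : ∀ y, y ≠ w → f y ≠ f w := fun y hy h => hy (hf w le_rfl y h)
    have f2 := f1 u hu.ne
    have f3 := f1 v hv.ne
    have c1 : Phi (-1) L (mrg f w v) = Phi (-1) L f := Phi_congr _ (· ≠ w) L _ _ hW
      fun a b ha hb => by have := f1 a ha; have := f1 b hb; rw [mrg_eq]; omega
    have c2 : Phi (-1) L (mrg f u w) = Phi (-1) L f := Phi_congr _ (· ≠ w) L _ _ hW
      fun a b ha hb => by have := f1 a ha; have := f1 b hb; rw [mrg_eq]; omega
    have c3 : Phi (-1) L (mrg (mrg f u w) w v) = Phi (-1) L (mrg f u v) :=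
      Phi_congr _ (· ≠ w) L _ _ hW fun a b ha hb => by
        have := f1 a ha; have := f1 b hb; simp only [mrg_eq]; grind
    have c4 : mrg f u w w = mrg f u w v ↔ f u = f v := by rw [mrg_eq]; omega
    rw [gad, List.append_assoc, Phi_bundle, if_neg f2,
      ih w (w + 1) k' f (by omega) (by omega) hL' fun z hz => hf z (by omega),
      ih w (w + 1) k' (mrg f u w) (by omega) (by omega) hL' fun z hz y h => by
        have a := hf z (by omega)
        have := a y; have := a u; have := a w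
        rw [mrg_eq] at h
        omega, c1, c2, c3, if_neg f3.symm]
    simp only [c4, pB, pC, List.map_cons, List.prod_cons]
    split_ifs <;> ring

lemma gad_In {u v w k : ℕ} {ks : List ℕ} {e : ℕ × ℕ} (h : e ∈ gad u v w k ks) :
    (e.1 = u ∨ e.1 = v ∨ w ≤ e.1) ∧ (e.2 = u ∨ e.2 = v ∨ w ≤ e.2) := by
  induction ks generalizing u w k with
  | nil => simp [List.eq_of_mem_replicate h]
  | cons k' ks ih =>
    rcases List.mem_append.1 h with h | h
    · simp [List.eq_of_mem_replicate h]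
    · have := ih h
      omega

/-- every edge is replaced by the gadget -/
def GG (k : ℕ) (ks : List ℕ) : ℕ → EL → EL
  | _, [] => []
  | w, e :: E => gad e.1 e.2 w k ks ++ GG k ks (w + ks.length) E

lemma GG_In {k n : ℕ} {ks : List ℕ} {E : EL} (hE : ∀ e ∈ E, e.1 < n ∧ e.2 < n) : ∀ w,
    ∀ e ∈ GG k ks w E, (e.1 < n ∨ w ≤ e.1) ∧ (e.2 < n ∨ w ≤ e.2) := by
  induction E with
  | nil => intro w e h; simp [GG] at h
  | cons a E ih =>
    intro w e h
    obtain ⟨h1, h2⟩ := List.forall_mem_cons.1 hE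
    rcases List.mem_append.1 h with h | h
    · have := gad_In h
      omega
    · have := ih h2 _ e h
      omega

lemma Phi_GG {k n : ℕ} {ks : List ℕ} {l : ℚ} (hl : pB (k :: ks) = l * (pC (k :: ks) - pB (k :: ks)))
    {E : EL} (hE : ∀ e ∈ E, e.1 < n ∧ e.2 < n) : ∀ (w : ℕ) (f : ℕ → ℕ), n ≤ w →
      (∀ z, n ≤ z → ∀ y, f y = f z → y = z) →
      Phi (-1) (GG k ks w E) f = (pC (k :: ks) - pB (k :: ks)) ^ E.length * Phi l E f := by
  induction E with
  | nil => intros; simp [GG, Phi]
  | cons a E ih =>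
    intro w f hw hf
    obtain ⟨h1, h2⟩ := List.forall_mem_cons.1 hE
    rw [GG, Phi_gad _ _ _ _ _ _ _ (by omega) (by omega) (fun e he => by
      have := GG_In h2 _ e he; omega) fun z hz => hf z (by omega), ih h2 _ f (by omega) hf,
      ih h2 _ (mrg f a.1 a.2) (by omega) fun z hz y h => by
        have b := hf z hz
        have := b y; have := b a.1; have := b a.2
        rw [mrg_eq] at h
        omega, Phi, List.length_cons]
    split_ifs
    · ring
    · linear_combination (pC (k :: ks) - pB (k :: ks)) ^ E.length * Phi l E (mrg f a.1 a.2) * hl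

lemma prod_range' (a j : ℕ) : pC (List.range' (a + 1) j) * (a + j) = a * pB (List.range' (a + 1) j) ∧
    pB (List.range' (a + 1) j) ≠ 0 := by
  induction j generalizing a with
  | zero => simp [pB, pC]
  | succ j ih =>
    obtain ⟨h1, h2⟩ := ih (a + 1)
    simp only [pB, pC, List.range'_succ, List.map_cons, List.prod_cons] at *
    refine ⟨?_, mul_ne_zero (neg_ne_zero.2 (by positivity)) h2⟩
    push_cast at *
    linear_combination (-a) * h1

/-- reduction of the point `(x, 1)` to the lattice point count -/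
theorem reduce {x : ℚ} (h0 : 0 ≤ x) (h1 : x < 1) : ∃ (k : ℕ) (ks : List ℕ) (p q c : ℕ), 0 < p ∧
    0 < q ∧ 0 < c ∧
    ∀ (n : ℕ) (E : EL) (U : Finset ℕ), (∀ e ∈ E, e.1 < n ∧ e.2 < n) → In U (GG k ks n E) →
      Tx x id E = (JJ U (GG k ks n E)).card * p ^ rk id E / (q ^ rk id E * c ^ E.length) := by
  obtain ⟨a, ha⟩ := Int.eq_ofNat_of_zero_le (Rat.num_nonneg.2 h0)
  have hd : (0 : ℚ) < x.den := by exact_mod_cast x.den_pos
  have hx : x * x.den = a := by rw [Rat.mul_den_eq_num, ha]; simp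
  have hlt : a < x.den := by
    have : (a : ℚ) < x.den := by nlinarith
    exact_mod_cast this
  obtain ⟨j, hj⟩ := Nat.exists_eq_add_of_lt hlt
  obtain ⟨g1, g2⟩ := prod_range' a (j + 1)
  rw [List.range'_succ] at g1 g2
  set ks := List.range' (a + 1 + 1) j
  have hj' : (x.den : ℚ) = a + (j + 1 : ℕ) := by rw [hj]; push_cast; ring
  have g3 : pC ((a + 1) :: ks) = x * pB ((a + 1) :: ks) := by
    refine mul_right_cancel₀ hd.ne' ?_
    rw [hj'] at hx ⊢
    linear_combination g1 - pB ((a + 1) :: ks) * hx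
  have hx1 : x - 1 ≠ 0 := by linarith
  obtain ⟨A, hA⟩ : ∃ A : ℤ, pC ((a + 1) :: ks) - pB ((a + 1) :: ks) = A :=
    ⟨(((a + 1) :: ks).map fun k : ℕ => 1 - (k : ℤ)).prod -
      (((a + 1) :: ks).map fun k : ℕ => -(k : ℤ)).prod, by
      simp [pB, pC, Function.comp_def]⟩
  have A0 : (A : ℚ) ≠ 0 := by
    rw [← hA, g3, ← sub_one_mul]; exact mul_ne_zero hx1 g2
  refine ⟨a + 1, ks, j + 1, x.den, A.natAbs, j.succ_pos, x.den_pos,
    Int.natAbs_pos.2 (by exact_mod_cast A0),
    fun n E U hE hU => ?_⟩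
  have e1 := (card_JJ _ id hU fun w hw => hw).1
  have e2 := Phi_GG (l := (x - 1)⁻¹) (k := a + 1) (ks := ks) (by rw [g3]; field_simp) hE n id le_rfl
    fun z _ y h => h
  have e3 : rl id (GG (a + 1) ks n E) = GG (a + 1) ks n E := by simp [rl]
  rw [e3, Tx, zero_sub, inv_neg, inv_one, e2, hA] at e1
  have e4 := congrArg abs e1
  rw [abs_of_nonneg (Nat.cast_nonneg _), abs_mul, abs_mul, abs_pow, abs_pow, abs_neg, abs_one,
    one_pow, one_mul] at e4
  have e5 : |x - 1| = (j + 1 : ℕ) / x.den := by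
    rw [abs_of_neg (by linarith), eq_div_iff hd.ne']
    linear_combination hj' - hx
  rw [← abs_of_nonneg (Tx_nonneg h0 h1.ne E id), Tx, abs_mul, abs_pow, e4, e5, Nat.cast_natAbs,
    Int.cast_abs, div_pow]
  have : |(A : ℚ)| ≠ 0 := abs_ne_zero.2 A0
  field_simp

/-! ### Components -/

lemma comps_eq {n : ℕ} {A : EL} (hA : ∀ e ∈ A, e.1 < n ∧ e.2 < n) :
    Nat.card (SimpleGraph.fromRel fun u v : Fin n => (u.val, v.val) ∈ A).ConnectedComponent +
      rk id A = n := by
  classical
  set G := SimpleGraph.fromRel fun u v : Fin n => (u.val, v.val) ∈ A with hG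
  have h1 := card_lab (U := range n) (L := A) (fun e he => by simpa using hA e he) id
  rw [image_id, card_range] at h1
  have h2 : ∀ a b : Fin n, G.Reachable a b → lab id A a = lab id A b := by
    rintro a b ⟨p⟩
    induction p with
    | nil => rfl
    | cons h _ ih =>
      refine Eq.trans ?_ ih
      rcases ((SimpleGraph.fromRel_adj _ _ _).1 h).2 with h | h
      exacts [(lab_self id A).2 _ h, ((lab_self id A).2 _ h).symm]
  have h3 := (lab_univ (φ := fun w => if h : w < n then some (G.connectedComponentMk ⟨w, h⟩)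
    else none) (L := A) (f := id)).2 ⟨fun x y h => by rw [show x = y from h], fun e he => by
      obtain ⟨a, b⟩ := hA e he
      simp only [a, b, dif_pos, Option.some.injEq, SimpleGraph.ConnectedComponent.eq]
      by_cases h : (⟨e.1, a⟩ : Fin n) = ⟨e.2, b⟩
      · rw [h]
      · exact SimpleGraph.Adj.reachable ((SimpleGraph.fromRel_adj _ _ _).2 ⟨h, .inl he⟩)⟩
  set g : G.ConnectedComponent → ℕ := Quot.lift (fun a : Fin n => lab id A a) h2 with hg
  have h4 : Function.Injective g := by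
    rintro ⟨a⟩ ⟨b⟩ h
    exact Quot.sound (by simpa using h3 a b h)
  have h5 : Set.range g = ((range n).image (lab id A) : Finset ℕ) := by
    ext z
    simp only [Set.mem_range, coe_image, coe_range, Set.mem_image, Set.mem_Iio]
    refine ⟨?_, fun ⟨a, h, e⟩ => ⟨G.connectedComponentMk ⟨a, h⟩, e⟩⟩
    rintro ⟨⟨a⟩, h⟩
    exact ⟨a, a.2, h⟩
  rw [← Nat.card_range_of_injective h4, h5, Nat.card_coe_set_eq, Set.ncard_coe_finset, h1]

lemma Tx_eq {x : ℚ} (hx : x ≠ 1) (E : EL) : Tx x id E = (E.sublists.map fun A =>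
    (x - 1) ^ (rk id E - rk id A) * (1 - 1 : ℚ) ^ (A.length - rk id A)).sum := by
  rw [((List.sublists_perm_sublists' E).map _).sum_eq, Tx, Phi_eq, ← List.sum_map_mul_left]
  congr 1
  refine List.map_congr_left fun A hA => ?_
  have h1 := rk_mono id (List.mem_sublists'.1 hA).subset
  have h2 := rk_le A id
  have h0 : x - 1 ≠ 0 := sub_ne_zero.2 hx
  split_ifs with h
  · rw [← h, Nat.sub_self, pow_sub₀ _ h0 h1]
    simp
  · rw [sub_self, zero_pow (by omega), mul_zero, mul_zero]

end Pool.Agent.Lib.MP_b67cc8_lc
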