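import Pool.Agent.Lib.helper82.Arith

/-! Expectation over random bit strings and randomized iteration. -/

namespace Pool.Agent.Lib.MP_b67cc8_lc

open Finset Pool.Agent.Lib.helper82

/-- expectation over uniform bit strings of length `n` -/
noncomputable def Ex : ℕ → (List Bool → ℝ) → ℝ
  | 0, f => f []
  | n + 1, f => (Ex n (fun r => f (false :: r)) + Ex n fun r => f (true :: r)) / 2

lemma Ex_mono {n : ℕ} : ∀ {f g : List Bool → ℝ}, (∀ r, r.length = n → f r ≤ g r) →
    Ex n f ≤ Ex n g := by
  induction n with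
  | zero => intro f g h; exact h [] rfl
  | succ n ih =>
    intro f g h
    simp only [Ex]
    gcongr <;> exact ih fun r hr => h _ (by simp [hr])

lemma Ex_congr {n : ℕ} {f g : List Bool → ℝ} (h : ∀ r, r.length = n → f r = g r) :
    Ex n f = Ex n g :=
  le_antisymm (Ex_mono fun r hr => (h r hr).le) (Ex_mono fun r hr => (h r hr).ge)

lemma Ex_const (n : ℕ) (c : ℝ) : Ex n (fun _ => c) = c := by
  induction n with
  | zero => rfl
  | succ n ih => simp [Ex, ih]

lemma Ex_add (n : ℕ) : ∀ f g : List Bool → ℝ, Ex n (fun r => f r + g r) = Ex n f + Ex n g := by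
  induction n with
  | zero => intros; rfl
  | succ n ih => intro f g; simp only [Ex, ih]; ring

lemma Ex_mul (n : ℕ) (c : ℝ) : ∀ f : List Bool → ℝ, Ex n (fun r => c * f r) = c * Ex n f := by
  induction n with
  | zero => intros; rfl
  | succ n ih => intro f; simp only [Ex, ih]; ring

lemma Ex_append (a b : ℕ) : ∀ f : List Bool → ℝ,
    Ex (a + b) f = Ex a fun x => Ex b fun y => f (x ++ y) := by
  induction a with
  | zero => intro f; simp [Ex]
  | succ a ih => intro f; rw [Nat.add_right_comm]; simp only [Ex, ih, List.cons_append]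

lemma Ex_sum (n : ℕ) : ∀ f : List Bool → ℝ,
    Ex n f = (∑ r : Fin n → Bool, f (List.ofFn r)) / 2 ^ n := by
  induction n with
  | zero => intro f; simp [Ex]
  | succ n ih =>
    intro f
    rw [Ex, ih, ih, ← (Fin.consEquiv fun _ => Bool).sum_comp, Fintype.sum_prod_type]
    simp only [Fin.consEquiv_apply, List.ofFn_succ, Fin.cons_zero, Fin.cons_succ,
      Fintype.sum_bool]
    ring

lemma Ex_ofB (n : ℕ) : ∀ F : ℕ → ℝ, Ex n (fun x => F (ofB x)) = (∑ k ∈ range (2 ^ n), F k) / 2 ^ n := by
  induction n with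
  | zero => intro F; simp [Ex, ofB]
  | succ n ih =>
    intro F
    have e : ∀ m, ∑ k ∈ range (m * 2), F k = ∑ k ∈ range m, F (Nat.bit false k) +
        ∑ k ∈ range m, F (Nat.bit true k) := fun m => by
      induction m with
      | zero => simp
      | succ m ih => simp only [add_mul, one_mul, sum_range_succ, ih, Nat.bit_val]; simp; ring_nf
    have h1 := ih fun k => F (Nat.bit false k)
    have h2 := ih fun k => F (Nat.bit true k)
    simp only [ofB, Ex, List.foldr_cons] at *
    rw [h1, h2, pow_succ, e]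
    ring

lemma Ex_bool (n : ℕ) (g : List Bool → Bool) (F : Bool → ℝ) : Ex n (fun x => F (g x)) =
    F false + (F true - F false) * Ex n fun x => (g x).toNat := by
  rw [← Ex_mul, ← Ex_const n (F false), ← Ex_add]
  refine Ex_congr fun r _ => ?_
  rw [Ex_const]
  cases g r <;> simp

variable {σ : Type}

/-- one step reading `k` random bits -/
def rst (k : ℕ) (h : σ → List Bool → σ) (p : σ × List Bool) : σ × List Bool :=
  (h p.1 (p.2.take k), p.2.drop k)

/-- `t` steps, each reading `k` random bits -/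
def rit (k : ℕ) (h : σ → List Bool → σ) (t : ℕ) (s : σ) (r : List Bool) : σ :=
  ((rst k h)^[t] (s, r)).1

/-- the transition operator -/
noncomputable def Kop (k : ℕ) (h : σ → List Bool → σ) (F : σ → ℝ) (s : σ) : ℝ :=
  Ex k fun x => F (h s x)

lemma Ex_rit (k : ℕ) (h : σ → List Bool → σ) (F : σ → ℝ) (t : ℕ) : ∀ (n : ℕ) (s : σ), k * t ≤ n →
    Ex n (fun r => F (rit k h t s r)) = (Kop k h)^[t] F s := by
  induction t with
  | zero => intro n s _; exact Ex_const n (F s)
  | succ t ih =>
    intro n s hn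
    obtain ⟨m, rfl⟩ := Nat.exists_eq_add_of_le (show k ≤ n by nlinarith)
    rw [Ex_append, Function.iterate_succ_apply', Kop]
    refine Ex_congr fun x hx => ?_
    rw [← ih m _ (by nlinarith)]
    simp only [rit, Function.iterate_succ_apply, rst, List.take_left' hx, List.drop_left' hx]

/-- the number of successes in `s` independent trials -/
def cnt (k : ℕ) (g : List Bool → Bool) (s : ℕ) (r : List Bool) : ℕ :=
  rit k (fun c x => c + (g x).toNat) s 0 r

lemma Ex_cnt (k : ℕ) (g : List Bool → Bool) (s : ℕ) {n : ℕ} (hn : k * s ≤ n) {μ : ℝ}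
    (hμ : μ = Ex k fun x => (g x).toNat) : Ex n (fun r => cnt k g s r) = s * μ ∧
      Ex n (fun r => (cnt k g s r : ℝ) ^ 2) = (s * μ) ^ 2 + s * μ * (1 - μ) := by
  have key : ∀ s : ℕ, (Kop k fun c x => c + (g x).toNat)^[s] (fun c : ℕ => (c : ℝ)) =
      (fun c : ℕ => c + s * μ) ∧ (Kop k fun c x => c + (g x).toNat)^[s] (fun c : ℕ => (c : ℝ) ^ 2) =
      fun c : ℕ => (c + s * μ) ^ 2 + s * μ * (1 - μ) := fun s => by
    induction s with
    | zero => simp
    | succ s ih =>
      simp only [Function.iterate_succ_apply', ih]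
      constructor <;> funext c
      · rw [Kop, Ex_bool k g fun b => ((c + b.toNat : ℕ) : ℝ) + s * μ, ← hμ]
        simp
        ring
      · rw [Kop, Ex_bool k g fun b => (((c + b.toNat : ℕ) : ℝ) + s * μ) ^ 2 + s * μ * (1 - μ), ← hμ]
        simp
        ring
  simp only [cnt]
  rw [Ex_rit k _ (fun c : ℕ => (c : ℝ)) s n 0 hn, Ex_rit k _ (fun c : ℕ => (c : ℝ) ^ 2) s n 0 hn,
    (key s).1, (key s).2]
  simp

end Pool.Agent.Lib.MP_b67cc8_lc
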