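import Pool.Agent.Lib.MP_b67cc8_lc.Mix2

/-! The lazy exchange walk on an M-convex set of vectors indexed by numbers mixes fast. -/

namespace Pool.Agent.Lib.MP_b67cc8_lc

open Finset
open scoped Classical

/-- one attempted exchange -/
noncomputable def stp (J : Finset (ℕ → ℕ)) (d : ℕ → ℕ) (i j : ℕ) : ℕ → ℕ :=
  if 0 < d i ∧ mv d i j ∈ J then mv d i j else d

lemma stp_mem {J : Finset (ℕ → ℕ)} {d : ℕ → ℕ} (h : d ∈ J) (i j : ℕ) : stp J d i j ∈ J := by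
  unfold stp
  split_ifs with h1
  exacts [h1.2, h]

theorem poincareN (U : Finset ℕ) {J : Finset (ℕ → ℕ)} {r : ℕ} (hJ : Exch J) (hne : J.Nonempty)
    (hs : ∀ d ∈ J, ∀ v ∉ U, d v = 0) (hr : ∀ d ∈ J, ∑ v ∈ U, d v = r) (f : (ℕ → ℕ) → ℝ) :
    ∃ m : ℝ, ∑ d ∈ J, (f d - m) ^ 2 ≤ 13000 * (U.card + 1) ^ 3 * (r + 2) ^ 5 *
      ∑ d ∈ J, ∑ i ∈ U, ∑ j ∈ U, (f d - f (stp J d i j)) ^ 2 := by
  set ext : (U → ℕ) → ℕ → ℕ := fun a v => if h : v ∈ U then a ⟨v, h⟩ else 0 with hext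
  set res : (ℕ → ℕ) → U → ℕ := fun d i => d i with hres
  have e1 : ∀ d ∈ J, ext (res d) = d := fun d hd => funext fun v => by
    simp only [hext, hres]
    split_ifs with h
    exacts [rfl, (hs d hd v h).symm]
  have e2 : ∀ a, res (ext a) = a := fun a => funext fun i => by simp [hext, hres]
  have e3 : ∀ a, a ∈ J.image res ↔ ext a ∈ J := fun a => by
    rw [mem_image]
    exact ⟨fun ⟨d, hd, h⟩ => by rw [← h, e1 d hd]; exact hd, fun h => ⟨_, h, e2 a⟩⟩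
  have e4 : ∀ a (i j : U), ext (mv a i j) = mv (ext a) i j := fun a i j => funext fun v => by
    simp only [hext, mv, up]
    by_cases h : v ∈ U
    · simp only [h, dif_pos, Subtype.ext_iff]
    · have h1 : v ≠ i := fun e => h (e ▸ i.2)
      have h2 : v ≠ j := fun e => h (e ▸ j.2)
      simp [h, h1, h2]
  have inj : Set.InjOn res J := fun d hd d' hd' h => by rw [← e1 d hd, h, e1 d' hd']
  obtain ⟨m, hm⟩ := poincare (ι := U) (J := J.image res) (r := r) (fun x' hx' y' hy' k hk => by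
    obtain ⟨x, hx, rfl⟩ := mem_image.1 hx'
    obtain ⟨y, hy, rfl⟩ := mem_image.1 hy'
    obtain ⟨m, h1, h2⟩ := hJ x hx y hy k hk
    have hm : m ∈ U := by
      by_contra h
      have := hs x hx m h
      omega
    exact ⟨⟨m, hm⟩, h1, (e3 _).2 (by rw [e4, e1 x hx]; exact h2)⟩) (hne.image _) (fun a ha => by
    obtain ⟨x, hx, rfl⟩ := mem_image.1 ha
    rw [← hr x hx, ← sum_coe_sort U x]) fun a => f (ext a)
  refine ⟨m, ?_⟩
  rw [sum_image inj, sum_image inj, Fintype.card_coe] at hm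
  convert hm using 2 with d hd
  · rw [e1 d hd]
  · refine sum_congr rfl fun d hd => ?_
    rw [En, ← sum_coe_sort U]
    refine sum_congr rfl fun i _ => ?_
    rw [← sum_coe_sort U]
    refine sum_congr rfl fun j _ => ?_
    simp only [e3, e4, e1 d hd, stp]
    change _ = if 0 < d i ∧ _ then _ else _
    split_ifs <;> simp

lemma mv_mv {d : ℕ → ℕ} {i : ℕ} (h : 0 < d i) (j : ℕ) : mv (mv d i j) j i = d := by
  funext a
  simp only [mv, up]
  split_ifs <;> subst_vars <;> omega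

lemma mv_pos (d : ℕ → ℕ) (i j : ℕ) : 0 < mv d i j j := by simp [mv, up]

lemma stp_anti (J : Finset (ℕ → ℕ)) (G : (ℕ → ℕ) → (ℕ → ℕ) → ℝ) (hG : ∀ x y, G x y = -G y x)
    (i j : ℕ) : ∑ d ∈ J, G d (stp J d i j) = -∑ d ∈ J, G d (stp J d j i) := by
  have h0 : ∀ x, G x x = 0 := fun x => by linarith [hG x x]
  have e : ∀ i j, ∑ d ∈ J, G d (stp J d i j) =
      ∑ d ∈ J.filter fun d => 0 < d i ∧ mv d i j ∈ J, G d (mv d i j) := fun i j => by
    rw [sum_filter]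
    refine sum_congr rfl fun d _ => ?_
    unfold stp
    split_ifs
    exacts [rfl, h0 d]
  rw [e, e, ← sum_neg_distrib]
  refine sum_nbij' (fun d => mv d i j) (fun d => mv d j i) ?_ ?_ ?_ ?_ ?_
  · intro d hd
    simp only [mem_filter] at hd ⊢
    exact ⟨hd.2.2, mv_pos _ _ _, by rw [mv_mv hd.2.1]; exact hd.1⟩
  · intro d hd
    simp only [mem_filter] at hd ⊢
    exact ⟨hd.2.2, mv_pos _ _ _, by rw [mv_mv hd.2.1]; exact hd.1⟩
  · intro d hd
    exact mv_mv (mem_filter.1 hd).2.1 _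
  · intro d hd
    exact mv_mv (mem_filter.1 hd).2.1 _
  · intro d hd
    rw [mv_mv (mem_filter.1 hd).2.1, hG]

/-- the lazy exchange walk: both coordinates are chosen as `V k` with `k < K` uniform -/
noncomputable def Pk (J : Finset (ℕ → ℕ)) (K : ℕ) (V : ℕ → ℕ) (f : (ℕ → ℕ) → ℝ) (d : ℕ → ℕ) : ℝ :=
  (f d + (∑ a ∈ range K, ∑ b ∈ range K, f (stp J d (V a) (V b))) / K ^ 2) / 2

lemma sym_sum (J : Finset (ℕ → ℕ)) (K : ℕ) (V : ℕ → ℕ) (F : (ℕ → ℕ) → (ℕ → ℕ) → ℝ) :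
    ∑ d ∈ J, ∑ a ∈ range K, ∑ b ∈ range K, F d (stp J d (V a) (V b)) =
      ∑ d ∈ J, ∑ a ∈ range K, ∑ b ∈ range K, F (stp J d (V a) (V b)) d := by
  set S : ℕ → ℕ → ℝ := fun i j => ∑ d ∈ J, (F d (stp J d i j) - F (stp J d i j) d) with hS
  have h1 : ∀ i j, S i j = -S j i := stp_anti J (fun x y => F x y - F y x) fun x y => by ring
  have h2 : ∑ a ∈ range K, ∑ b ∈ range K, S (V a) (V b) = 0 := by
    have : ∑ a ∈ range K, ∑ b ∈ range K, S (V a) (V b) =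
        -∑ a ∈ range K, ∑ b ∈ range K, S (V a) (V b) := by
      conv_lhs => rw [sum_comm]
      simp only [← sum_neg_distrib]
      exact sum_congr rfl fun a _ => sum_congr rfl fun b _ => h1 _ _
    linarith
  rw [← sub_eq_zero, ← h2]
  simp only [hS, ← sum_sub_distrib]
  rw [sum_comm]
  exact sum_congr rfl fun a _ => sum_comm

lemma Pk_sum (J : Finset (ℕ → ℕ)) {K : ℕ} (hK : 0 < K) (V : ℕ → ℕ) (f : (ℕ → ℕ) → ℝ) :
    ∑ d ∈ J, Pk J K V f d = ∑ d ∈ J, f d := by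
  have := sym_sum J K V fun _ y => f y
  simp only [sum_const, card_range, nsmul_eq_mul, ← mul_sum] at this
  simp only [Pk, ← sum_div, sum_add_distrib, this]
  field_simp
  ring

lemma Pk_sq (J : Finset (ℕ → ℕ)) {K : ℕ} (hK : 0 < K) (V : ℕ → ℕ) (f : (ℕ → ℕ) → ℝ) :
    ∑ d ∈ J, Pk J K V f d ^ 2 ≤ ∑ d ∈ J, f d ^ 2 - (∑ d ∈ J, ∑ a ∈ range K, ∑ b ∈ range K,
      (f d - f (stp J d (V a) (V b))) ^ 2) / (4 * K ^ 2) := by
  have hK' : (0 : ℝ) < K := by exact_mod_cast hK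
  have h1 := sym_sum J K V fun _ y => f y ^ 2
  simp only [sum_const, card_range, nsmul_eq_mul, ← mul_sum] at h1
  have h2 : ∀ d, Pk J K V f d ^ 2 ≤ (∑ a ∈ range K, ∑ b ∈ range K,
      (f d + f (stp J d (V a) (V b))) ^ 2) / (4 * K ^ 2) := fun d => by
    have e : Pk J K V f d = (∑ p ∈ range K ×ˢ range K, (f d + f (stp J d (V p.1) (V p.2)))) /
        (2 * K ^ 2) := by
      simp only [sum_product, sum_add_distrib, sum_const, card_product, card_range, nsmul_eq_mul,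
        Pk, Nat.cast_mul]
      field_simp
    have := sq_sum_le_card_mul_sum_sq (s := range K ×ˢ range K)
      (f := fun p => f d + f (stp J d (V p.1) (V p.2)))
    rw [card_product, card_range, sum_product (f := fun p => (f d + f (stp J d (V p.1) (V p.2))) ^ 2)]
      at this
    rw [e, div_pow, div_le_div_iff₀ (by positivity) (by positivity)]
    push_cast at this
    nlinarith [mul_le_mul_of_nonneg_left this (show 0 ≤ 4 * (K : ℝ) ^ 2 by positivity)]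
  refine (sum_le_sum fun d _ => h2 d).trans (le_of_eq ?_)
  rw [← sum_div, eq_sub_iff_add_eq, ← add_div, div_eq_iff (by positivity)]
  simp only [← sum_add_distrib]
  have e : ∀ x y : ℝ, (x + y) ^ 2 + (x - y) ^ 2 = 2 * x ^ 2 + 2 * y ^ 2 := fun x y => by ring
  simp only [e, sum_add_distrib, ← mul_sum, h1, sum_const, card_range, nsmul_eq_mul]
  ring

lemma Pk_sub (J : Finset (ℕ → ℕ)) {K : ℕ} (hK : 0 < K) (V : ℕ → ℕ) (f : (ℕ → ℕ) → ℝ) (c : ℝ) :
    Pk J K V (fun d => f d - c) = fun d => Pk J K V f d - c := by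
  funext d
  simp only [Pk, sum_sub_distrib, sum_const, card_range, nsmul_eq_mul]
  field_simp
  ring

section
variable {U : Finset ℕ} {J : Finset (ℕ → ℕ)} {r K : ℕ} {V : ℕ → ℕ}

lemma Pk_contr (hJ : Exch J) (hne : J.Nonempty) (hs : ∀ d ∈ J, ∀ v ∉ U, d v = 0)
    (hr : ∀ d ∈ J, ∑ v ∈ U, d v = r) (hK : 0 < K) (hV : ∀ v ∈ U, ∃ a < K, V a = v) {γ : ℝ}
    (hγ : 52000 * (U.card + 1) ^ 3 * (r + 2) ^ 5 * K ^ 2 * γ ≤ 1) (γ0 : 0 ≤ γ)
    {f : (ℕ → ℕ) → ℝ} (hf : ∑ d ∈ J, f d = 0) :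
    ∑ d ∈ J, Pk J K V f d ^ 2 ≤ (1 - γ) * ∑ d ∈ J, f d ^ 2 := by
  have hK' : (0 : ℝ) < K := by exact_mod_cast hK
  obtain ⟨m, hm⟩ := poincareN U hJ hne hs hr f
  have h1 : ∑ d ∈ J, f d ^ 2 ≤ ∑ d ∈ J, (f d - m) ^ 2 := by
    simp only [sub_sq, sum_add_distrib, sum_sub_distrib, mul_assoc, ← mul_sum, ← sum_mul, hf]
    have : 0 ≤ ∑ d ∈ J, m ^ 2 := sum_nonneg fun _ _ => sq_nonneg _
    linarith
  have h0 : ∀ F : ℕ → ℝ, (∀ v, 0 ≤ F v) → ∑ v ∈ U, F v ≤ ∑ a ∈ range K, F (V a) := fun F hF =>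
    (sum_le_sum_of_subset_of_nonneg (t := (range K).image V) (fun v hv => by
      obtain ⟨a, ha, e⟩ := hV v hv
      exact mem_image.2 ⟨a, mem_range.2 ha, e⟩) fun _ _ _ => hF _).trans
      (sum_image_le_of_nonneg fun _ _ => hF _)
  have h2 : ∑ d ∈ J, ∑ i ∈ U, ∑ j ∈ U, (f d - f (stp J d i j)) ^ 2 ≤
      ∑ d ∈ J, ∑ a ∈ range K, ∑ b ∈ range K, (f d - f (stp J d (V a) (V b))) ^ 2 :=
    sum_le_sum fun d _ => (h0 _ fun _ => sum_nonneg fun _ _ => sq_nonneg _).trans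
      (sum_le_sum fun a _ => h0 _ fun _ => sq_nonneg _)
  have h3 := Pk_sq J hK V f
  set E := ∑ d ∈ J, ∑ a ∈ range K, ∑ b ∈ range K, (f d - f (stp J d (V a) (V b))) ^ 2
  have E0 : 0 ≤ E := sum_nonneg fun _ _ => sum_nonneg fun _ _ => sum_nonneg fun _ _ => sq_nonneg _
  have h4 := (h1.trans hm).trans (mul_le_mul_of_nonneg_left h2 (by positivity))
  have h5 : γ * ∑ d ∈ J, f d ^ 2 ≤ E / (4 * K ^ 2) := by
    rw [le_div_iff₀ (by positivity)]
    nlinarith [mul_le_mul_of_nonneg_left h4 (show 0 ≤ γ * (4 * K ^ 2) by positivity),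
      mul_le_mul_of_nonneg_left hγ E0]
  linarith

theorem Pk_mix (hJ : Exch J) (hs : ∀ d ∈ J, ∀ v ∉ U, d v = 0)
    (hr : ∀ d ∈ J, ∑ v ∈ U, d v = r) (hK : 0 < K) (hV : ∀ v ∈ U, ∃ a < K, V a = v) {γ : ℝ}
    (hγ : 52000 * (U.card + 1) ^ 3 * (r + 2) ^ 5 * K ^ 2 * γ ≤ 1) (γ0 : 0 ≤ γ) (γ1 : γ ≤ 1)
    {f : (ℕ → ℕ) → ℝ} (h0 : ∀ d, 0 ≤ f d) (h1 : ∀ d, f d ≤ 1) (t : ℕ) {d : ℕ → ℕ} (hd : d ∈ J) :
    ((Pk J K V)^[t] f d - (∑ d ∈ J, f d) / J.card) ^ 2 ≤ (1 - γ) ^ t * J.card := by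
  have hne : J.Nonempty := ⟨d, hd⟩
  have hc : (0 : ℝ) < J.card := by exact_mod_cast hne.card_pos
  set c := (∑ d ∈ J, f d) / J.card with hcd
  have key : ∀ t : ℕ, ∑ d ∈ J, ((Pk J K V)^[t] f d - c) = 0 ∧
      ∑ d ∈ J, ((Pk J K V)^[t] f d - c) ^ 2 ≤ (1 - γ) ^ t * J.card := by
    intro t
    induction t with
    | zero =>
      have c0 : 0 ≤ c := div_nonneg (sum_nonneg fun _ _ => h0 _) hc.le
      have c1 : c ≤ 1 := by
        rw [hcd, div_le_one hc]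
        simpa using sum_le_card_nsmul J f 1 fun d _ => h1 d
      simp only [Function.iterate_zero, id, sum_sub_distrib, sum_const, nsmul_eq_mul, pow_zero,
        one_mul]
      refine ⟨by rw [hcd]; field_simp; ring, ?_⟩
      simpa using sum_le_card_nsmul J (fun d => (f d - c) ^ 2) 1 fun d _ => by
        nlinarith [h0 d, h1 d]
    | succ t ih =>
      have e := Pk_sub J hK V ((Pk J K V)^[t] f) c
      have a1 := Pk_sum J hK V fun d => (Pk J K V)^[t] f d - c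
      have a2 := Pk_contr hJ hne hs hr hK hV hγ γ0 ih.1
      rw [e] at a1 a2
      simp only [Function.iterate_succ_apply']
      refine ⟨a1.trans ih.1, a2.trans ?_⟩
      rw [pow_succ', mul_assoc]
      exact mul_le_mul_of_nonneg_left ih.2 (by linarith)
  exact (single_le_sum (f := fun d => ((Pk J K V)^[t] f d - c) ^ 2) (fun _ _ => sq_nonneg _)
    hd).trans (key t).2

end

end Pool.Agent.Lib.MP_b67cc8_lc
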