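import Pool.Agent.Lib.MP_b67cc8_lc.Orient
import Pool.Agent.Lib.MP_b67cc8_lc.Tutte
import Pool.Agent.Lib.MP_b67cc8_lc.Prob

/-! The randomized approximation scheme and its analysis. -/

namespace Pool.Agent.Lib.MP_b67cc8_lc

open Finset Pool.Agent.Lib.helper82

def pstep (k : ℕ) (s : ℕ × ℕ) (v : ℕ) : ℕ × ℕ := (s.1 + 1, if s.1 = k then v else s.2)

/-- the `k`-th entry -/
def pick (V : List ℕ) (k : ℕ) : ℕ := (V.foldl (pstep k) (0, 0)).2

lemma pstep_fold (k : ℕ) (V : List ℕ) : ∀ c z, V.foldl (pstep k) (c, z) =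
    (c + V.length, if c ≤ k then V.getD (k - c) z else z) := by
  induction V with
  | nil => simp
  | cons v V ih =>
    intro c z
    simp only [List.foldl_cons, pstep, ih, List.length_cons, Prod.mk.injEq]
    refine ⟨by omega, ?_⟩
    rcases lt_trichotomy c k with h | rfl | h
    · rw [if_pos (show c + 1 ≤ k from h), if_neg h.ne, if_pos h.le, show k - c = k - (c + 1) + 1 by omega,
        List.getD_cons_succ]
    · simp
    · rw [if_neg (by omega), if_neg h.ne', if_neg (by omega)]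

lemma pick_surj {V : List ℕ} {v : ℕ} (h : v ∈ V) : ∃ a < V.length, pick V a = v := by
  obtain ⟨a, ha, rfl⟩ := List.getElem_of_mem h
  exact ⟨a, ha, by simp [pick, pstep_fold, ha]⟩

/-- one step of the lazy walk -/
def cstep (l : ℕ) (V : List ℕ) (D : EL) (x : List Bool) : EL :=
  bif x.headD false then D else step D (pick V (ofB (x.tail.take l))) (pick V (ofB (x.tail.drop l)))

lemma cstep_same (l : ℕ) (V : List ℕ) (D : EL) (x : List Bool) : Same (cstep l V D x) D := by
  unfold cstep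
  cases x.headD false
  exacts [step_same _ _ _, fun _ _ => rfl]

lemma Same.trans {A B C : EL} (h : Same A B) (h' : Same B C) : Same A C :=
  fun φ hφ => (h φ hφ).trans (h' φ hφ)

lemma Kop_cstep {U : Finset ℕ} {E : EL} (hE : In U E) (l : ℕ) (V : List ℕ) {G : EL → ℝ}
    {F : (ℕ → ℕ) → ℝ} (hG : ∀ D, Same D E → G D = F (indeg D)) (t : ℕ) : ∀ D, Same D E →
      (Kop (2 * l + 1) (cstep l V))^[t] G D = (Pk (JJ U E) (2 ^ l) (pick V))^[t] F (indeg D) := by
  induction t with
  | zero => exact hG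
  | succ t ih =>
    intro D hD
    rw [Function.iterate_succ_apply', Function.iterate_succ_apply', Kop]
    simp only [fun x => ih _ ((cstep_same l V D x).trans hD)]
    generalize (Pk (JJ U E) (2 ^ l) (pick V))^[t] F = F'
    simp only [Ex, cstep, List.headD_cons, List.tail_cons, cond_true, cond_false, Ex_const,
      step_indeg (hD.in hE), hD.jj]
    rw [two_mul, Ex_append, Ex_congr (g := fun x => (∑ b ∈ range (2 ^ l),
      F' (stp (JJ U E) (indeg D) (pick V (ofB x)) (pick V b))) / 2 ^ l) fun x hx => by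
        simp only [List.take_left' hx, List.drop_left' hx]
        exact Ex_ofB l fun b => F' (stp (JJ U E) (indeg D) (pick V (ofB x)) (pick V b)),
      Ex_ofB l fun a => (∑ b ∈ range (2 ^ l), F' (stp (JJ U E) (indeg D) (pick V a) (pick V b))) /
        2 ^ l, Pk, ← sum_div]
    push_cast
    ring

/-- one trial: run the walk and test the first edge -/
def smp (n : ℕ) (V : List ℕ) (L : EL) (x : List Bool) : Bool :=
  !can (rit (2 * n.size + 1) (cstep n.size V) (n ^ 16) L x) (L.headD (0, 0)).2 (L.headD (0, 0)).1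

def est (n : ℕ) (V : List ℕ) (L : EL) (x : List Bool) : ℕ :=
  if (L.headD (0, 0)).1 = (L.headD (0, 0)).2 then n ^ 6
  else cnt ((2 * n.size + 1) * n ^ 16) (smp n V L) (n ^ 6) x

lemma card_le_pow {U : Finset ℕ} {L : EL} (h : In U L) : (JJ U L).card ≤ 2 ^ L.length := by
  simpa [rl] using (card_JJ L id h fun _ h => h).2

lemma smp_close {n : ℕ} {V : List ℕ} (hn : 64 ≤ n) (hV : V.length < n) {u v : ℕ} {L : EL}
    (hL : In V.toFinset ((u, v) :: L)) (ht : TC ((u, v) :: L)) (hl : L.length + 3 ≤ n)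
    (huv : u ≠ v) : |(Ex ((2 * n.size + 1) * n ^ 16) fun x => (smp n V ((u, v) :: L) x).toNat) -
      (XX V.toFinset u v L).card / (JJ V.toFinset ((u, v) :: L)).card| ≤ 1 / n ^ 6 := by
  classical
  set J := JJ V.toFinset ((u, v) :: L) with hJ
  have n0 : (64 : ℝ) ≤ n := by exact_mod_cast hn
  have e1 := Ex_rit (2 * n.size + 1) (cstep n.size V) (fun D => ((!can D v u).toNat : ℝ)) (n ^ 16)
    _ ((u, v) :: L) le_rfl
  rw [Kop_cstep hL _ V (F := fun d => if 0 < d v ∧ mv d v u ∈ J then 0 else 1) (fun D hD => by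
    simp only [hJ, ← hD.jj, ← can_iff (hD.in hL) huv.symm]
    cases can D v u <;> simp) _ _ fun _ _ => rfl] at e1
  have hK : (2 : ℝ) ^ n.size ≤ 2 * n := by
    obtain ⟨s, hs⟩ := Nat.exists_eq_add_of_lt (Nat.size_pos.2 (show 0 < n by omega))
    have : 2 ^ s ≤ n := Nat.lt_size.1 (by omega)
    rw [hs, zero_add, pow_succ']
    exact_mod_cast Nat.mul_le_mul_left 2 this
  have hU : (V.toFinset.card : ℝ) + 1 ≤ n := by
    exact_mod_cast (Nat.succ_le_succ (List.toFinset_card_le V)).trans hV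
  have hr : ((((u, v) :: L).length : ℕ) : ℝ) + 2 ≤ n := by exact_mod_cast hl
  have e2 := Pk_mix (K := 2 ^ n.size) (V := pick V) (γ := 1 / n ^ 14) (JJ_exch hL)
    (fun d hd => (mem_JJ.1 hd).1.2) (fun d hd => (mem_JJ.1 hd).1.1) (by positivity)
    (fun w hw => by
      obtain ⟨a, h1, h2⟩ := pick_surj (List.mem_toFinset.1 hw)
      exact ⟨a, (h1.trans hV).trans (Nat.lt_size_self n), h2⟩) (by
      push_cast at hr ⊢
      rw [mul_one_div, div_le_one (by positivity)]
      calc _ ≤ 52000 * (n : ℝ) ^ 3 * n ^ 5 * (2 * n) ^ 2 := by gcongr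
        _ = 208000 * n ^ 10 := by ring
        _ ≤ n ^ 4 * n ^ 10 := by
          gcongr
          exact le_trans (by norm_num) (pow_le_pow_left₀ (by norm_num) n0 4)
        _ = _ := by ring) (by positivity)
    (by rw [div_le_one (by positivity)]; exact one_le_pow₀ (by linarith))
    (f := fun d => if 0 < d v ∧ mv d v u ∈ J then 0 else 1) (fun d => by split_ifs <;> norm_num)
    (fun d => by split_ifs <;> norm_num) (n ^ 16) ((indeg_mem hL).2 ht)
  have e3 : (∑ d ∈ J, if 0 < d v ∧ mv d v u ∈ J then (0 : ℝ) else 1) = (XX V.toFinset u v L).card := by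
    rw [XX, card_filter, Nat.cast_sum]
    refine sum_congr rfl fun d hd => ?_
    simp only [pos_of_JJ huv hd, true_and, ← hJ]
    split_ifs <;> simp
  rw [← e1, ← hJ, e3] at e2
  refine abs_le_of_sq_le_sq (e2.trans ?_) (by positivity)
  have a1 : (1 - 1 / (n : ℝ) ^ 14) ^ n ^ 16 ≤ Real.exp (-n ^ 2) := by
    refine (pow_le_pow_left₀ ?_ (Real.one_sub_le_exp_neg _) _).trans (le_of_eq ?_)
    · rw [sub_nonneg, div_le_one (by positivity)]; exact one_le_pow₀ (by linarith)
    · rw [← Real.exp_nat_mul]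
      congr 1
      push_cast
      field_simp
  have a2 : (J.card : ℝ) ≤ Real.exp n := by
    calc (J.card : ℝ) ≤ 2 ^ n := by
          exact_mod_cast (card_le_pow hL).trans (Nat.pow_le_pow_right two_pos (by simp; omega))
      _ ≤ Real.exp 1 ^ n := by gcongr; linarith [Real.add_one_le_exp 1]
      _ = _ := by rw [← Real.exp_nat_mul, mul_one]
  have a3 : (n : ℝ) ^ 12 ≤ Real.exp (12 * n) := by
    have := Real.exp_nat_mul n 12
    push_cast at this
    rw [this]
    gcongr
    linarith [Real.add_one_le_exp n]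
  rw [div_pow, one_pow, ← pow_mul, le_div_iff₀ (by positivity)]
  calc _ ≤ Real.exp (-n ^ 2) * Real.exp n * Real.exp (12 * n) := by gcongr
    _ ≤ 1 := by
      rw [← Real.exp_add, ← Real.exp_add, Real.exp_le_one_iff]
      nlinarith

lemma est_spec {n : ℕ} {V : List ℕ} (hn : 64 ≤ n) (hV : V.length < n) {e : ℕ × ℕ} {L : EL}
    (hL : In V.toFinset (e :: L)) (ht : TC (e :: L)) (hl : L.length + 3 ≤ n) :
    (1 - 1 / n ^ 5) * (n ^ 6 * (JJ V.toFinset (nxt (e :: L))).card) ≤
      (Ex ((2 * n.size + 1) * n ^ 16 * n ^ 6) fun x => est n V (e :: L) x) *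
        (JJ V.toFinset (e :: L)).card ∧
    (Ex ((2 * n.size + 1) * n ^ 16 * n ^ 6) fun x => (est n V (e :: L) x : ℝ) ^ 2) *
        (JJ V.toFinset (e :: L)).card ^ 2 ≤
      (1 + 5 / n ^ 5) * (n ^ 6 * (JJ V.toFinset (nxt (e :: L))).card) ^ 2 := by
  obtain ⟨u, v⟩ := e
  have n0 : (64 : ℝ) ≤ n := by exact_mod_cast hn
  simp only [est, nxt, List.headD_cons, List.tail_cons]
  by_cases huv : u = v
  · subst huv
    simp only [if_true, Ex_const, mrg_loop (f := id) rfl, JJ_loop (hL _ List.mem_cons_self).1]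
    rw [show rl id L = L by simp [rl], ← mul_pow]
    push_cast
    constructor
    · exact mul_le_of_le_one_left (by positivity) (by rw [sub_le_self_iff]; positivity)
    · exact le_mul_of_one_le_left (by positivity) (by rw [le_add_iff_nonneg_right]; positivity)
  simp only [huv, if_false]
  obtain ⟨h1, h2⟩ := Ex_cnt _ (smp n V ((u, v) :: L)) (n ^ 6) le_rfl rfl
  have h3 := smp_close hn hV hL ht hl huv
  have hd := (indeg_mem hL).2 ht
  obtain ⟨f1, -, f3⟩ := fibre hL huv fun S hS hc => by simp [JJ_bridge hL hS hc] at hd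
  rw [h1, h2]
  rw [f1] at h3
  have N0 : (0 : ℝ) < (JJ V.toFinset ((u, v) :: L)).card := by exact_mod_cast card_pos.2 ⟨_, hd⟩
  have f4 : ((JJ V.toFinset ((u, v) :: L)).card : ℝ) ≤
      n * (JJ V.toFinset (rl (mrg id u v) L)).card := by
    exact_mod_cast f3.trans (Nat.mul_le_mul_right _ (by omega))
  generalize ((JJ V.toFinset ((u, v) :: L)).card : ℝ) = N at *
  generalize ((JJ V.toFinset (rl (mrg id u v) L)).card : ℝ) = M at *
  generalize (Ex ((2 * n.size + 1) * n ^ 16) fun x => ((smp n V ((u, v) :: L) x).toNat : ℝ)) = μ at *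
  push_cast
  generalize (n : ℝ) = x at *
  set δ := 1 / x ^ 5 with hδ
  have δ0 : 0 < δ := by positivity
  have δ1 : δ ≤ 1 := by rw [hδ, div_le_one (by positivity)]; exact one_le_pow₀ (by linarith)
  have M0 : 0 < M := pos_of_mul_pos_left (N0.trans_le (f4.trans_eq (mul_comm _ _))) (by positivity)
  have b0 : |μ * N - M| ≤ δ * M := by
    have : μ * N - M = (μ - M / N) * N := by field_simp
    rw [this, abs_mul, abs_of_pos N0]
    calc _ ≤ 1 / x ^ 6 * (x * M) := by gcongr
      _ = _ := by rw [hδ]; field_simp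
  obtain ⟨b1, b2⟩ := abs_le.1 b0
  have b3 : 0 ≤ μ * N := by nlinarith
  constructor
  · nlinarith [mul_le_mul_of_nonneg_left b1 (show 0 ≤ x ^ 6 by positivity)]
  · have c1 : (μ * N) ^ 2 ≤ ((1 + δ) * M) ^ 2 := pow_le_pow_left₀ b3 (by linarith) 2
    have c2 : μ * N * N ≤ 2 * M * (x * M) :=
      mul_le_mul (by nlinarith) f4 N0.le (by positivity)
    have c3 : x ^ 6 * δ = x := by rw [hδ]; field_simp
    have c4 : (1 + δ) ^ 2 ≤ 1 + 3 * δ := by nlinarith
    calc _ ≤ (x ^ 6) ^ 2 * (μ * N) ^ 2 + x ^ 6 * (μ * N * N) := by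
          nlinarith [mul_nonneg (show 0 ≤ x ^ 6 by positivity) (sq_nonneg (μ * N))]
      _ ≤ (x ^ 6) ^ 2 * ((1 + 3 * δ) * M ^ 2) + x ^ 6 * (2 * M * (x ^ 6 * δ * M)) := by
          rw [c3]
          gcongr
          exact c1.trans (by rw [mul_pow]; gcongr)
      _ = _ := by rw [hδ]; ring

/-- one stage of the product estimator -/
def sstep (n : ℕ) (V : List ℕ) (s : EL × ℕ × ℕ) (x : List Bool) : EL × ℕ × ℕ :=
  (nxt s.1, s.2.1 * n ^ 6, s.2.2 * est n V s.1 x)

lemma stage_spec {n : ℕ} {V : List ℕ} (hn : 64 ≤ n) (hV : V.length < n) (t : ℕ) (ht : t + 2 ≤ n) :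
    ∀ (L : EL) (p q : ℕ), L.length = t → In V.toFinset L → TC L →
    (1 - 1 / n ^ 5) ^ t * ((q : ℝ) / p) ≤ (Kop ((2 * n.size + 1) * n ^ 16 * n ^ 6) (sstep n V))^[t]
      (fun s => (s.2.2 : ℝ) / s.2.1) (L, p, q) * (JJ V.toFinset L).card ∧
    (Kop ((2 * n.size + 1) * n ^ 16 * n ^ 6) (sstep n V))^[t] (fun s => ((s.2.2 : ℝ) / s.2.1) ^ 2)
      (L, p, q) * (JJ V.toFinset L).card ^ 2 ≤ (1 + 5 / n ^ 5) ^ t * ((q : ℝ) / p) ^ 2 := by
  induction t with
  | zero =>
    intro L p q h _ _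
    simp [List.length_eq_zero_iff.1 h, JJ_nil]
  | succ t ih =>
    rintro (_ | ⟨⟨u, v⟩, L⟩) p q h hL hT
    · simp at h
    have n0 : (64 : ℝ) ≤ n := by exact_mod_cast hn
    simp only [List.length_cons, Nat.add_right_cancel_iff] at h
    obtain ⟨e1, e2⟩ := est_spec hn hV hL hT (by omega)
    have i := fun p q => ih (by omega) (nxt ((u, v) :: L)) p q (by simp [nxt, rl, h]) (nxt_in hL)
      (nxt_tc hT)
    have M0 : (0 : ℝ) < (JJ V.toFinset (nxt ((u, v) :: L))).card := by
      exact_mod_cast card_pos.2 ⟨_, (indeg_mem (nxt_in hL)).2 (nxt_tc hT)⟩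
    have δ1 : (0 : ℝ) ≤ 1 - 1 / n ^ 5 := by
      rw [sub_nonneg, div_le_one (by positivity)]; exact one_le_pow₀ (by linarith)
    simp only [Function.iterate_succ_apply', Kop, sstep] at i ⊢
    generalize ((JJ V.toFinset (nxt ((u, v) :: L))).card : ℝ) = M at *
    have δ2 : (0 : ℝ) ≤ 1 + 5 / n ^ 5 := by positivity
    generalize (1 : ℝ) - 1 / n ^ 5 = a at *
    generalize (1 : ℝ) + 5 / n ^ 5 = b at *
    constructor
    · refine le_trans ?_ (mul_le_mul_of_nonneg_right (Ex_mono (f := fun x =>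
        a ^ t * (q / p) / (n ^ 6 * M) * est n V ((u, v) :: L) x) fun x _ => by
          refine le_trans (le_of_eq ?_) ((div_le_iff₀ M0).2 (i _ _).1)
          push_cast
          ring) (Nat.cast_nonneg _))
      rw [Ex_mul, mul_assoc]
      refine le_trans (le_of_eq ?_) (mul_le_mul_of_nonneg_left e1 (by positivity))
      field_simp
      ring
    · refine le_trans (mul_le_mul_of_nonneg_right (Ex_mono (g := fun x =>
        b ^ t * (q / p) ^ 2 / (n ^ 6 * M) ^ 2 * (est n V ((u, v) :: L) x : ℝ) ^ 2)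
          fun x _ => by
          refine le_trans ((le_div_iff₀ (by positivity)).2 (i _ _).2) (le_of_eq ?_)
          push_cast
          ring) (by positivity)) ?_
      rw [Ex_mul, mul_assoc]
      refine le_trans (mul_le_mul_of_nonneg_left e2 (by positivity)) (le_of_eq ?_)
      field_simp
      ring

theorem prod_est {n k : ℕ} {V : List ℕ} (hn : 64 ≤ n) (hV : V.length < n) (k0 : 0 < k) (hk : k ≤ n)
    {L : EL} (hl : L.length + 2 ≤ n) (hL : In V.toFinset L) (hT : TC L) {p q : ℕ} (p0 : 0 < p)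
    (q0 : 0 < q) {R : ℕ} (hR : (2 * n.size + 1) * n ^ 16 * n ^ 6 * L.length ≤ R)
    (P : EL × ℕ × ℕ → Prop) [DecidablePred P] (hP : ∀ s, 0 < s.2.2 → |(s.2.1 : ℝ) / s.2.2 -
      (JJ V.toFinset L).card * p / q| ≤ (JJ V.toFinset L).card * p / q / k → P s) :
    (3 : ℝ) / 4 ≤ Ex R fun r => if P (rit ((2 * n.size + 1) * n ^ 16 * n ^ 6) (sstep n V) L.length
      (L, p, q) r) then 1 else 0 := by
  obtain ⟨h1, h2⟩ := stage_spec hn hV _ hl L p q rfl hL hT
  rw [← Ex_rit _ _ _ _ R _ hR] at h1 h2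
  have N0 : (0 : ℝ) < (JJ V.toFinset L).card := by
    exact_mod_cast card_pos.2 ⟨_, (indeg_mem hL).2 hT⟩
  have n0 : (64 : ℝ) ≤ n := by exact_mod_cast hn
  have k1 : (1 : ℝ) ≤ k := by exact_mod_cast k0
  have k2 : (k : ℝ) ≤ n := by exact_mod_cast hk
  have t1 : (L.length : ℝ) ≤ n := by exact_mod_cast (show L.length ≤ n by omega)
  have p1 : (0 : ℝ) < p := by exact_mod_cast p0
  have q1 : (0 : ℝ) < q := by exact_mod_cast q0
  set T : ℝ := (JJ V.toFinset L).card * p / q with hTd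
  have T0 : 0 < T := by positivity
  generalize rit ((2 * n.size + 1) * n ^ 16 * n ^ 6) (sstep n V) L.length (L, p, q) = S at *
  refine le_trans ?_ (Ex_mono (f := fun r => (1 - 4 * k ^ 2) + (8 * k ^ 2 * T * ((S r).2.2 / (S r).2.1)
    + -(4 * k ^ 2 * T ^ 2) * ((S r).2.2 / (S r).2.1) ^ 2)) fun r _ => ?_)
  · rw [Ex_add, Ex_add, Ex_const, Ex_mul, Ex_mul]
    generalize (Ex R fun r => ((S r).2.2 : ℝ) / (S r).2.1) = A at *
    generalize (Ex R fun r => (((S r).2.2 : ℝ) / (S r).2.1) ^ 2) = B at *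
    have d1 : (1 : ℝ) / n ^ 5 ≤ 1 := by
      rw [div_le_one (by positivity)]; exact one_le_pow₀ (by linarith)
    have d2 : (L.length : ℝ) * (1 / n ^ 5) ≤ 1 / n ^ 4 := by
      calc _ ≤ (n : ℝ) * (1 / n ^ 5) := by gcongr
        _ = _ := by field_simp
    have d3 : (k : ℝ) ^ 2 * (1 / n ^ 4) ≤ 1 / 64 ^ 2 := by
      calc _ ≤ (n : ℝ) ^ 2 * (1 / n ^ 4) := by gcongr
        _ = 1 / n ^ 2 := by field_simp
        _ ≤ _ := by gcongr
    have d4 : (1 : ℝ) / n ^ 4 ≤ 1 / 64 ^ 4 := by gcongr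
    have a1 : 1 - 1 / (n : ℝ) ^ 4 ≤ A * T := by
      have := one_add_mul_le_pow (show (-2 : ℝ) ≤ -(1 / n ^ 5) by linarith) L.length
      rw [← sub_eq_add_neg] at this
      calc _ ≤ (1 - 1 / (n : ℝ) ^ 5) ^ L.length * (q / p) * (p / q) := by
            rw [mul_assoc, div_mul_div_comm, mul_comm (q : ℝ), div_self (by positivity)]
            linarith
        _ ≤ A * (JJ V.toFinset L).card * (p / q) := by gcongr
        _ = _ := by rw [hTd]; ring
    have a2 : B * T ^ 2 ≤ 1 + 10 * (1 / (n : ℝ) ^ 4) := by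
      have b1 : (1 + 5 / (n : ℝ) ^ 5) ^ L.length ≤ Real.exp (L.length * (5 / n ^ 5)) := by
        rw [Real.exp_nat_mul]
        gcongr
        linarith [Real.add_one_le_exp (5 / (n : ℝ) ^ 5)]
      have b0 : (L.length : ℝ) * (5 / n ^ 5) = 5 * (L.length * (1 / n ^ 5)) := by ring
      have b2 := (abs_le.1 (Real.abs_exp_sub_one_le (x := L.length * (5 / n ^ 5)) (by
        rw [abs_of_nonneg (by positivity)]; linarith))).2
      rw [abs_of_nonneg (by positivity)] at b2
      calc B * T ^ 2 = B * (JJ V.toFinset L).card ^ 2 * (p / q) ^ 2 := by rw [hTd]; ring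
        _ ≤ (1 + 5 / (n : ℝ) ^ 5) ^ L.length * (q / p) ^ 2 * (p / q) ^ 2 := by gcongr
        _ = (1 + 5 / (n : ℝ) ^ 5) ^ L.length := by field_simp
        _ ≤ _ := by linarith
    nlinarith [mul_le_mul_of_nonneg_left a1 (show (0 : ℝ) ≤ k ^ 2 by positivity),
      mul_le_mul_of_nonneg_left a2 (show (0 : ℝ) ≤ k ^ 2 by positivity)]
  · generalize S r = s
    set y : ℝ := s.2.2 / s.2.1 * T with hy
    have e : (1 - 4 * k ^ 2 : ℝ) + (8 * k ^ 2 * T * (s.2.2 / s.2.1) +
        -(4 * k ^ 2 * T ^ 2) * (s.2.2 / s.2.1) ^ 2) = 1 - (2 * k * (y - 1)) ^ 2 := by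
      rw [hy]; ring
    rw [e]
    split_ifs with h
    · linarith [sq_nonneg (2 * k * (y - 1))]
    · by_contra c
      have c1 := abs_lt.1 ((sq_lt_one_iff_abs_lt_one _).1 (show (2 * k * (y - 1)) ^ 2 < 1 by linarith))
      have y0 : 1 / 2 < y := by nlinarith
      refine h (hP s (Nat.pos_of_ne_zero fun e => by simp [hy, e] at y0; linarith) ?_)
      have e2 : (s.2.1 : ℝ) / s.2.2 = T / y := by
        rw [hy, mul_comm, div_mul_cancel_left₀ T0.ne', inv_div]
      have e3 : T / y - T = T / k * (k * (1 - y) / y) := by field_simp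
      rw [e2, e3, abs_mul, abs_of_pos (by positivity)]
      refine mul_le_of_le_one_right (by positivity) ?_
      rw [abs_div, abs_of_pos (by linarith : 0 < y), div_le_one (by linarith), abs_le]
      constructor <;> linarith

/-- one step of the computation of the rank factor -/
def kstep (p q c : ℕ) (s : EL × ℕ × ℕ) : EL × ℕ × ℕ :=
  (nxt s.1, s.2.1 * (if (s.1.headD (0, 0)).1 = (s.1.headD (0, 0)).2 then 1 else p),
    s.2.2 * (c * if (s.1.headD (0, 0)).1 = (s.1.headD (0, 0)).2 then 1 else q))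

lemma kstep_iter (p q c : ℕ) (L : EL) : ∀ (f : ℕ → ℕ) (P Q : ℕ), (kstep p q c)^[L.length]
    (rl f L, P, Q) = ([], P * p ^ rk f L, Q * (q ^ rk f L * c ^ L.length)) := by
  induction L with
  | nil => simp [rl, rk]
  | cons e L ih =>
    intro f P Q
    have e2 : nxt (rl f (e :: L)) = rl (mrg f e.1 e.2) L := by
      simp only [nxt, rl, List.map_cons, List.tail_cons, List.map_map]; rfl
    rw [List.length_cons, Function.iterate_succ_apply, kstep, e2, ih]
    simp only [rl, List.map_cons, List.headD_cons, rk]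
    split_ifs <;> simp only [Prod.mk.injEq, true_and] <;> constructor <;> ring

def ends (D : EL) : List ℕ := D.flatMap fun e => [e.1, e.2]

/-- the second phase: estimate the lattice point count of `G` times `p / q` -/
def alg2 (G : EL) (k p q : ℕ) (r : List Bool) : ℕ × ℕ :=
  bif tcb (init G) then (rit ((2 * (2 * G.length + k + 64).size + 1) * (2 * G.length + k + 64) ^ 16 *
    (2 * G.length + k + 64) ^ 6) (sstep (2 * G.length + k + 64) (ends (init G))) G.length
      (init G, p, q) r).2 else (0, 1)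

/-- the whole algorithm -/
def alg (k₀ : ℕ) (ks : List ℕ) (p q c n : ℕ) (E : EL) (k : ℕ) (r : List Bool) : ℕ × ℕ :=
  alg2 (GG k₀ ks n E) k ((kstep p q c)^[E.length] (E, 1, 1)).2.1
    ((kstep p q c)^[E.length] (E, 1, 1)).2.2 r

/-- the number of random bits used -/
def bitsN (m k : ℕ) : ℕ :=
  (2 * (2 * m + k + 64).size + 1) * (2 * m + k + 64) ^ 16 * (2 * m + k + 64) ^ 6 * m

theorem alg_spec {x : ℚ} (h0 : 0 ≤ x) (h1 : x < 1) : ∃ (k₀ : ℕ) (ks : List ℕ) (p q c : ℕ),
    ∀ (n : ℕ) (E : EL) (k R : ℕ), (∀ e ∈ E, e.1 < n ∧ e.2 < n) → 0 < k →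
      bitsN (GG k₀ ks n E).length k ≤ R → (3 : ℝ) / 4 ≤ Ex R fun r =>
        if 0 < (alg k₀ ks p q c n E k r).2 ∧
          |((alg k₀ ks p q c n E k r).1 : ℚ) / (alg k₀ ks p q c n E k r).2 - Tx x id E| ≤
          |Tx x id E| / k then 1 else 0 := by
  obtain ⟨k₀, ks, p, q, c, p0, q0, c0, h⟩ := reduce h0 h1
  refine ⟨k₀, ks, p, q, c, fun n E k R hE hk hR => ?_⟩
  have e1 := kstep_iter p q c E id 1 1
  rw [show rl id E = E by simp [rl]] at e1
  simp only [alg, e1, one_mul, alg2]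
  set G := GG k₀ ks n E with hG
  have hs := init_same G
  have hD : In (ends (init G)).toFinset (init G) := fun e he => by
    simp only [ends, List.mem_toFinset, List.mem_flatMap]
    exact ⟨⟨e, he, by simp⟩, e, he, by simp⟩
  have hI : In (ends (init G)).toFinset G := Same.in (fun φ hφ => (hs φ hφ).symm) hD
  have e2 := h n E _ hE hI
  cases hc : tcb (init G)
  · have : (JJ (ends (init G)).toFinset G).card = 0 := by
      by_contra c
      rw [tcb_iff.2 (init_tc hI (card_pos.1 (Nat.pos_of_ne_zero c)))] at hc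
      cases hc
    rw [← hG, this] at e2
    simp [e2, Ex_const]
    norm_num
  · have l1 : (ends (init G)).length = 2 * G.length := by
      simp [ends, List.length_flatMap, hs.len, mul_comm]
    simp only [cond_true]
    rw [← hG, ← hs.jj] at e2
    have := prod_est (n := 2 * G.length + k + 64) (k := k) (V := ends (init G)) (by omega) (by omega)
      hk (by omega) (by rw [hs.len]; omega) hD (tcb_iff.1 hc) (p := p ^ rk id E)
      (q := q ^ rk id E * c ^ E.length) (by positivity) (by positivity) (R := R)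
      (by rw [hs.len]; exact hR)
      (fun s => 0 < s.2.2 ∧ |(s.2.1 : ℚ) / s.2.2 - Tx x id E| ≤ |Tx x id E| / k) fun s s0 hs => by
        refine ⟨s0, ?_⟩
        rw [abs_of_nonneg (Tx_nonneg h0 h1.ne E id), e2]
        rw [← Rat.cast_le (K := ℝ)]
        push_cast at hs ⊢
        exact hs
    rwa [hs.len] at this

end Pool.Agent.Lib.MP_b67cc8_lc
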