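import Pool.Agent.Lib.MP_b67cc8_lc.MConv

/-! In-degree vectors of totally cyclic orientations form an M-convex set; deletion and
contraction. -/

namespace Pool.Agent.Lib.MP_b67cc8_lc

open Finset
open scoped Classical

abbrev EL := List (ℕ × ℕ)

/-- sum of a weight over the edges -/
def sm (φ : ℕ × ℕ → ℕ) (E : EL) : ℕ := (E.map φ).sum

@[simp] lemma sm_nil (φ : ℕ × ℕ → ℕ) : sm φ [] = 0 := rfl
@[simp] lemma sm_cons (φ : ℕ × ℕ → ℕ) (e : ℕ × ℕ) (E : EL) : sm φ (e :: E) = φ e + sm φ E := by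
  simp [sm]
@[simp] lemma sm_append (φ : ℕ × ℕ → ℕ) (D E : EL) : sm φ (D ++ E) = sm φ D + sm φ E := by
  simp [sm]
lemma sm_map (φ : ℕ × ℕ → ℕ) (g : ℕ × ℕ → ℕ × ℕ) (E : EL) :
    sm φ (E.map g) = sm (fun e => φ (g e)) E := by
  simp [sm, Function.comp_def]
lemma sm_one (E : EL) : sm (fun _ => 1) E = E.length := by simp [sm]

lemma sm_add (φ ψ : ℕ × ℕ → ℕ) (E : EL) : sm (fun e => φ e + ψ e) E = sm φ E + sm ψ E := by
  induction E with
  | nil => rfl
  | cons e E ih => simp only [sm_cons, ih]; omega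

lemma sm_le {φ ψ : ℕ × ℕ → ℕ} {E : EL} (h : ∀ e ∈ E, φ e ≤ ψ e) : sm φ E ≤ sm ψ E :=
  List.sum_le_sum h

lemma sm_congr {φ ψ : ℕ × ℕ → ℕ} {E : EL} (h : ∀ e ∈ E, φ e = ψ e) : sm φ E = sm ψ E :=
  le_antisymm (sm_le fun e he => (h e he).le) (sm_le fun e he => (h e he).ge)

lemma sm_eq_zero {φ : ℕ × ℕ → ℕ} {E : EL} : sm φ E = 0 ↔ ∀ e ∈ E, φ e = 0 := by
  simp only [sm, List.sum_eq_zero_iff, List.forall_mem_map]

/-- edges inside `S` -/
def ins (E : EL) (S : Finset ℕ) : ℕ := sm (fun e => if e.1 ∈ S ∧ e.2 ∈ S then 1 else 0) E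
/-- edges with exactly one end in `S` -/
def cr (E : EL) (S : Finset ℕ) : ℕ := sm (fun e => if (e.1 ∈ S ↔ e.2 ∈ S) then 0 else 1) E
/-- arcs entering `S` -/
def ent (E : EL) (S : Finset ℕ) : ℕ := sm (fun e => if e.1 ∉ S ∧ e.2 ∈ S then 1 else 0) E
/-- in-degree -/
def indeg (E : EL) (v : ℕ) : ℕ := sm (fun e => if e.2 = v then 1 else 0) E

lemma cr_eq_zero {E : EL} {S : Finset ℕ} : cr E S = 0 ↔ ∀ e ∈ E, (e.1 ∈ S ↔ e.2 ∈ S) := by
  simp [cr, sm_eq_zero]

lemma ent_eq_zero {E : EL} {S : Finset ℕ} : ent E S = 0 ↔ ∀ e ∈ E, e.2 ∈ S → e.1 ∈ S := by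
  simp only [ent, sm_eq_zero]
  refine forall₂_congr fun e _ => ?_
  by_cases h1 : e.1 ∈ S <;> simp [h1]

/-- all ends lie in `U` -/
def In (U : Finset ℕ) (E : EL) : Prop := ∀ e ∈ E, e.1 ∈ U ∧ e.2 ∈ U

/-- the cut conditions -/
def Ok (E : EL) (d : ℕ → ℕ) : Prop := ∀ S : Finset ℕ, ins E S + min 1 (cr E S) ≤ ∑ v ∈ S, d v

/-- the lattice points in the interior of the graphical zonotope -/
noncomputable def JJ (U : Finset ℕ) (E : EL) : Finset (ℕ → ℕ) :=
  (piAntidiag U E.length).filter (Ok E)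

lemma mem_JJ {U : Finset ℕ} {E : EL} {d : ℕ → ℕ} :
    d ∈ JJ U E ↔ (∑ v ∈ U, d v = E.length ∧ ∀ v ∉ U, d v = 0) ∧ Ok E d := by
  simp only [JJ, mem_filter, mem_piAntidiag]
  exact and_congr_left fun _ => and_congr_right fun _ => forall_congr' fun v => not_imp_comm

lemma sum_up' (d : ℕ → ℕ) (v : ℕ) (S : Finset ℕ) :
    ∑ a ∈ S, up d v a = ∑ a ∈ S, d a + if v ∈ S then 1 else 0 := by
  have : ∀ a, up d v a = d a + if a = v then 1 else 0 := fun a => by
    unfold up; split_ifs <;> rfl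
  simp only [this, sum_add_distrib, sum_ite_eq']

lemma sum_mv {d : ℕ → ℕ} {i : ℕ} (h : 0 < d i) (j : ℕ) (S : Finset ℕ) :
    (∑ a ∈ S, mv d i j a + if i ∈ S then 1 else 0) = ∑ a ∈ S, d a + if j ∈ S then 1 else 0 := by
  have e : up (fun a => if a = i then d a - 1 else d a) i = d := funext fun a => by
    simp only [up]; split_ifs <;> subst_vars <;> omega
  have := sum_up' (fun a => if a = i then d a - 1 else d a) i S
  rw [e] at this
  rw [mv, sum_up']
  omega

lemma ins_super (E : EL) (S T : Finset ℕ) : ins E S + ins E T ≤ ins E (S ∪ T) + ins E (S ∩ T) := by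
  simp only [ins, ← sm_add]
  refine sm_le fun e _ => ?_
  simp only [mem_union, mem_inter]
  split_ifs <;> first | omega | tauto

lemma ins_split (E : EL) {S W : Finset ℕ} (h : W ⊆ S) (hc : cr E W = 0) :
    ins E S = ins E W + ins E (S \ W) := by
  simp only [ins, ← sm_add]
  refine sm_congr fun e he => ?_
  have := cr_eq_zero.1 hc e he
  have := @h e.1
  have := @h e.2
  simp only [mem_sdiff]
  split_ifs <;> first | omega | tauto

lemma ins_all {U S : Finset ℕ} {E : EL} (hE : In U E) (h : U ⊆ S) : ins E S = E.length := by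
  rw [← sm_one]
  exact sm_congr fun e he => if_pos ⟨h (hE e he).1, h (hE e he).2⟩

lemma JJ_sum {U S : Finset ℕ} {E : EL} {d : ℕ → ℕ} (hd : d ∈ JJ U E) (h : U ⊆ S) :
    ∑ v ∈ S, d v = E.length := by
  rw [← (mem_JJ.1 hd).1.1]
  exact (sum_subset h fun v _ hv => (mem_JJ.1 hd).1.2 v hv).symm

lemma JJ_free {U W : Finset ℕ} {E : EL} {d : ℕ → ℕ} (hE : In U E) (hd : d ∈ JJ U E)
    (hc : cr E W = 0) : ∑ v ∈ W, d v = ins E W := by
  have h1 := ins_split E (subset_union_right (s₁ := U)) hc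
  have h2 := sum_sdiff (f := d) (subset_union_right (s₁ := U) (s₂ := W))
  rw [ins_all hE subset_union_left] at h1
  rw [JJ_sum hd subset_union_left] at h2
  have h3 := (mem_JJ.1 hd).2 W
  have h4 := (mem_JJ.1 hd).2 ((U ∪ W) \ W)
  omega

lemma tight_union {U : Finset ℕ} {E : EL} {x y : ℕ → ℕ} (hE : In U E) (hx : x ∈ JJ U E)
    (hy : y ∈ JJ U E) (n : ℕ) : ∀ F : Finset (Finset ℕ), F.card ≤ n →
      (∀ S ∈ F, ∑ v ∈ S, x v ≤ ins E S + 1) → ∑ v ∈ F.sup id, x v ≤ ∑ v ∈ F.sup id, y v := by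
  induction n with
  | zero => intro F h _; simp [card_eq_zero.1 (Nat.le_zero.1 h)]
  | succ n ih =>
    intro F hn hF
    rcases F.eq_empty_or_nonempty with rfl | ⟨S, hS⟩
    · simp
    have hc := card_erase_of_mem hS
    by_cases h : ∃ T ∈ F.erase S, cr E (S ∩ T) ≠ 0
    · obtain ⟨T, hT, h⟩ := h
      have e : F.sup id = (insert (S ∪ T) ((F.erase S).erase T)).sup id := by
        conv_lhs => rw [← insert_erase hS, ← insert_erase hT]
        simp only [sup_insert, id, sup_eq_union, union_assoc]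
      rw [e]
      refine ih _ ((card_insert_le _ _).trans ?_) fun A hA => ?_
      · have := card_erase_of_mem hT
        have := card_pos.2 ⟨T, hT⟩
        omega
      · rcases mem_insert.1 hA with rfl | hA
        · have := sum_union_inter (f := x) (s₁ := S) (s₂ := T)
          have := ins_super E S T
          have := hF S hS
          have := hF T (mem_of_mem_erase hT)
          have := (mem_JJ.1 hx).2 (S ∩ T)
          omega
        · exact hF A (mem_of_mem_erase (mem_of_mem_erase hA))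
    · push Not at h
      have h1 := ih (F.erase S) (by omega) fun A hA => hF A (mem_of_mem_erase hA)
      have h2 : cr E (S ∩ (F.erase S).sup id) = 0 := cr_eq_zero.2 fun e he => by
        simp only [mem_inter, mem_sup, id]
        constructor
        · rintro ⟨a, T, hT, b⟩
          have := mem_inter.1 ((cr_eq_zero.1 (h T hT) e he).1 (mem_inter.2 ⟨a, b⟩))
          exact ⟨this.1, T, hT, this.2⟩
        · rintro ⟨a, T, hT, b⟩
          have := mem_inter.1 ((cr_eq_zero.1 (h T hT) e he).2 (mem_inter.2 ⟨a, b⟩))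
          exact ⟨this.1, T, hT, this.2⟩
      have h3 : ∑ v ∈ S, x v ≤ ∑ v ∈ S, y v := by
        have := (mem_JJ.1 hy).2 S
        have := hF S hS
        by_cases h0 : cr E S = 0
        · rw [JJ_free hE hx h0, JJ_free hE hy h0]
        · omega
      rw [← insert_erase hS, sup_insert, id, sup_eq_union]
      have a1 := sum_union_inter (f := x) (s₁ := S) (s₂ := (F.erase S).sup id)
      have a2 := sum_union_inter (f := y) (s₁ := S) (s₂ := (F.erase S).sup id)
      rw [JJ_free hE hx h2] at a1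
      rw [JJ_free hE hy h2] at a2
      omega

theorem JJ_exch {U : Finset ℕ} {E : EL} (hE : In U E) : Exch (JJ U E) := by
  intro x hx y hy k hk
  by_contra hc
  push Not at hc
  have hkU : k ∈ U := by
    by_contra h
    have := (mem_JJ.1 hy).1.2 k h
    omega
  have hmU : ∀ m, y m < x m → m ∈ U := fun m hm => by
    by_contra h
    have := (mem_JJ.1 hx).1.2 m h
    omega
  have key : ∀ m, ∃ S : Finset ℕ, y m < x m → m ∈ S ∧ k ∉ S ∧ ∑ v ∈ S, x v ≤ ins E S + 1 := by
    intro m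
    by_cases hm : y m < x m
    swap
    · exact ⟨∅, fun h => absurd h hm⟩
    have h1 := hc m hm
    have h0 : 0 < x m := by omega
    rw [mem_JJ, not_and, Ok, not_forall] at h1
    obtain ⟨S, hS⟩ := h1 ⟨by
      have := sum_mv h0 k U
      rw [if_pos hkU, if_pos (hmU m hm), (mem_JJ.1 hx).1.1] at this
      omega, fun v hv => by
      have h2 : v ≠ k := fun e => hv (e ▸ hkU)
      simp [mv, up, h2, (mem_JJ.1 hx).1.2 v hv]⟩
    have h2 := sum_mv h0 k S
    have h3 := (mem_JJ.1 hx).2 S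
    refine ⟨S, fun _ => ?_⟩
    split_ifs at h2 with a b b
    any_goals omega
    exact ⟨a, b, by omega⟩
  choose S hS using key
  set F := (U.filter fun m => y m < x m).image S with hF
  have h1 := tight_union hE hx hy _ F le_rfl fun A hA => by
    obtain ⟨m, hm, rfl⟩ := mem_image.1 hA
    exact (hS m (mem_filter.1 hm).2).2.2
  set W := F.sup id with hW
  have h2 := sum_sdiff (f := x) (subset_union_right (s₁ := U) (s₂ := W))
  have h3 := sum_sdiff (f := y) (subset_union_right (s₁ := U) (s₂ := W))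
  rw [JJ_sum hx subset_union_left] at h2
  rw [JJ_sum hy subset_union_left] at h3
  have h4 : ∑ v ∈ (U ∪ W) \ W, x v < ∑ v ∈ (U ∪ W) \ W, y v := by
    refine sum_lt_sum (fun v hv => ?_) ⟨k, mem_sdiff.2 ⟨mem_union_left _ hkU, fun h => ?_⟩, hk⟩
    · by_contra h
      push Not at h
      exact (mem_sdiff.1 hv).2 (mem_sup.2 ⟨S v, mem_image_of_mem _ (mem_filter.2 ⟨hmU v h, h⟩),
        (hS v h).1⟩)
    · obtain ⟨A, hA, h⟩ := mem_sup.1 h
      obtain ⟨m, hm, rfl⟩ := mem_image.1 hA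
      exact (hS m (mem_filter.1 hm).2).2.1 h
  omega

end Pool.Agent.Lib.MP_b67cc8_lc
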