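import Pool.Agent.Lib.MP_b67cc8_lc.Graph

/-! Deletion and contraction for the number of interior lattice points. -/

namespace Pool.Agent.Lib.MP_b67cc8_lc

open Finset
open scoped Classical

/-- merge the class of `v` into the class of `u` -/
def mrg (f : ℕ → ℕ) (u v : ℕ) (w : ℕ) : ℕ := if f w = f v then f u else f w

/-- relabel the vertices -/
def rl (g : ℕ → ℕ) (L : EL) : EL := L.map fun e => (g e.1, g e.2)

lemma ins_cons (u v : ℕ) (L : EL) (S : Finset ℕ) :
    ins ((u, v) :: L) S = (if u ∈ S ∧ v ∈ S then 1 else 0) + ins L S := sm_cons _ _ _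

lemma cr_cons (u v : ℕ) (L : EL) (S : Finset ℕ) :
    cr ((u, v) :: L) S = (if (u ∈ S ↔ v ∈ S) then 0 else 1) + cr L S := sm_cons _ _ _

lemma ins_le (L : EL) (S : Finset ℕ) : ins L S ≤ L.length := by
  rw [← sm_one]
  exact sm_le fun e _ => by split_ifs <;> omega

lemma up_inj (v : ℕ) : Function.Injective fun d : ℕ → ℕ => up d v := fun a b h => funext fun w => by
  have := congrFun h w
  simp only [up] at this
  split_ifs at this <;> omega

lemma exists_up {d : ℕ → ℕ} {v : ℕ} (h : 0 < d v) : ∃ a, d = up a v :=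
  ⟨fun a => if a = v then d a - 1 else d a, funext fun a => by
    simp only [up]; split_ifs <;> subst_vars <;> omega⟩

lemma up_base {U : Finset ℕ} {v : ℕ} (hv : v ∈ U) (d : ℕ → ℕ) (r : ℕ) :
    (∑ a ∈ U, up d v a = r + 1 ∧ ∀ a ∉ U, up d v a = 0) ↔
      (∑ a ∈ U, d a = r ∧ ∀ a ∉ U, d a = 0) := by
  rw [sum_up', if_pos hv, Nat.add_right_cancel_iff]
  refine and_congr_right fun _ => forall₂_congr fun a ha => ?_
  have : a ≠ v := fun e => ha (e ▸ hv)
  simp [up, this]

lemma JJ_nil (U : Finset ℕ) : (JJ U []).card = 1 := by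
  rw [card_eq_one]
  refine ⟨0, eq_singleton_iff_unique_mem.2 ⟨mem_JJ.2 ⟨by simp, fun S => by simp [ins, cr]⟩,
    fun d hd => funext fun v => ?_⟩⟩
  obtain ⟨⟨h1, h2⟩, -⟩ := mem_JJ.1 hd
  by_cases h : v ∈ U
  · exact sum_eq_zero_iff.1 h1 v h
  · exact h2 v h

lemma JJ_loop {U : Finset ℕ} {u : ℕ} (hu : u ∈ U) (L : EL) :
    (JJ U ((u, u) :: L)).card = (JJ U L).card := by
  have e : ∀ d, up d u ∈ JJ U ((u, u) :: L) ↔ d ∈ JJ U L := fun d => by
    rw [mem_JJ, mem_JJ, List.length_cons, up_base hu]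
    refine and_congr_right fun _ => forall_congr' fun S => ?_
    simp only [ins_cons, cr_cons, sum_up', and_self, if_true]
    omega
  rw [← card_image_of_injective (JJ U L) (up_inj u)]
  congr 1
  ext d
  rw [mem_image]
  refine ⟨fun h => ?_, fun ⟨a, ha, h⟩ => h ▸ (e a).2 ha⟩
  have := (mem_JJ.1 h).2 {u}
  rw [ins_cons, sum_singleton, if_pos (by simp)] at this
  obtain ⟨a, rfl⟩ := exists_up (show 0 < d u by omega)
  exact ⟨a, (e a).1 h, rfl⟩

lemma JJ_bridge {U S : Finset ℕ} {u v : ℕ} {L : EL} (hL : In U ((u, v) :: L))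
    (h : ¬(u ∈ S ↔ v ∈ S)) (hc : cr L S = 0) : JJ U ((u, v) :: L) = ∅ := by
  refine eq_empty_of_forall_notMem fun d hd => ?_
  have h1 := ins_split L (subset_union_right (s₁ := U)) hc
  have h2 := sum_sdiff (f := d) (subset_union_right (s₁ := U) (s₂ := S))
  rw [ins_all (fun e he => hL e (List.mem_cons_of_mem _ he)) subset_union_left] at h1
  rw [JJ_sum hd subset_union_left, List.length_cons] at h2
  have h3 := (mem_JJ.1 hd).2 S
  have h4 := (mem_JJ.1 hd).2 ((U ∪ S) \ S)
  have := hL _ List.mem_cons_self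
  rw [ins_cons, cr_cons, if_neg h] at h3
  rw [ins_cons, cr_cons, if_neg (c := _ ↔ _) (by simp only [mem_sdiff, mem_union]; tauto)] at h4
  omega

lemma ok_con {u v : ℕ} (L : EL) {β : ℕ → ℕ} (hβ : β v = 0) :
    Ok (rl (mrg id u v) L) β ↔
      ∀ S : Finset ℕ, (u ∈ S ↔ v ∈ S) → ins L S + min 1 (cr L S) ≤ ∑ a ∈ S, β a := by
  have key : ∀ S T : Finset ℕ, (∀ w, mrg id u v w ∈ S ↔ w ∈ T) →
      ins (rl (mrg id u v) L) S = ins L T ∧ cr (rl (mrg id u v) L) S = cr L T := fun S T h => by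
    simp only [ins, cr, rl, sm_map, h, and_self]
  constructor
  · intro h S hS
    have := h S
    obtain ⟨h1, h2⟩ := key S S fun w => by
      simp only [mrg, id]
      split_ifs with h
      exacts [h ▸ hS, Iff.rfl]
    rwa [h1, h2] at this
  · intro h S
    by_cases hu : u ∈ S
    · obtain ⟨h1, h2⟩ := key S (insert v S) fun w => by
        simp only [mrg, id, mem_insert]
        split_ifs with h <;> simp [h, hu]
      have := h (insert v S) (by simp [hu])
      rwa [sum_insert_zero hβ, ← h1, ← h2] at this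
    · obtain ⟨h1, h2⟩ := key S (S.erase v) fun w => by
        simp only [mrg, id, mem_erase]
        split_ifs with h <;> simp [h, hu]
      have := h (S.erase v) (by simp [hu])
      rwa [sum_erase _ hβ, ← h1, ← h2] at this

lemma sum_rel {u v : ℕ} (huv : u ≠ v) {d β : ℕ → ℕ} (h : ∀ w, w ≠ u → w ≠ v → d w = β w)
    (hβ : β v = 0) (S : Finset ℕ) : (∑ a ∈ S, d a + if u ∈ S then β u else 0) =
      (∑ a ∈ S, β a + if u ∈ S then d u else 0) + if v ∈ S then d v else 0 := by
  simp only [← sum_ite_eq' S u fun _ => β u, ← sum_ite_eq' S u fun _ => d u,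
    ← sum_ite_eq' S v fun _ => d v, ← sum_add_distrib]
  refine sum_congr rfl fun w _ => ?_
  have := h w
  split_ifs <;> subst_vars <;> simp_all [add_comm]

lemma ins_strict {L : EL} {S T : Finset ℕ} (h1 : cr L (S ∪ T) = 0) (h2 : cr L (S ∩ T) = 0) :
    ins L S + ins L T + cr L S ≤ ins L (S ∪ T) + ins L (S ∩ T) := by
  simp only [ins, cr, ← sm_add]
  refine sm_le fun e he => ?_
  have a := cr_eq_zero.1 h1 e he
  have b := cr_eq_zero.1 h2 e he
  simp only [mem_union, mem_inter] at a b ⊢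
  by_cases c1 : e.1 ∈ S <;> by_cases c2 : e.2 ∈ S <;> by_cases c3 : e.1 ∈ T <;>
    by_cases c4 : e.2 ∈ T <;> simp [c1, c2, c3, c4] at a b ⊢

lemma pos_of_JJ {U : Finset ℕ} {u v : ℕ} {L : EL} (huv : u ≠ v) {d : ℕ → ℕ}
    (hd : d ∈ JJ U ((u, v) :: L)) : 0 < d v := by
  have := (mem_JJ.1 hd).2 {v}
  rw [cr_cons, sum_singleton, if_neg (by simp [huv])] at this
  omega

section
variable {U : Finset ℕ} {u v : ℕ} {L : EL}

lemma del_iff (hL : In U ((u, v) :: L)) (hb : ∀ S : Finset ℕ, ¬(u ∈ S ↔ v ∈ S) → cr L S ≠ 0)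
    (d : ℕ → ℕ) : d ∈ JJ U L ↔ up d v ∈ JJ U ((u, v) :: L) ∧ up d u ∈ JJ U ((u, v) :: L) := by
  obtain ⟨hu, hv⟩ := hL _ List.mem_cons_self
  simp only [mem_JJ, List.length_cons, up_base hu, up_base hv]
  simp only [Ok, ins_cons, cr_cons, sum_up']
  constructor
  · rintro ⟨h1, h2⟩
    refine ⟨⟨h1, fun S => ?_⟩, h1, fun S => ?_⟩ <;>
    · have := h2 S
      have := hb S
      by_cases a : u ∈ S <;> by_cases b : v ∈ S <;> simp [a, b] at this ⊢ <;> omega
  · rintro ⟨⟨h1, h2⟩, -, h3⟩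
    refine ⟨h1, fun S => ?_⟩
    have a2 := h2 S
    have a3 := h3 S
    by_cases a : u ∈ S <;> by_cases b : v ∈ S <;> simp [a, b] at a2 a3 <;> omega

/-- the end points of the fibres of the contraction -/
noncomputable def XX (U : Finset ℕ) (u v : ℕ) (L : EL) : Finset (ℕ → ℕ) :=
  (JJ U ((u, v) :: L)).filter fun d => mv d v u ∉ JJ U ((u, v) :: L)

theorem fibre (hL : In U ((u, v) :: L)) (huv : u ≠ v)
    (hb : ∀ S : Finset ℕ, ¬(u ∈ S ↔ v ∈ S) → cr L S ≠ 0) :
    (XX U u v L).card = (JJ U (rl (mrg id u v) L)).card ∧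
    (JJ U ((u, v) :: L)).card = (JJ U L).card + (JJ U (rl (mrg id u v) L)).card ∧
    (JJ U ((u, v) :: L)).card ≤ (L.length + 2) * (JJ U (rl (mrg id u v) L)).card := by
  obtain ⟨hu, hv⟩ := hL _ List.mem_cons_self
  simp only at hu hv
  set π : (ℕ → ℕ) → ℕ → ℕ := fun d w => if w = v then 0 else if w = u then d u + d v - 1 else d w
    with hπ
  have π1 : ∀ d w, w ≠ u → w ≠ v → d w = π d w := fun d w a b => by simp [hπ, a, b]
  have π2 : ∀ d, π d v = 0 := fun d => by simp [hπ]
  have π3 : ∀ d, π d u = d u + d v - 1 := fun d => by simp [hπ, huv]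
  have c1 : ∀ d ∈ JJ U ((u, v) :: L), π d ∈ JJ U (rl (mrg id u v) L) := fun d hd => by
    have h0 := pos_of_JJ huv hd
    obtain ⟨⟨h1, h2⟩, h3⟩ := mem_JJ.1 hd
    have h4 := π3 d
    refine mem_JJ.2 ⟨⟨?_, fun w hw => ?_⟩, (ok_con L (π2 d)).2 fun S hS => ?_⟩
    · have := sum_rel huv (π1 d) (π2 d) U
      simp only [hu, hv, if_true, h1, List.length_cons] at this
      simp only [rl, List.length_map]
      omega
    · rw [← π1 d w (fun e => hw (e ▸ hu)) fun e => hw (e ▸ hv)]
      exact h2 w hw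
    · have a1 := sum_rel huv (π1 d) (π2 d) S
      have a2 := h3 S
      rw [ins_cons, cr_cons, if_pos hS] at a2
      by_cases a : u ∈ S <;> simp only [a, ← hS, if_true, if_false, and_self] at a1 a2 <;> omega
  have c2 : ∀ β ∈ JJ U (rl (mrg id u v) L), ∃ d ∈ XX U u v L, π d = β := fun β hβ => by
    obtain ⟨⟨h1, h2⟩, h3⟩ := mem_JJ.1 hβ
    have hβv : β v = 0 := by
      have a1 := h3 (U.erase v)
      have a2 := add_sum_erase U β hv
      rw [ins_all (U := U.erase v) (fun e he => by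
        obtain ⟨e, he', rfl⟩ := List.mem_map.1 he
        have := hL e (List.mem_cons_of_mem _ he')
        simp only [mrg, id, mem_erase]
        constructor <;> split_ifs with c
        exacts [⟨huv, hu⟩, ⟨c, this.1⟩, ⟨huv, hu⟩, ⟨c, this.2⟩]) subset_rfl] at a1
      omega
    rw [ok_con L hβv] at h3
    have ex : ∃ t, ∀ S : Finset ℕ, v ∈ S → u ∉ S → ins L S + 1 ≤ ∑ a ∈ S, β a + t :=
      ⟨L.length + 1, fun S _ _ => by have := ins_le L S; omega⟩
    have t1 := Nat.find_spec ex
    have t0 : 0 < Nat.find ex := by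
      have := t1 {v} (mem_singleton_self v) (by simp [huv])
      rw [sum_singleton] at this
      omega
    have t2 := Nat.find_min ex (Nat.sub_one_lt_of_lt t0)
    generalize Nat.find ex = t at t0 t1 t2
    push Not at t2
    obtain ⟨S₀, s1, s2, s3⟩ := t2
    have t3 : ∀ T : Finset ℕ, u ∈ T → v ∉ T → t + ins L T ≤ ∑ a ∈ T, β a := fun T a b => by
      have a1 := sum_union_inter (f := β) (s₁ := S₀) (s₂ := T)
      have a2 := h3 (S₀ ∪ T) (by simp [a, s1])
      have a3 := h3 (S₀ ∩ T) (by simp [b, s2])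
      have a4 := ins_super L S₀ T
      have a5 := @ins_strict L S₀ T
      have a6 := hb S₀ (by simp [s1, s2])
      omega
    have t4 := t3 {u} (mem_singleton_self u) (by simp [huv.symm])
    rw [sum_singleton] at t4
    set d : ℕ → ℕ := fun w => if w = v then t else if w = u then β u + 1 - t else β w with hd
    have d1 : ∀ w, w ≠ u → w ≠ v → d w = β w := fun w a b => by simp [hd, a, b]
    have d2 : d v = t := by simp [hd]
    have d3 : d u = β u + 1 - t := by simp [hd, huv]
    have d4 := sum_rel huv d1 hβv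
    refine ⟨d, mem_filter.2 ⟨mem_JJ.2 ⟨⟨?_, fun w hw => ?_⟩, fun S => ?_⟩, fun h => ?_⟩,
      funext fun w => ?_⟩
    · have := d4 U
      simp only [hu, hv, if_true, h1, rl, List.length_map] at this
      simp only [List.length_cons]
      omega
    · rw [d1 w (fun e => hw (e ▸ hu)) fun e => hw (e ▸ hv)]
      exact h2 w hw
    · have a1 := d4 S
      have a2 := h3 S
      have a3 := t1 S
      have a4 := t3 S
      rw [ins_cons, cr_cons]
      by_cases a : u ∈ S <;> by_cases b : v ∈ S <;> simp [a, b] at a1 a2 a3 a4 ⊢ <;> omega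
    · have a1 := (mem_JJ.1 h).2 S₀
      have a2 := sum_mv (d := d) (i := v) (by omega) u S₀
      have a3 := d4 S₀
      rw [ins_cons, cr_cons] at a1
      simp [s1, s2] at a1 a2 a3
      omega
    · simp only [hπ]
      split_ifs with a b
      · rw [a, hβv]
      · rw [b]; omega
      · exact d1 w b a
  have c3 : ∀ x ∈ JJ U ((u, v) :: L), ∀ y ∈ JJ U ((u, v) :: L), π x = π y →
      (∀ w, w ≠ u → w ≠ v → x w = y w) ∧ x u + x v = y u + y v := fun x hx y hy h => by
    refine ⟨fun w a b => by rw [π1 x w a b, h, ← π1 y w a b], ?_⟩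
    have := congrFun h u
    rw [π3, π3] at this
    have := pos_of_JJ huv hx
    have := pos_of_JJ huv hy
    omega
  have c4 : ∀ x ∈ JJ U ((u, v) :: L), ∀ y ∈ JJ U ((u, v) :: L), π x = π y → x v = y v → x = y :=
    fun x hx y hy h e => funext fun w => by
      obtain ⟨a1, a2⟩ := c3 x hx y hy h
      by_cases a : w = u
      · rw [a]; omega
      by_cases b : w = v
      · rw [b, e]
      exact a1 w a b
  have c5 : ∀ x ∈ XX U u v L, ∀ y ∈ XX U u v L, π x = π y → x v ≤ y v := fun x hx y hy h => by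
    obtain ⟨hx, hx'⟩ := mem_filter.1 hx
    obtain ⟨hy, -⟩ := mem_filter.1 hy
    obtain ⟨a1, a2⟩ := c3 x hx y hy h
    by_contra hlt
    obtain ⟨m, m1, m2⟩ := JJ_exch hL x hx y hy u (by omega)
    by_cases a : m = u
    · rw [a] at m1; omega
    by_cases b : m = v
    · exact hx' (b ▸ m2)
    have := a1 m a b
    omega
  have r1 : (XX U u v L).card = (JJ U (rl (mrg id u v) L)).card :=
    card_bij (fun d _ => π d) (fun d hd => c1 d (mem_filter.1 hd).1)
      (fun x hx y hy h => c4 x (mem_filter.1 hx).1 y (mem_filter.1 hy).1 h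
        (le_antisymm (c5 x hx y hy h) (c5 y hy x hx h.symm)))
      fun β hβ => by obtain ⟨d, hd, e⟩ := c2 β hβ; exact ⟨d, hd, e⟩
  refine ⟨r1, ?_, card_le_mul_card_image_of_maps_to c1 _ fun β _ => ?_⟩
  · rw [← r1, XX, ← card_filter_add_card_filter_not (fun d => mv d v u ∈ JJ U ((u, v) :: L)),
      ← card_image_of_injective (JJ U L) (up_inj v)]
    congr 2
    ext d
    rw [mem_filter, mem_image]
    constructor
    · rintro ⟨h1, h2⟩
      obtain ⟨a, rfl⟩ := exists_up (pos_of_JJ huv h1)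
      rw [mv_up] at h2
      exact ⟨a, (del_iff hL hb a).2 ⟨h1, h2⟩, rfl⟩
    · rintro ⟨a, ha, rfl⟩
      rw [mv_up]
      exact (del_iff hL hb a).1 ha
  · rw [← card_range (L.length + 2)]
    refine card_le_card_of_injOn (fun d => d v) (fun d hd => ?_) fun x hx y hy h => ?_
    · have a1 := (mem_JJ.1 (mem_filter.1 hd).1).1.1
      have a2 := single_le_sum (f := d) (fun _ _ => Nat.zero_le _) hv
      simp only [List.length_cons] at a1
      simp only [coe_range, Set.mem_Iio]
      omega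
    · simp only [coe_filter, Set.mem_ofPred_eq] at hx hy
      exact c4 x hx.1 y hy.1 (hx.2.trans hy.2.symm) h

end

end Pool.Agent.Lib.MP_b67cc8_lc
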