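import Pool.Agent.Lib.MP_b67cc8_lc.Trickle

/-! The exponential generating polynomial of an M-convex set: Hessians have one positive
eigenvalue, the down-up walk has a Poincare inequality, the polynomial is log-concave. -/

namespace Pool.Agent.Lib.MP_b67cc8_lc

open Finset

variable {ι : Type} [DecidableEq ι]

/-- add one unit in coordinate `i` -/
def up (β : ι → ℕ) (i : ι) : ι → ℕ := fun a => if a = i then β a + 1 else β a

/-- move one unit from coordinate `i` to coordinate `j` -/
def mv (α : ι → ℕ) (i j : ι) : ι → ℕ := up (fun a => if a = i then α a - 1 else α a) j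

lemma up_comm (β : ι → ℕ) (i j : ι) : up (up β i) j = up (up β j) i := by
  funext a
  simp only [up]
  split_ifs <;> rfl

lemma mv_up (β : ι → ℕ) (i j : ι) : mv (up β i) i j = up β j := by
  unfold mv
  congr 1
  funext a
  simp only [up]
  split_ifs <;> simp

/-- the exchange axiom of M-convex sets -/
def Exch (J : Finset (ι → ℕ)) : Prop :=
  ∀ x ∈ J, ∀ y ∈ J, ∀ k, x k < y k → ∃ m, y m < x m ∧ mv x m k ∈ J

variable [Fintype ι]

lemma Exch.three {J : Finset (ι → ℕ)} (hJ : Exch J) {β α α' : ι → ℕ} {i l j : ι} (h : α ∈ J)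
    (h1 : up (up β i) l ≤ α) (h' : α' ∈ J) (h2 : up β j ≤ α') :
    ∃ γ ∈ J, ∑ a, (γ a - β a) = ∑ a, (α a - β a) ∧
      (up (up β i) j ≤ γ ∨ up (up β l) j ≤ γ) := by
  replace h1 : ∀ a, up (up β i) l a ≤ α a := h1
  replace h2 : ∀ a, up β j a ≤ α' a := h2
  by_cases hj : β j < α j
  · refine ⟨α, h, rfl, ?_⟩
    by_cases hij : j = i
    · right
      rw [hij, up_comm]; exact h1
    · left
      intro a
      have := h1 a
      simp only [up] at this ⊢
      split_ifs at this ⊢ <;> subst_vars <;> first | omega | contradiction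
  · have h3 := h2 j
    have h4 := h1 j
    simp only [up, if_true] at h3 h4
    obtain ⟨m, hm, hm'⟩ := hJ α h α' h' j (by omega)
    have h5 := h2 m
    have hmj : m ≠ j := by rintro rfl; omega
    have hij : j ≠ i := fun e => by simp only [e, if_true] at h4 hj; split_ifs at h4 <;> omega
    have hlj : j ≠ l := fun e => by simp only [e, if_true] at h4 hj; split_ifs at h4 <;> omega
    simp only [up, hmj, if_false] at h5
    simp only [hij, hlj, if_false] at h4
    refine ⟨_, hm', ?_, ?_⟩
    · have e : ∀ a, mv α m j a - β a + (if a = m then 1 else 0) =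
          α a - β a + (if a = j then 1 else 0) := by
        intro a
        simp only [mv, up]
        split_ifs <;> subst_vars <;> first | omega | contradiction
      have := sum_congr (rfl : (univ : Finset ι) = univ) fun a _ => e a
      simp only [sum_add_distrib, sum_ite_eq', mem_univ, if_true] at this
      omega
    · by_cases hmi : m = i
      · right
        intro a
        have := h1 a
        simp only [mv, up] at this ⊢
        split_ifs at this ⊢ <;> subst_vars <;> first | omega | contradiction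
      · left
        intro a
        have := h1 a
        simp only [mv, up] at this ⊢
        split_ifs at this ⊢ <;> subst_vars <;> first | omega | contradiction

/-- one step of the particle expansion -/
def T (t : ι → ℝ) (G : (ι → ℕ) → ℝ) (β : ι → ℕ) : ℝ := ∑ i, t i * G (up β i)

/-- restriction to `J` -/
noncomputable def ind (J : Finset (ι → ℕ)) (f : (ι → ℕ) → ℝ) (α : ι → ℕ) : ℝ :=
  if α ∈ J then f α else 0

lemma T_mono {t : ι → ℝ} (ht : ∀ i, 0 < t i) {F G : (ι → ℕ) → ℝ} (h : ∀ α, F α ≤ G α) (k : ℕ) :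
    ∀ β, (T t)^[k] F β ≤ (T t)^[k] G β := by
  induction k with
  | zero => exact h
  | succ k ih =>
    intro β
    simp only [Function.iterate_succ_apply', T]
    exact sum_le_sum fun i _ => mul_le_mul_of_nonneg_left (ih _) (ht i).le

lemma T_zero (t : ι → ℝ) (k : ℕ) : (T t)^[k] (fun _ => 0) = fun _ => 0 := by
  induction k with
  | zero => rfl
  | succ k ih => rw [Function.iterate_succ_apply', ih]; funext β; simp [T]

lemma T_nonneg {t : ι → ℝ} (ht : ∀ i, 0 < t i) {G : (ι → ℕ) → ℝ} (h : ∀ α, 0 ≤ G α) (k : ℕ)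
    (β : ι → ℕ) : 0 ≤ (T t)^[k] G β := by
  have := T_mono ht h k β
  rwa [T_zero] at this

/-- partition functions of the links -/
noncomputable def Z (t : ι → ℝ) (J : Finset (ι → ℕ)) (k : ℕ) : (ι → ℕ) → ℝ :=
  (T t)^[k] (ind J 1)

lemma Z_succ (t : ι → ℝ) (J : Finset (ι → ℕ)) (k : ℕ) (β : ι → ℕ) :
    Z t J (k + 1) β = ∑ i, t i * Z t J k (up β i) := by
  simp only [Z, Function.iterate_succ_apply', T]

lemma Z_nonneg {t : ι → ℝ} (ht : ∀ i, 0 < t i) (J : Finset (ι → ℕ)) (k : ℕ) (β : ι → ℕ) :
    0 ≤ Z t J k β :=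
  T_nonneg ht (fun α => by unfold ind; split_ifs <;> simp) k β

lemma sum_up (β α : ι → ℕ) (i : ι) (h : up β i ≤ α) :
    ∑ a, (α a - β a) = ∑ a, (α a - up β i a) + 1 := by
  have e : ∀ a, α a - β a = α a - up β i a + (if a = i then 1 else 0) := by
    intro a
    have := h a
    simp only [up] at this ⊢
    split_ifs at this ⊢ <;> omega
  simp only [e, sum_add_distrib, sum_ite_eq', mem_univ, if_true]

lemma Z_pos_iff {t : ι → ℝ} (ht : ∀ i, 0 < t i) (J : Finset (ι → ℕ)) (k : ℕ) : ∀ β : ι → ℕ,
    0 < Z t J k β ↔ ∃ α ∈ J, β ≤ α ∧ ∑ a, (α a - β a) = k := by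
  induction k with
  | zero =>
    intro β
    simp only [Z, Function.iterate_zero, id, ind]
    constructor
    · intro h
      split_ifs at h with h1
      · exact ⟨β, h1, le_rfl, by simp⟩
      · exact absurd h (lt_irrefl _)
    · rintro ⟨α, h1, h2, h3⟩
      have : α = β := funext fun a => by
        have := (sum_eq_zero_iff.1 h3) a (mem_univ a)
        have : β a ≤ α a := h2 a
        omega
      simp [← this, h1]
  | succ k ih =>
    intro β
    rw [Z_succ]
    constructor
    · intro h
      obtain ⟨i, -, hi⟩ := exists_ne_zero_of_sum_ne_zero h.ne'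
      obtain ⟨α, h1, h2, h3⟩ := (ih _).1 ((Z_nonneg ht J k _).lt_of_ne' (right_ne_zero_of_mul hi))
      refine ⟨α, h1, fun a => le_trans ?_ (h2 a), by rw [sum_up β α i h2, h3]⟩
      simp only [up]; split_ifs <;> omega
    · rintro ⟨α, h1, h2, h3⟩
      obtain ⟨i, -, hi⟩ := exists_ne_zero_of_sum_ne_zero (h3.trans_ne k.succ_ne_zero)
      have h4 : up β i ≤ α := fun a => by
        have := h2 a
        simp only [up]
        split_ifs with h
        · subst h; omega
        · exact this
      refine sum_pos' (fun j _ => mul_nonneg (ht j).le (Z_nonneg ht J k _))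
        ⟨i, mem_univ i, mul_pos (ht i) ((ih _).2 ⟨α, h1, h4, ?_⟩)⟩
      have := sum_up β α i h4
      omega

/-- the weighted Hessian of a link -/
noncomputable def KK (t : ι → ℝ) (J : Finset (ι → ℕ)) (k : ℕ) (β : ι → ℕ) (i j : ι) : ℝ :=
  t i * (t j * Z t J k (up (up β i) j))

lemma KK_symm (t : ι → ℝ) (J : Finset (ι → ℕ)) (k : ℕ) (β : ι → ℕ) (i j : ι) :
    KK t J k β i j = KK t J k β j i := by
  simp only [KK, up_comm β i j]; ring

lemma KK_nonneg {t : ι → ℝ} (ht : ∀ i, 0 < t i) (J : Finset (ι → ℕ)) (k : ℕ) (β : ι → ℕ)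
    (i j : ι) : 0 ≤ KK t J k β i j :=
  mul_nonneg (ht i).le (mul_nonneg (ht j).le (Z_nonneg ht J k _))

lemma KK_row (t : ι → ℝ) (J : Finset (ι → ℕ)) (k : ℕ) (β : ι → ℕ) (i : ι) :
    ∑ j, KK t J k β i j = t i * Z t J (k + 1) (up β i) := by
  simp only [KK, Z_succ, mul_sum]

lemma KK_one (t : ι → ℝ) (J : Finset (ι → ℕ)) (k : ℕ) (β : ι → ℕ) (h : ι → ℝ) :
    bil (KK t J k β) h 1 = ∑ i, t i * Z t J (k + 1) (up β i) * h i := by
  simp only [bil, ← KK_row, sum_mul, Pi.one_apply, mul_one]

lemma KK_one_one (t : ι → ℝ) (J : Finset (ι → ℕ)) (k : ℕ) (β : ι → ℕ) :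
    bil (KK t J k β) 1 1 = Z t J (k + 2) β := by
  rw [KK_one, Z_succ]; simp

lemma KK_three {t : ι → ℝ} (ht : ∀ i, 0 < t i) {J : Finset (ι → ℕ)} (hJ : Exch J) {k : ℕ}
    {β : ι → ℕ} {i l j : ι} (h1 : 0 < KK t J k β i l) (h2 : 0 < ∑ m, KK t J k β j m) :
    0 < KK t J k β i j ∨ 0 < KK t J k β l j := by
  rw [KK_row] at h2
  obtain ⟨α, a1, a2, a3⟩ := (Z_pos_iff ht J k _).1
    ((mul_pos_iff_of_pos_left (ht l)).1 ((mul_pos_iff_of_pos_left (ht i)).1 h1))
  obtain ⟨α', b1, b2, -⟩ := (Z_pos_iff ht J _ _).1 ((mul_pos_iff_of_pos_left (ht j)).1 h2)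
  obtain ⟨γ, c1, c4, c3⟩ := hJ.three a1 a2 b1 b2
  have le1 : ∀ (β α : ι → ℕ) i, up β i ≤ α → β ≤ α := fun β α i h a => by
    refine le_trans ?_ (h a)
    simp only [up]; split_ifs <;> omega
  have up1 : ∀ (β α : ι → ℕ) i j, up (up β i) j ≤ α →
      ∑ a, (α a - β a) = ∑ a, (α a - up (up β i) j a) + 2 := fun β α i j h => by
    rw [sum_up β α i (le1 _ _ _ h), sum_up _ α j h]
  have c5 := up1 _ _ _ _ a2
  rcases c3 with c3 | c3
  · have := up1 _ _ _ _ c3
    exact Or.inl (mul_pos (ht _) (mul_pos (ht _) ((Z_pos_iff ht J k _).2 ⟨γ, c1, c3, by omega⟩)))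
  · have := up1 _ _ _ _ c3
    exact Or.inr (mul_pos (ht _) (mul_pos (ht _) ((Z_pos_iff ht J k _).2 ⟨γ, c1, c3, by omega⟩)))

/-- the Hessians have at most one positive eigenvalue -/
theorem rcs {t : ι → ℝ} (ht : ∀ i, 0 < t i) {J : Finset (ι → ℕ)} (hJ : Exch J) (k : ℕ) :
    ∀ (β : ι → ℕ) (h : ι → ℝ), bil (KK t J k β) h h * bil (KK t J k β) 1 1 ≤
      bil (KK t J k β) h 1 ^ 2 := by
  classical
  induction k with
  | zero =>
    intro β h
    have hW : 0 ≤ bil (KK t J 0 β) 1 1 := by rw [KK_one_one]; exact Z_nonneg ht J _ _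
    rcases hW.lt_or_eq with hW | hW
    swap
    · rw [← hW, mul_zero]; exact sq_nonneg _
    set N : ι → Prop := fun i => 0 < ∑ m, KK t J 0 β i m with hN
    refine rcs_of_le_sq (KK_symm t J 0 β) (fun i => if N i then t i else 0) (fun y => ?_) 1 h hW
    have hp := per_psd (fun i j => N i ∧ N j ∧ KK t J 0 β i j = 0)
      (fun i j h => ⟨h.2.1, h.1, by rw [KK_symm]; exact h.2.2⟩) (fun i j k h1 h2 => by
        refine ⟨h1.1, h2.1, ?_⟩
        by_contra h3
        rcases KK_three ht hJ ((KK_nonneg ht J 0 β i j).lt_of_ne' h3) h1.2.1 with h4 | h4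
        · exact h4.ne' h1.2.2
        · exact h4.ne' h2.2.2) (fun i => t i * y i)
    have e : (∑ i, (if N i then t i else 0) * y i) ^ 2 = bil (KK t J 0 β) y y +
        bil (fun i j => if N i ∧ N j ∧ KK t J 0 β i j = 0 then 1 else 0) (fun i => t i * y i)
          (fun i => t i * y i) := by
      rw [sq, sum_mul_sum]
      simp only [bil, ← sum_add_distrib]
      refine sum_congr rfl fun i _ => sum_congr rfl fun j _ => ?_
      have row : ∀ i j, ¬ N i → KK t J 0 β i j = 0 := fun i j hi => by
        have h1 := single_le_sum (fun m _ => KK_nonneg ht J 0 β i m) (mem_univ j)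
        exact le_antisymm (h1.trans (not_lt.1 hi)) (KK_nonneg ht J 0 β i j)
      by_cases hi : N i
      · by_cases hj : N j
        · by_cases h0 : KK t J 0 β i j = 0
          · simp [hi, hj, h0]
          · have : KK t J 0 β i j = t i * t j := by
              simp only [KK, Z, Function.iterate_zero, id, ind] at h0 ⊢
              split_ifs at h0 ⊢ <;> simp_all
            simp only [hi, hj, h0, if_true, and_false, if_false]
            rw [this]; ring
        · simp [hj, KK_symm t J 0 β i j, row j i hj]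
      · simp [hi, row i j hi]
    rw [e]
    linarith
  | succ k ih =>
    intro β
    refine trickle (KK_symm t J _ β) (KK_nonneg ht J _ β) (fun h hh i j hi hj => ?_) fun h => ?_
    · obtain ⟨l, -, hl⟩ := exists_ne_zero_of_sum_ne_zero hi.ne'
      have hl' := (KK_nonneg ht J _ β i l).lt_of_ne' hl
      rcases KK_three ht hJ hl' hj with h1 | h1
      · exact hh i j h1
      · exact (hh i l hl').trans (hh l j h1)
    · have e1 : bil (KK t J (k + 1) β) h h = ∑ l, t l * bil (KK t J k (up β l)) h h := by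
        simp only [bil, KK, Z_succ, mul_sum, sum_mul]
        rw [sum_comm]
        refine Eq.trans (sum_congr rfl fun j _ => sum_comm) ?_
        rw [sum_comm]
        refine sum_congr rfl fun l _ => ?_
        rw [sum_comm]
        refine sum_congr rfl fun i _ => sum_congr rfl fun j _ => ?_
        rw [up_comm (up β i) j l, up_comm β i l, up_comm (up β l) i j, up_comm (up β l) j i]
        ring
      rw [e1]
      refine sum_le_sum fun l _ => ?_
      have h1 := ih (up β l) h
      rw [KK_one_one, KK_one] at h1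
      have e2 : ∑ j, KK t J (k + 1) β l j * h j =
          t l * ∑ i, t i * Z t J (k + 1) (up (up β l) i) * h i := by
        simp only [KK, mul_sum]
        exact sum_congr rfl fun j _ => by ring
      rw [e2, KK_row]
      rcases (Z_nonneg ht J (k + 2) (up β l)).lt_or_eq with h2 | h2
      · rw [le_div_iff₀ (mul_pos (ht l) h2)]
        have := mul_le_mul_of_nonneg_left h1 (sq_nonneg (t l))
        nlinarith
      · have h3 : bil (KK t J k (up β l)) h h = 0 := by
          have h4 := KK_one_one t J k (up β l)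
          rw [← h2] at h4
          simp only [bil, Pi.one_apply, mul_one] at h4
          refine sum_eq_zero fun i _ => sum_eq_zero fun j _ => ?_
          have h5 := (sum_eq_zero_iff_of_nonneg fun i _ => sum_nonneg fun j _ =>
            KK_nonneg ht J k _ i j).1 h4 i (mem_univ i)
          rw [(sum_eq_zero_iff_of_nonneg fun j _ => KK_nonneg ht J k _ i j).1 h5 j (mem_univ j)]
          ring
        rw [h3, ← h2]
        simp

end Pool.Agent.Lib.MP_b67cc8_lc
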