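import Pool.Agent.Lib.MP_b67cc8_lc.MConv

namespace Pool.Agent.Lib.MP_b67cc8_lc

open Finset

variable {ι : Type} [Fintype ι]

lemma two_step {K g : ι → ι → ℝ} {h : ι → ℝ} (hK : ∀ i j, K i j = K j i) (h0 : ∀ i j, 0 ≤ K i j)
    (hg : ∀ i j, g i j = g j i) (hh : ∀ i, ∑ j, K i j * g i j = (∑ j, K i j) * h i)
    (hr : bil K h h * bil K 1 1 ≤ bil K h 1 ^ 2) :
    2 * ∑ i, (∑ j, K i j) * h i ^ 2 ≤ ∑ i, ∑ j, K i j * g i j ^ 2 + bil K h 1 ^ 2 / bil K 1 1 := by
  set s := bil K h 1 with hs
  set W := bil K 1 1 with hW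
  have hW0 : 0 ≤ W := sum_nonneg fun i _ => sum_nonneg fun j _ => by simpa using h0 i j
  rcases hW0.lt_or_eq with hp | hp
  swap
  · have hz : ∀ i j, K i j = 0 := by
      intro i j
      have h4 : ∑ i, ∑ j, K i j = 0 := by simpa [hW, bil] using hp.symm
      exact (sum_eq_zero_iff_of_nonneg fun j _ => h0 i j).1 ((sum_eq_zero_iff_of_nonneg
        fun i _ => sum_nonneg fun j _ => h0 i j).1 h4 i (mem_univ i)) j (mem_univ j)
    simp [hz, ← hp]
  set m := s / W with hm
  have sw : ∀ F : ι → ι → ℝ, ∑ i, ∑ j, K i j * F i j = ∑ i, ∑ j, K i j * F j i := fun F => by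
    rw [sum_comm]
    exact sum_congr rfl fun i _ => sum_congr rfl fun j _ => by rw [hK]
  have e1 : ∑ i, ∑ j, K i j * h i ^ 2 = ∑ i, (∑ j, K i j) * h i ^ 2 := by simp only [sum_mul]
  have e2 : ∑ i, ∑ j, K i j * h j ^ 2 = ∑ i, (∑ j, K i j) * h i ^ 2 := by
    rw [← e1]; exact sw fun _ j => h j ^ 2
  have e3 : ∑ i, ∑ j, K i j * (g i j * h i) = ∑ i, (∑ j, K i j) * h i ^ 2 := by
    refine sum_congr rfl fun i _ => ?_
    rw [sq, ← mul_assoc, ← hh, sum_mul]
    exact sum_congr rfl fun j _ => by ring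
  have e4 : ∑ i, ∑ j, K i j * (g i j * h j) = ∑ i, (∑ j, K i j) * h i ^ 2 := by
    rw [← e3, sw fun i j => g i j * h j]
    exact sum_congr rfl fun i _ => sum_congr rfl fun j _ => by rw [hg]
  have e5 : ∑ i, ∑ j, K i j * h i = s := by simp [hs, bil]
  have e6 : ∑ i, ∑ j, K i j * h j = s := by rw [← e5]; exact sw fun _ j => h j
  have e7 : ∑ i, ∑ j, K i j * g i j = s := by
    rw [← e5]
    exact sum_congr rfl fun i _ => by rw [hh, sum_mul]
  have e8 : ∑ i, ∑ j, K i j = W := by simp [hW, bil]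
  have e9 : ∑ i, ∑ j, K i j * (h i * h j) = bil K h h := by simp only [bil, mul_assoc]
  have p : 0 ≤ ∑ i, ∑ j, K i j * (g i j - h i - h j + m) ^ 2 :=
    sum_nonneg fun i _ => sum_nonneg fun j _ => mul_nonneg (h0 i j) (sq_nonneg _)
  have ex : ∀ i j, K i j * (g i j - h i - h j + m) ^ 2 =
      K i j * g i j ^ 2 + K i j * h i ^ 2 + K i j * h j ^ 2 + m ^ 2 * K i j -
        2 * (K i j * (g i j * h i)) - 2 * (K i j * (g i j * h j)) + 2 * m * (K i j * g i j) +
        2 * (K i j * (h i * h j)) - 2 * m * (K i j * h i) - 2 * m * (K i j * h j) :=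
    fun i j => by ring
  simp only [ex, sum_add_distrib, sum_sub_distrib, ← mul_sum, e1, e2, e3, e4, e5, e6, e7, e8,
    e9] at p
  have a1 : m * W = s := by rw [hm]; field_simp
  have a2 : s ^ 2 / W = m * s := by rw [hm]; ring
  have a3 : bil K h h ≤ m * s := by rw [← a2, le_div_iff₀ hp]; exact hr
  rw [a2]
  nlinarith

variable [DecidableEq ι]

/-- unnormalised expectations in the links -/
noncomputable def S (t : ι → ℝ) (J : Finset (ι → ℕ)) (f : (ι → ℕ) → ℝ) (k : ℕ) : (ι → ℕ) → ℝ :=
  (T t)^[k] (ind J f)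

lemma S_succ (t : ι → ℝ) (J : Finset (ι → ℕ)) (f : (ι → ℕ) → ℝ) (k : ℕ) (β : ι → ℕ) :
    S t J f (k + 1) β = ∑ i, t i * S t J f k (up β i) := by
  simp only [S, Function.iterate_succ_apply', T]

lemma S_eq_zero {t : ι → ℝ} (ht : ∀ i, 0 < t i) (J : Finset (ι → ℕ)) (f : (ι → ℕ) → ℝ) (k : ℕ) :
    ∀ β, Z t J k β = 0 → S t J f k β = 0 := by
  induction k with
  | zero =>
    intro β h
    simp only [Z, S, Function.iterate_zero, id, ind] at h ⊢
    split_ifs at h ⊢ <;> simp_all
  | succ k ih =>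
    intro β h
    rw [Z_succ] at h
    rw [S_succ]
    refine sum_eq_zero fun i _ => ?_
    have := (sum_eq_zero_iff_of_nonneg fun i _ => mul_nonneg (ht i).le (Z_nonneg ht J k _)).1 h i
      (mem_univ i)
    rw [ih _ ((mul_eq_zero.1 this).resolve_left (ht i).ne'), mul_zero]

lemma Z_mul_div {t : ι → ℝ} (ht : ∀ i, 0 < t i) (J : Finset (ι → ℕ)) (f : (ι → ℕ) → ℝ) (k : ℕ)
    (β : ι → ℕ) : Z t J k β * (S t J f k β / Z t J k β) = S t J f k β := by
  by_cases h : Z t J k β = 0
  · rw [S_eq_zero ht J f k β h, h]; simp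
  · field_simp

/-- squared conditional expectation -/
noncomputable def U (t : ι → ℝ) (J : Finset (ι → ℕ)) (f : (ι → ℕ) → ℝ) (k : ℕ) (β : ι → ℕ) : ℝ :=
  S t J f k β ^ 2 / Z t J k β

lemma U_step {t : ι → ℝ} (ht : ∀ i, 0 < t i) {J : Finset (ι → ℕ)} (hJ : Exch J)
    (f : (ι → ℕ) → ℝ) (k : ℕ) (β : ι → ℕ) :
    2 * T t (U t J f (k + 1)) β ≤ T t (T t (U t J f k)) β + U t J f (k + 2) β := by
  have eU : ∀ k β, Z t J k β * (S t J f k β / Z t J k β) ^ 2 = U t J f k β := fun k β => by
    rw [sq, ← mul_assoc, Z_mul_div ht, U]; ring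
  have := two_step (K := KK t J k β)
    (g := fun i j => S t J f k (up (up β i) j) / Z t J k (up (up β i) j))
    (h := fun i => S t J f (k + 1) (up β i) / Z t J (k + 1) (up β i)) (KK_symm t J k β)
    (KK_nonneg ht J k β) (fun i j => by rw [up_comm]) (fun i => by
      rw [KK_row, mul_assoc, Z_mul_div ht, S_succ, mul_sum]
      exact sum_congr rfl fun j _ => by rw [KK, mul_assoc, mul_assoc, Z_mul_div ht])
    (rcs ht hJ k β _)
  rw [KK_one_one, KK_one] at this
  simp only [KK_row] at this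
  simp only [KK, mul_assoc, eU, Z_mul_div ht, ← S_succ] at this
  simpa only [T, U, mul_sum] using this

/-- the local energy of `f` at `α` for the exchange walk -/
noncomputable def En (J : Finset (ι → ℕ)) (f : (ι → ℕ) → ℝ) (α : ι → ℕ) : ℝ :=
  ∑ i, ∑ j, if 0 < α i ∧ mv α i j ∈ J then (f α - f (mv α i j)) ^ 2 else 0

lemma En_nonneg (J : Finset (ι → ℕ)) (f : (ι → ℕ) → ℝ) (α : ι → ℕ) : 0 ≤ En J f α :=
  sum_nonneg fun _ _ => sum_nonneg fun _ _ => by split_ifs <;> positivity

lemma T_sub (t : ι → ℝ) (F G : (ι → ℕ) → ℝ) (β : ι → ℕ) :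
    T t (fun α => F α - G α) β = T t F β - T t G β := by
  simp only [T, mul_sub, sum_sub_distrib]

lemma var_one {t : ι → ℝ} (ht : ∀ i, 0 < t i) (J : Finset (ι → ℕ)) (f : (ι → ℕ) → ℝ)
    (β : ι → ℕ) : S t J (fun α => f α ^ 2) 1 β - U t J f 1 β ≤ S t J (En J f) 1 β := by
  have hE : 0 ≤ S t J (En J f) 1 β :=
    T_nonneg ht (fun α => by unfold ind; split_ifs; exacts [En_nonneg J f α, le_rfl]) 1 β
  rcases (Z_nonneg ht J 1 β).lt_or_eq with hZ | hZ
  swap
  · rw [S_eq_zero ht J _ 1 β hZ.symm, U, ← hZ]; simpa using hE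
  obtain ⟨j, -, hj⟩ := exists_ne_zero_of_sum_ne_zero ((Z_succ t J 0 β).symm.trans_ne hZ.ne')
  have hjJ : up β j ∈ J := by
    by_contra h
    simp [Z, ind, h] at hj
  set c := f (up β j)
  have e1 : S t J (fun α => (f α - c) ^ 2) 1 β =
      S t J (fun α => f α ^ 2) 1 β - 2 * c * S t J f 1 β + c ^ 2 * Z t J 1 β := by
    simp only [S_succ, Z_succ, mul_sum, ← sum_sub_distrib, ← sum_add_distrib]
    refine sum_congr rfl fun i _ => ?_
    simp only [S, Z, Function.iterate_zero, id, ind]
    split_ifs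
    · simp; ring
    · simp
  have e2 : S t J (fun α => (f α - c) ^ 2) 1 β ≤ S t J (En J f) 1 β := by
    simp only [S_succ]
    refine sum_le_sum fun i _ => mul_le_mul_of_nonneg_left ?_ (ht i).le
    simp only [S, Function.iterate_zero, id, ind]
    split_ifs
    · refine le_trans ?_ (single_le_sum (f := fun i' => ∑ j, if 0 < up β i i' ∧
        mv (up β i) i' j ∈ J then (f (up β i) - f (mv (up β i) i' j)) ^ 2 else 0)
        (fun _ _ => sum_nonneg fun _ _ => by split_ifs <;> positivity) (mem_univ i))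
      refine le_trans ?_ (single_le_sum (f := fun j => if 0 < up β i i ∧
        mv (up β i) i j ∈ J then (f (up β i) - f (mv (up β i) i j)) ^ 2 else 0)
        (fun _ _ => by split_ifs <;> positivity) (mem_univ j))
      simp [mv_up, hjJ, up, c]
    · exact le_rfl
  have e3 : 2 * c * S t J f 1 β - c ^ 2 * Z t J 1 β ≤ U t J f 1 β := by
    rw [U, le_div_iff₀ hZ]
    nlinarith [sq_nonneg (S t J f 1 β - c * Z t J 1 β)]
  linarith

/-- Poincare inequality for the down-up walk -/
theorem poincare_t {t : ι → ℝ} (ht : ∀ i, 0 < t i) {J : Finset (ι → ℕ)} (hJ : Exch J)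
    (f : (ι → ℕ) → ℝ) (k : ℕ) : ∀ β,
    S t J (fun α => f α ^ 2) k β - U t J f k β ≤ k * S t J (En J f) k β := by
  have hU0 : U t J f 0 = ind J fun α => f α ^ 2 := by
    funext β
    simp only [U, S, Z, Function.iterate_zero, id, ind]
    split_ifs <;> simp
  have h1 : ∀ k β, T t (U t J f k) β - U t J f (k + 1) β ≤ S t J (En J f) (k + 1) β := by
    intro k
    induction k with
    | zero => intro β; rw [hU0]; exact var_one ht J f β
    | succ k ih =>
      intro β
      have a1 := U_step ht hJ f k β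
      have a2 := T_mono ht ih 1 β
      simp only [Function.iterate_one, T_sub] at a2
      rw [S_succ]
      change _ ≤ T t (S t J (En J f) (k + 1)) β
      linarith
  induction k with
  | zero => intro β; rw [hU0]; simp [S]
  | succ k ih =>
    intro β
    have a1 := h1 k β
    have a2 := T_mono ht ih 1 β
    simp only [Function.iterate_one, T_sub] at a2
    have a3 : T t (fun α => k * S t J (En J f) k α) β = k * S t J (En J f) (k + 1) β := by
      simp only [T, S_succ, mul_sum]
      exact sum_congr rfl fun i _ => by ring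
    rw [a3] at a2
    have a4 : S t J (fun α => f α ^ 2) (k + 1) β = T t (S t J (fun α => f α ^ 2) k) β :=
      S_succ _ _ _ _ _
    push_cast
    linarith

/-- the weight of `α` -/
noncomputable def wt (r : ℕ) (t : ι → ℝ) (α : ι → ℕ) : ℝ :=
  r.factorial * ∏ i, t i ^ α i / (α i).factorial

lemma T_delta_zero (t : ι → ℝ) (α : ι → ℕ) (i : ι) (k : ℕ) : ∀ β : ι → ℕ, α i < β i →
    (T t)^[k] (fun γ => if γ = α then 1 else 0) β = 0 := by
  induction k with
  | zero =>
    intro β h
    have : β ≠ α := by rintro rfl; omega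
    simp [this]
  | succ k ih =>
    intro β h
    simp only [Function.iterate_succ_apply', T]
    refine sum_eq_zero fun j _ => ?_
    rw [ih, mul_zero]
    simp only [up]; split_ifs <;> omega

lemma T_delta (t : ι → ℝ) (α : ι → ℕ) (k : ℕ) : ∀ β γ : ι → ℕ, (∀ i, β i + γ i = α i) →
    ∑ i, γ i = k → (T t)^[k] (fun γ => if γ = α then 1 else 0) β = wt k t γ := by
  induction k with
  | zero =>
    intro β γ h1 h2
    have h3 : ∀ i, γ i = 0 := fun i => sum_eq_zero_iff.1 h2 i (mem_univ i)
    have : β = α := funext fun i => by have := h1 i; have := h3 i; omega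
    simp [this, wt, h3]
  | succ k ih =>
    intro β γ h1 h2
    simp only [Function.iterate_succ_apply', T]
    have e : ∀ i, t i * (T t)^[k] (fun γ => if γ = α then 1 else 0) (up β i) =
        γ i * (k.factorial * ∏ i, t i ^ γ i / (γ i).factorial) := by
      intro i
      rcases Nat.eq_zero_or_pos (γ i) with h | h
      · rw [T_delta_zero t α i k _ (by have := h1 i; simp only [up, if_true]; omega), h]; simp
      · obtain ⟨c, hc⟩ : ∃ c, γ i = c + 1 := ⟨γ i - 1, by omega⟩
        rw [ih (up β i) (Function.update γ i c) (fun a => by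
          have := h1 a
          by_cases ha : a = i
          · subst ha; simp [up]; omega
          · simp [up, ha, this]) (by
          rw [sum_update_of_mem (mem_univ i)]
          rw [← add_sum_erase _ _ (mem_univ i)] at h2
          rw [sdiff_singleton_eq_erase]; omega), wt, ← mul_prod_erase _ _ (mem_univ i),
          ← mul_prod_erase _ (fun i => t i ^ γ i / ((γ i).factorial : ℝ)) (mem_univ i)]
        rw [prod_congr rfl fun a ha => by rw [Function.update_of_ne (ne_of_mem_erase ha)]]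
        simp only [Function.update_self, hc, Nat.factorial_succ]
        push_cast
        field_simp
        ring
    simp only [e, ← sum_mul]
    rw [← Nat.cast_sum, h2, wt, Nat.factorial_succ]
    push_cast
    ring

lemma S_explicit (t : ι → ℝ) {J : Finset (ι → ℕ)} {r : ℕ} (hr : ∀ α ∈ J, ∑ i, α i = r)
    (f : (ι → ℕ) → ℝ) : S t J f r 0 = ∑ α ∈ J, wt r t α * f α := by
  have lin : ∀ k β, (T t)^[k] (fun γ => ∑ α ∈ J, (if γ = α then 1 else 0) * f α) β =
      ∑ α ∈ J, (T t)^[k] (fun γ => if γ = α then 1 else 0) β * f α := by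
    intro k
    induction k with
    | zero => intro β; rfl
    | succ k ih =>
      intro β
      simp only [Function.iterate_succ_apply', T, ih, mul_sum, sum_mul]
      rw [sum_comm]
      exact sum_congr rfl fun _ _ => sum_congr rfl fun _ _ => by ring
  have e : ind J f = fun γ => ∑ α ∈ J, (if γ = α then 1 else 0) * f α := by
    funext γ
    simp [ind]
  rw [S, e, lin]
  exact sum_congr rfl fun α hα => by rw [T_delta t α r 0 α (by simp) (hr α hα)]

lemma Z_deriv (x v : ι → ℝ) (G : (ι → ℕ) → ℝ) (s : ℝ) (k : ℕ) : ∀ β,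
    HasDerivAt (fun s => (T fun i => x i + s * v i)^[k + 1] G β)
      ((k + 1) * ∑ i, v i * (T fun i => x i + s * v i)^[k] G (up β i)) s := by
  have hx : ∀ i, HasDerivAt (fun s => x i + s * v i) (v i) s := fun i => by
    simpa using ((hasDerivAt_id s).mul_const (v i)).const_add (x i)
  induction k with
  | zero =>
    intro β
    simp only [zero_add, Function.iterate_one, T, Function.iterate_zero, id, Nat.cast_zero, one_mul]
    exact HasDerivAt.fun_sum fun i _ => (hx i).mul_const _
  | succ k ih =>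
    intro β
    simp only [Function.iterate_succ_apply' (n := k + 1), T]
    refine (HasDerivAt.fun_sum fun i _ => (hx i).fun_mul (ih (up β i))).congr_deriv ?_
    simp only [sum_add_distrib]
    have : ∑ i, (x i + s * v i) * ((k + 1 : ℝ) * ∑ j, v j * (T fun i => x i + s * v i)^[k] G
        (up (up β i) j)) = (k + 1) * ∑ j, v j * (T fun i => x i + s * v i)^[k + 1] G (up β j) := by
      simp only [Function.iterate_succ_apply', T, mul_sum]
      rw [sum_comm]
      refine sum_congr rfl fun i _ => sum_congr rfl fun j _ => ?_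
      rw [up_comm]; ring
    rw [this]
    push_cast
    ring

/-- midpoint log-concavity -/
theorem logconc {J : Finset (ι → ℕ)} (hJ : Exch J) (k : ℕ) (β : ι → ℕ) {x y : ι → ℝ}
    (hx : ∀ i, 0 < x i) (hy : ∀ i, 0 < y i) :
    Z x J k β * Z y J k β ≤ Z (fun i => (x i + y i) / 2) J k β ^ 2 := by
  rcases (Z_nonneg hx J k β).lt_or_eq with hZ | hZ
  swap
  · rw [← hZ, zero_mul]; exact sq_nonneg _
  rcases k with _ | k
  · simp only [Z, Function.iterate_zero, id, sq, le_refl]
  set v : ι → ℝ := fun i => y i - x i with hv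
  set p : ℝ → ι → ℝ := fun s i => x i + s * v i with hp
  have hpos : ∀ s ∈ Set.Icc (0 : ℝ) 1, ∀ i, 0 < p s i := by
    intro s hs i
    have := hx i
    have := hy i
    simp only [hp, hv]
    rcases hs.1.lt_or_eq with h | h
    · nlinarith [hs.2]
    · rw [← h]; linarith
  have hφ : ∀ s ∈ Set.Icc (0 : ℝ) 1, 0 < Z (p s) J (k + 1) β := fun s hs =>
    (Z_pos_iff (hpos s hs) J _ β).2 ((Z_pos_iff hx J _ β).1 hZ)
  set A : ℝ → ℝ := fun s => ∑ i, v i * Z (p s) J k (up β i) with hA
  have d1 : ∀ s, HasDerivAt (fun s => Z (p s) J (k + 1) β) ((k + 1) * A s) s := fun s =>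
    Z_deriv x v _ s k β
  have d2 : ∀ s ∈ Set.Icc (0 : ℝ) 1, ∃ B, HasDerivAt A B s ∧
      B * Z (p s) J (k + 1) β ≤ (k + 1) * A s ^ 2 := by
    intro s hs
    rcases k with _ | k
    · refine ⟨0, ?_, by rw [zero_mul]; positivity⟩
      simp only [hA, Z, Function.iterate_zero, id]
      exact hasDerivAt_const _ _
    · refine ⟨_, HasDerivAt.fun_sum fun i _ => (Z_deriv x v _ s k (up β i)).const_mul (v i), ?_⟩
      have h1 := rcs (hpos s hs) hJ k β fun i => v i / p s i
      rw [KK_one_one, KK_one] at h1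
      have e1 : ∑ i, p s i * Z (p s) J (k + 1) (up β i) * (v i / p s i) = A s :=
        sum_congr rfl fun i _ => by have := (hpos s hs i).ne'; field_simp
      have e2 : ∑ i, v i * ((k + 1 : ℝ) * ∑ j, v j * (T fun i => x i + s * v i)^[k] (ind J 1)
          (up (up β i) j)) = (k + 1) * bil (KK (p s) J k β) (fun i => v i / p s i)
            fun i => v i / p s i := by
        simp only [bil, KK, mul_sum]
        refine sum_congr rfl fun i _ => sum_congr rfl fun j _ => ?_
        have := (hpos s hs i).ne'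
        have := (hpos s hs j).ne'
        change v i * ((k + 1 : ℝ) * (v j * Z (p s) J k (up (up β i) j))) = _
        field_simp
      rw [e2]
      rw [e1] at h1
      have h2 : (0 : ℝ) ≤ k + 1 := by positivity
      have := mul_le_mul_of_nonneg_left h1 h2
      push_cast
      nlinarith [sq_nonneg (A s)]
  have d3 : ∀ s ∈ Set.Icc (0 : ℝ) 1, HasDerivAt (fun s => Real.log (Z (p s) J (k + 1) β))
      ((k + 1) * A s / Z (p s) J (k + 1) β) s := fun s hs => (d1 s).log (hφ s hs).ne'
  choose! B hB hB' using d2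
  have hc : ConcaveOn ℝ (Set.Icc (0 : ℝ) 1) fun s => Real.log (Z (p s) J (k + 1) β) := by
    refine concaveOn_of_hasDerivWithinAt2_nonpos (convex_Icc 0 1)
      (f' := fun s => (k + 1) * A s / Z (p s) J (k + 1) β)
      (f'' := fun s => ((k + 1) * B s * Z (p s) J (k + 1) β - (k + 1) * A s * ((k + 1) * A s)) /
        Z (p s) J (k + 1) β ^ 2)
      (fun s hs => (d3 s hs).continuousAt.continuousWithinAt)
      (fun s hs => (d3 s (interior_subset hs)).hasDerivWithinAt)
      (fun s hs => (((hB s (interior_subset hs)).const_mul _).fun_div (d1 s)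
        (hφ s (interior_subset hs)).ne').hasDerivWithinAt) fun s hs => ?_
    refine div_nonpos_of_nonpos_of_nonneg ?_ (sq_nonneg _)
    have h2 : (0 : ℝ) ≤ k + 1 := by positivity
    have := mul_le_mul_of_nonneg_left (hB' s (interior_subset hs)) h2
    nlinarith
  have h1 := hc.2 (show (0 : ℝ) ∈ Set.Icc (0 : ℝ) 1 by simp)
    (show (1 : ℝ) ∈ Set.Icc (0 : ℝ) 1 by simp) (show (0 : ℝ) ≤ 1 / 2 by norm_num)
    (show (0 : ℝ) ≤ 1 / 2 by norm_num) (by norm_num)
  have e0 : p 0 = x := by funext i; simp [hp]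
  have e1 : p 1 = y := by funext i; simp [hp, hv]
  have e2 : p (1 / 2) = fun i => (x i + y i) / 2 := by funext i; simp only [hp, hv]; ring
  have q0 := hφ 0 (by simp)
  have q1 := hφ 1 (by simp)
  have q2 := hφ (1 / 2) (by norm_num)
  simp only [smul_eq_mul, mul_zero, mul_one, zero_add] at h1
  rw [e0] at q0 h1
  rw [e1] at q1 h1
  rw [e2] at q2 h1
  rw [← Real.log_le_log_iff (mul_pos q0 q1) (pow_pos q2 2), Real.log_mul q0.ne' q1.ne',
    Real.log_pow]
  push_cast
  linarith

end Pool.Agent.Lib.MP_b67cc8_lc
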