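import Pool.Agent.Lib.MP_b67cc8_lc.MConv2
import Pool.Agent.Lib.MP_229ad9_gt.PL

/-! Poincare inequality for strongly log-concave densities and one-dimensional weights. -/

namespace Pool.Agent.Lib.MP_b67cc8_lc

open Finset MeasureTheory

variable {ι : Type} [Fintype ι]

lemma pl_real {F G H : (ι → ℝ) → ℝ} (hF : Measurable F) (hG : Measurable G) (hH : Measurable H)
    (F0 : ∀ x, 0 ≤ F x) (G0 : ∀ x, 0 ≤ G x) (H0 : ∀ x, 0 ≤ H x) (Hi : Integrable H)
    (h : ∀ x y, F x * G y ≤ H (fun i => (x i + y i) / 2) ^ 2) :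
    (∫ x, F x) * ∫ x, G x ≤ (∫ x, H x) ^ 2 := by
  set e := (Fintype.equivFin ι).symm
  have mp := volume_measurePreserving_piCongrLeft (fun _ : ι => ℝ) e
  set φ := MeasurableEquiv.piCongrLeft (fun _ : ι => ℝ) e
  have hφ : ∀ x i, φ x i = x (e.symm i) := fun x i => by
    simp [φ, MeasurableEquiv.coe_piCongrLeft, Equiv.piCongrLeft_apply_eq_cast]
  have key := MP_229ad9_gt.pl_pi _ (f := fun x => ENNReal.ofReal (F (φ x)))
    (g := fun x => ENNReal.ofReal (G (φ x))) (H := fun x => ENNReal.ofReal (H (φ x)))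
    ((hF.comp mp.measurable).ennreal_ofReal) ((hG.comp mp.measurable).ennreal_ofReal)
    ((hH.comp mp.measurable).ennreal_ofReal) fun x y => by
      rw [← ENNReal.ofReal_mul (F0 _), ← ENNReal.ofReal_pow (H0 _)]
      refine ENNReal.ofReal_le_ofReal ((h _ _).trans (le_of_eq ?_))
      congr 2
      funext i
      simp only [hφ]
  rw [mp.lintegral_comp hF.ennreal_ofReal, mp.lintegral_comp hG.ennreal_ofReal,
    mp.lintegral_comp hH.ennreal_ofReal] at key
  rw [integral_eq_lintegral_of_nonneg_ae (.of_forall F0) hF.aestronglyMeasurable,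
    integral_eq_lintegral_of_nonneg_ae (.of_forall G0) hG.aestronglyMeasurable,
    integral_eq_lintegral_of_nonneg_ae (.of_forall H0) hH.aestronglyMeasurable,
    ← ENNReal.toReal_mul, ← ENNReal.toReal_pow]
  exact ENNReal.toReal_mono (ENNReal.pow_ne_top Hi.lintegral_lt_top.ne) key

lemma int_mul {ρ g : (ι → ℝ) → ℝ} (hρ : Integrable ρ) (hg : Measurable g) {M : ℝ}
    (hM : ∀ x, |g x| ≤ M) : Integrable fun x => ρ x * g x :=
  hρ.mul_bdd hg.aestronglyMeasurable (.of_forall hM)

lemma tau_poincare {ρ g Γ : (ι → ℝ) → ℝ} (hρm : Measurable ρ) (hρ : Integrable ρ)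
    (ρ0 : ∀ x, 0 ≤ ρ x) (hZ : 0 < ∫ x, ρ x) {c d M : ℝ} (hc : 0 < c) (hd : 0 < d)
    (hlog : ∀ x y, ρ x * ρ y * Real.exp (c / 4 * ∑ i, (x i - y i) ^ 2) ≤
      ρ (fun i => (x i + y i) / 2) ^ 2) (hg : Measurable g) (hΓ : Measurable Γ)
    (hgM : ∀ x, |g x| ≤ M) (Γ0 : ∀ x, 0 ≤ Γ x) (hΓM : ∀ x, Γ x ≤ M)
    (hlip : ∀ x y, 0 < ρ x → 0 < ρ y → ∑ i, (x i - y i) ^ 2 ≤ d →
      (g x - g y) ^ 2 ≤ c * (∑ i, (x i - y i) ^ 2) * Γ y)
    (hmean : ∫ x, ρ x * g x = 0) : ∫ x, ρ x * g x ^ 2 ≤ 12 * ∫ x, ρ x * Γ x := by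
  have hM : 0 ≤ M := (abs_nonneg _).trans (hgM 0)
  obtain ⟨ε, hε, hε1, hε2⟩ : ∃ ε : ℝ, 0 < ε ∧ ε * M ≤ 1 ∧ ε * (2 * M) ≤ c / 4 * d := by
    refine ⟨min 1 (c / 8 * d) / (M + 1), by positivity, ?_, ?_⟩
    · rw [div_mul_eq_mul_div, div_le_one (by positivity)]
      nlinarith [min_le_left 1 (c / 8 * d), lt_min one_pos (show 0 < c / 8 * d by positivity)]
    · rw [div_mul_eq_mul_div, div_le_iff₀ (by positivity)]
      nlinarith [min_le_right 1 (c / 8 * d), lt_min one_pos (show 0 < c / 8 * d by positivity),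
        show 0 < c / 8 * d by positivity]
  have hb : ∀ x, |ε * g x| ≤ 1 := fun x => by
    rw [abs_mul, abs_of_pos hε]
    exact (mul_le_mul_of_nonneg_left (hgM x) hε.le).trans hε1
  have hexp : ∀ x, Real.exp (ε * g x) ≤ 3 := fun x =>
    (Real.exp_le_exp.2 (abs_le.1 (hb x)).2).trans (Real.exp_one_lt_d9.le.trans (by norm_num))
  have key := pl_real (F := fun y => ρ y * Real.exp (ε * g y - ε ^ 2 * Γ y))
    (G := fun x => ρ x * Real.exp (-(ε * g x))) (H := ρ) (by fun_prop) (by fun_prop) hρm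
    (fun x => mul_nonneg (ρ0 x) (Real.exp_pos _).le) (fun x => mul_nonneg (ρ0 x) (Real.exp_pos _).le)
    ρ0 hρ fun y x => by
      rcases (ρ0 x).lt_or_eq with hx | hx
      swap
      · simp only [← hx, zero_mul, mul_zero]; exact sq_nonneg _
      rcases (ρ0 y).lt_or_eq with hy | hy
      swap
      · simp only [← hy, zero_mul]; exact sq_nonneg _
      refine le_trans ?_ (hlog y x)
      have e : ∑ i, (y i - x i) ^ 2 = ∑ i, (x i - y i) ^ 2 := sum_congr rfl fun i _ => by ring
      rw [e, mul_mul_mul_comm, ← Real.exp_add]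
      refine mul_le_mul_of_nonneg_left (Real.exp_le_exp.2 ?_) (mul_pos hy hx).le
      set D := ∑ i, (x i - y i) ^ 2
      have hD : 0 ≤ D := sum_nonneg fun i _ => sq_nonneg _
      have hA : 0 ≤ ε ^ 2 * Γ y := mul_nonneg (sq_nonneg _) (Γ0 y)
      by_cases hDd : D ≤ d
      · have h1 := mul_le_mul_of_nonneg_left (hlip x y hx hy hDd) (sq_nonneg ε)
        have h2 : ε * g y - ε * g x ≤ c / 4 * D + ε ^ 2 * Γ y := by
          refine le_trans (le_abs_self _) (abs_le_of_sq_le_sq ?_ (by positivity))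
          nlinarith [sq_nonneg (c / 4 * D - ε ^ 2 * Γ y)]
        linarith
      · have h1 := abs_le.1 (hgM x)
        have h2 := abs_le.1 (hgM y)
        have h3 : c / 4 * d ≤ c / 4 * D := by gcongr; exact (not_le.1 hDd).le
        nlinarith
  have i1 := int_mul hρ hg hgM
  have i2 : Integrable fun x => ρ x * g x ^ 2 :=
    int_mul hρ (by fun_prop) (M := M ^ 2) fun x => by
      rw [abs_pow]; exact pow_le_pow_left₀ (abs_nonneg _) (hgM x) 2
  have i3 := int_mul hρ hΓ (M := M) fun x => by rw [abs_of_nonneg (Γ0 x)]; exact hΓM x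
  have b1 : ∫ x, ρ x ≤ ∫ x, ρ x * Real.exp (-(ε * g x)) := by
    have : ∫ x, ρ x = ∫ x, (ρ x - ε * (ρ x * g x)) := by
      rw [integral_sub hρ (i1.const_mul ε), integral_const_mul, hmean]; ring
    rw [this]
    refine integral_mono (hρ.sub (i1.const_mul ε)) (int_mul hρ (by fun_prop) (M := 3) fun x => ?_)
      fun x => ?_
    · rw [abs_of_pos (Real.exp_pos _)]
      exact (Real.exp_le_exp.2 (by linarith [(abs_le.1 (hb x)).1])).trans
        (Real.exp_one_lt_d9.le.trans (by norm_num))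
    · have := mul_le_mul_of_nonneg_left (Real.add_one_le_exp (-(ε * g x))) (ρ0 x)
      simp only
      linarith
  have b2 : (∫ x, ρ x) + ε ^ 2 * ((∫ x, ρ x * g x ^ 2) / 4 - 3 * ∫ x, ρ x * Γ x) ≤
      ∫ y, ρ y * Real.exp (ε * g y - ε ^ 2 * Γ y) := by
    have : (∫ x, ρ x) + ε ^ 2 * ((∫ x, ρ x * g x ^ 2) / 4 - 3 * ∫ x, ρ x * Γ x) =
        ∫ x, (ρ x + ε * (ρ x * g x) + ε ^ 2 / 4 * (ρ x * g x ^ 2) - 3 * ε ^ 2 * (ρ x * Γ x)) := by
      have j1 : Integrable fun x => ρ x + ε * (ρ x * g x) := hρ.add (i1.const_mul ε)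
      have j2 : Integrable fun x => ρ x + ε * (ρ x * g x) + ε ^ 2 / 4 * (ρ x * g x ^ 2) :=
        j1.add (i2.const_mul _)
      rw [integral_sub j2 (i3.const_mul _),
        integral_add j1 (i2.const_mul _), integral_add hρ (i1.const_mul ε),
        integral_const_mul, integral_const_mul, integral_const_mul, hmean]
      ring
    rw [this]
    refine integral_mono (((hρ.add (i1.const_mul ε)).add (i2.const_mul _)).sub (i3.const_mul _))
      (int_mul hρ (by fun_prop) (M := 3) fun x => ?_) fun x => ?_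
    · rw [abs_of_pos (Real.exp_pos _)]
      exact (Real.exp_le_exp.2 (by nlinarith [Γ0 x, sq_nonneg ε])).trans (hexp x)
    · have a1 : (1 + ε * g x / 2) ^ 2 ≤ Real.exp (ε * g x) := by
        have : Real.exp (ε * g x) = Real.exp (ε * g x / 2) ^ 2 := by
          rw [sq, ← Real.exp_add]; congr 1; ring
        rw [this]
        refine pow_le_pow_left₀ (by linarith [(abs_le.1 (hb x)).1]) ?_ 2
        linarith [Real.add_one_le_exp (ε * g x / 2)]
      have a2 := Real.add_one_le_exp (-(ε ^ 2 * Γ x))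
      have a3 : 0 ≤ ε ^ 2 * Γ x := mul_nonneg (sq_nonneg _) (Γ0 x)
      have a4 : 1 + ε * g x + ε ^ 2 / 4 * g x ^ 2 - 3 * ε ^ 2 * Γ x ≤
          Real.exp (ε * g x - ε ^ 2 * Γ x) := by
        rw [sub_eq_add_neg (ε * g x), Real.exp_add]
        have := mul_le_mul_of_nonneg_left a2 (Real.exp_pos (ε * g x)).le
        have := mul_le_mul_of_nonneg_right (hexp x) a3
        nlinarith
      have := mul_le_mul_of_nonneg_left a4 (ρ0 x)
      simp only
      linarith
  by_contra hcon
  push Not at hcon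
  have a1 : 0 < ε ^ 2 * ((∫ x, ρ x * g x ^ 2) / 4 - 3 * ∫ x, ρ x * Γ x) :=
    mul_pos (by positivity) (by linarith)
  have a2 : (∫ x, ρ x) < ∫ y, ρ y * Real.exp (ε * g y - ε ^ 2 * Γ y) := by linarith
  have a3 := mul_lt_mul a2 b1 hZ (hZ.trans a2).le
  nlinarith

/-- the one-dimensional mixing density -/
noncomputable def om (δ c s : ℝ) : ℝ := if δ ≤ s then Real.exp (-s - c / 2 * s ^ 2) else 0

lemma om_meas (δ c : ℝ) : Measurable (om δ c) :=
  Measurable.ite measurableSet_Ici (by fun_prop) measurable_const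

lemma om_nonneg (δ c s : ℝ) : 0 ≤ om δ c s := by
  unfold om; split_ifs; exacts [(Real.exp_pos _).le, le_rfl]

lemma gam (a : ℕ) : Integrable ((Set.Ioi (0 : ℝ)).indicator fun s => Real.exp (-s) * s ^ a) ∧
    ∫ s, (Set.Ioi (0 : ℝ)).indicator (fun s => Real.exp (-s) * s ^ a) s = a.factorial := by
  have h1 := Real.GammaIntegral_convergent (s := a + 1) (by positivity)
  have h2 := Real.Gamma_eq_integral (s := a + 1) (by positivity)
  simp only [add_sub_cancel_right, Real.rpow_natCast] at h1 h2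
  rw [integrable_indicator_iff measurableSet_Ioi, integral_indicator measurableSet_Ioi, ← h2,
    Real.Gamma_nat_eq_factorial]
  exact ⟨h1, rfl⟩

lemma om_int {δ c : ℝ} (hδ : 0 < δ) (hδ1 : δ ≤ 1) (hc : 0 ≤ c) (a : ℕ) :
    Integrable (fun s => om δ c s * (s ^ a / a.factorial)) ∧
      ∫ s, om δ c s * (s ^ a / a.factorial) ≤ 1 ∧
      1 - δ - c / 2 * ((a + 1) * (a + 2)) ≤ ∫ s, om δ c s * (s ^ a / a.factorial) := by
  have hf : (0 : ℝ) < a.factorial := by positivity
  have hf1 : (1 : ℝ) ≤ a.factorial := by exact_mod_cast a.factorial_pos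
  obtain ⟨g1, g2⟩ := gam a
  obtain ⟨g3, g4⟩ := gam (a + 2)
  have n0 : ∀ s, 0 ≤ om δ c s * (s ^ a / a.factorial) := fun s => by
    unfold om
    split_ifs with h
    · have := hδ.trans_le h; positivity
    · simp
  have up1 : ∀ s, om δ c s * (s ^ a / a.factorial) ≤
      (Set.Ioi (0 : ℝ)).indicator (fun s => Real.exp (-s) * s ^ a) s / a.factorial := fun s => by
    unfold om
    split_ifs with h
    · have hs := hδ.trans_le h
      rw [Set.indicator_of_mem (show s ∈ Set.Ioi 0 from hs), mul_div_assoc]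
      gcongr
      nlinarith [mul_nonneg hc (sq_nonneg s)]
    · rw [zero_mul]
      exact div_nonneg (Set.indicator_nonneg (fun s (hs : 0 < s) => by positivity) s) hf.le
  have i1 : Integrable fun s => om δ c s * (s ^ a / a.factorial) :=
    (g1.div_const (a.factorial : ℝ)).mono' ((om_meas δ c).mul (by fun_prop)).aestronglyMeasurable
      (.of_forall fun s => by rw [Real.norm_eq_abs, abs_of_nonneg (n0 s)]; exact up1 s)
  refine ⟨i1, ?_, ?_⟩
  · refine (integral_mono i1 (g1.div_const _) up1).trans (le_of_eq ?_)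
    rw [integral_div, g2, div_self hf.ne']
  · have i2 : Integrable ((Set.Ioo (0 : ℝ) δ).indicator fun _ => (1 : ℝ)) :=
      (integrable_indicator_iff measurableSet_Ioo).2 (integrableOn_const (by simp))
    have e : 1 - δ - c / 2 * ((a + 1) * (a + 2)) =
        ∫ s, ((Set.Ioi (0 : ℝ)).indicator (fun s => Real.exp (-s) * s ^ a) s / a.factorial -
          (Set.Ioo (0 : ℝ) δ).indicator (fun _ => (1 : ℝ)) s - c / 2 / a.factorial *
          (Set.Ioi (0 : ℝ)).indicator (fun s => Real.exp (-s) * s ^ (a + 2)) s) := by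
      have j1 : Integrable fun s => (Set.Ioi (0 : ℝ)).indicator (fun s => Real.exp (-s) * s ^ a) s /
          a.factorial - (Set.Ioo (0 : ℝ) δ).indicator (fun _ => (1 : ℝ)) s := (g1.div_const _).sub i2
      rw [integral_sub j1 (g3.const_mul _), integral_sub (g1.div_const _) i2,
        integral_div, integral_const_mul, g2, g4, integral_indicator measurableSet_Ioo]
      simp only [Nat.factorial_succ, setIntegral_const, smul_eq_mul, mul_one,
        Real.volume_real_Ioo_of_le hδ.le]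
      push_cast
      field_simp
      ring
    rw [e]
    refine integral_mono (((g1.div_const _).sub i2).sub (g3.const_mul _)) i1 fun s => ?_
    by_cases hs : 0 < s
    · simp only [Set.indicator_of_mem (show s ∈ Set.Ioi 0 from hs)]
      have p1 : 0 ≤ c / 2 / a.factorial * (Real.exp (-s) * s ^ (a + 2)) := by positivity
      unfold om
      split_ifs with h
      · rw [Set.indicator_of_notMem (fun h' => absurd h'.2 (not_lt.2 h)), sub_eq_add_neg (-s),
          Real.exp_add]
        have p2 := mul_le_mul_of_nonneg_left (Real.add_one_le_exp (-(c / 2 * s ^ 2)))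
          (show 0 ≤ Real.exp (-s) * (s ^ a / a.factorial) by positivity)
        have p3 : c / 2 / a.factorial * (Real.exp (-s) * s ^ (a + 2)) =
            Real.exp (-s) * (s ^ a / a.factorial) * (c / 2 * s ^ 2) := by ring
        rw [p3, mul_div_assoc]
        nlinarith
      · rw [Set.indicator_of_mem (show s ∈ Set.Ioo 0 δ from ⟨hs, not_le.1 h⟩)]
        have p2 : Real.exp (-s) * s ^ a / a.factorial ≤ 1 := by
          rw [div_le_one hf]
          refine le_trans (mul_le_one₀ (Real.exp_le_one_iff.2 (by linarith)) (by positivity)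
            (pow_le_one₀ hs.le (by linarith [not_le.1 h]))) hf1
        linarith
    · simp only [Set.indicator_of_notMem (show s ∉ Set.Ioi 0 from hs),
        Set.indicator_of_notMem (show s ∉ Set.Ioo 0 δ from fun h => hs h.1)]
      simpa using n0 s

end Pool.Agent.Lib.MP_b67cc8_lc
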