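import Pool.Agent.Lib.MP_b67cc8_lc.Mix

/-! Poincare inequality for the exchange walk on an M-convex set with the uniform measure. -/

namespace Pool.Agent.Lib.MP_b67cc8_lc

open Finset MeasureTheory

variable {ι : Type} [Fintype ι]

lemma wt_pos {t : ι → ℝ} (ht : ∀ i, 0 < t i) (r : ℕ) (α : ι → ℕ) : 0 < wt r t α :=
  mul_pos (by positivity) (prod_pos fun i _ => by have := ht i; positivity)

lemma wt_ratio {x y : ι → ℝ} {η : ℝ} (hy : ∀ i, 0 < y i) (hη : 0 ≤ η) {r : ℕ}
    (hr : (r + 1) * η ≤ 1 / 2) (h : ∀ i, |x i - y i| ≤ η * y i) {α : ι → ℕ} (hα : ∑ i, α i = r) :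
    (1 - r * η) * wt r y α ≤ wt r x α ∧ wt r x α ≤ (1 + 2 * (r * η)) * wt r y α := by
  have hr0 : (0 : ℝ) ≤ r * η := by positivity
  have hη1 : η ≤ 1 / 2 := by nlinarith
  have key : ∀ s : ℝ, wt r (fun i => s * y i) α = s ^ r * wt r y α := fun s => by
    simp only [wt, mul_pow, mul_div_assoc, prod_mul_distrib, prod_pow_eq_pow_sum, hα]
    ring
  have mono : ∀ u v : ι → ℝ, (∀ i, 0 ≤ u i) → (∀ i, u i ≤ v i) → wt r u α ≤ wt r v α :=
    fun u v h0 h1 => by
      unfold wt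
      gcongr with i
      · intro i _; have := h0 i; positivity
      · exact h0 i
      · exact h1 i
  have l1 : ∀ i, 0 ≤ (1 - η) * y i := fun i => mul_nonneg (by linarith) (hy i).le
  have l2 : ∀ i, (1 - η) * y i ≤ x i := fun i => by linarith [(abs_le.1 (h i)).1]
  have hw := (wt_pos hy r α).le
  constructor
  · refine le_trans ?_ (mono _ _ l1 l2)
    rw [key]
    have := one_add_mul_le_pow (show (-2 : ℝ) ≤ -η by linarith) r
    exact mul_le_mul_of_nonneg_right (by rw [sub_eq_add_neg 1 η]; linarith) hw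
  · refine (mono _ (fun i => (1 + η) * y i) (fun i => (l1 i).trans (l2 i))
      fun i => by linarith [(abs_le.1 (h i)).2]).trans ?_
    rw [key]
    refine mul_le_mul_of_nonneg_right ?_ hw
    have a1 : (1 + η) ^ r ≤ Real.exp (r * η) := by
      rw [Real.exp_nat_mul]
      exact pow_le_pow_left₀ (by linarith) (by linarith [Real.add_one_le_exp η]) r
    have a2 := Real.abs_exp_sub_one_le (x := r * η) (by rw [abs_of_nonneg hr0]; nlinarith)
    rw [abs_of_nonneg hr0] at a2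
    linarith [(abs_le.1 a2).2]

/-- normalisation, mean and variance of the tilted measures -/
noncomputable def ZZ (J : Finset (ι → ℕ)) (r : ℕ) (t : ι → ℝ) : ℝ := ∑ α ∈ J, wt r t α

noncomputable def mean (J : Finset (ι → ℕ)) (r : ℕ) (f : (ι → ℕ) → ℝ) (t : ι → ℝ) : ℝ :=
  (∑ α ∈ J, wt r t α * f α) / ZZ J r t

noncomputable def vari (J : Finset (ι → ℕ)) (r : ℕ) (f : (ι → ℕ) → ℝ) (t : ι → ℝ) : ℝ :=
  (∑ α ∈ J, wt r t α * (f α - mean J r f t) ^ 2) / ZZ J r t

section
variable {J : Finset (ι → ℕ)} {r : ℕ} {f : (ι → ℕ) → ℝ}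

lemma ZZ_pos (hne : J.Nonempty) {t : ι → ℝ} (ht : ∀ i, 0 < t i) : 0 < ZZ J r t :=
  sum_pos (fun α _ => wt_pos ht r α) hne

lemma dev_sum (hne : J.Nonempty) {t : ι → ℝ} (ht : ∀ i, 0 < t i) (m : ℝ) :
    ∑ α ∈ J, wt r t α * (f α - m) = ZZ J r t * (mean J r f t - m) := by
  have := (ZZ_pos (r := r) hne ht).ne'
  simp only [mul_sub, sum_sub_distrib, ← sum_mul, mean]
  rw [mul_div_cancel₀ _ this]
  rfl

lemma dev_sq (hne : J.Nonempty) {t : ι → ℝ} (ht : ∀ i, 0 < t i) (m : ℝ) :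
    ∑ α ∈ J, wt r t α * (f α - m) ^ 2 = ZZ J r t * (vari J r f t + (mean J r f t - m) ^ 2) := by
  have h0 := (ZZ_pos (r := r) hne ht).ne'
  have h1 := dev_sum (r := r) (f := f) hne ht (mean J r f t)
  have e : ∀ α, wt r t α * (f α - m) ^ 2 = wt r t α * (f α - mean J r f t) ^ 2 +
      2 * (mean J r f t - m) * (wt r t α * (f α - mean J r f t)) +
      (mean J r f t - m) ^ 2 * wt r t α := fun α => by ring
  simp only [e, sum_add_distrib, ← mul_sum, h1, vari]
  rw [mul_add, mul_div_cancel₀ _ h0]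
  simp only [ZZ]
  ring

lemma mean_bd (hne : J.Nonempty) {t : ι → ℝ} (ht : ∀ i, 0 < t i) {M : ℝ}
    (hM : ∀ α ∈ J, |f α| ≤ M) : |mean J r f t| ≤ M := by
  have h0 := ZZ_pos (r := r) hne ht
  rw [mean, abs_div, abs_of_pos h0, div_le_iff₀ h0, ZZ, mul_sum]
  refine (abs_sum_le_sum_abs _ _).trans (sum_le_sum fun α hα => ?_)
  rw [abs_mul, abs_of_pos (wt_pos ht r α), mul_comm]
  exact mul_le_mul_of_nonneg_right (hM α hα) (wt_pos ht r α).le

lemma vari_nonneg (hne : J.Nonempty) {t : ι → ℝ} (ht : ∀ i, 0 < t i) : 0 ≤ vari J r f t :=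
  div_nonneg (sum_nonneg fun α _ => mul_nonneg (wt_pos ht r α).le (sq_nonneg _))
    (ZZ_pos hne ht).le

lemma vari_bd (hne : J.Nonempty) {t : ι → ℝ} (ht : ∀ i, 0 < t i) {M : ℝ}
    (hM : ∀ α ∈ J, |f α| ≤ M) : vari J r f t ≤ M ^ 2 := by
  have h0 := ZZ_pos (r := r) hne ht
  have h1 := dev_sq (r := r) (f := f) hne ht 0
  have h2 : ∑ α ∈ J, wt r t α * (f α - 0) ^ 2 ≤ ZZ J r t * M ^ 2 := by
    rw [ZZ, sum_mul]
    refine sum_le_sum fun α hα => mul_le_mul_of_nonneg_left ?_ (wt_pos ht r α).le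
    rw [sub_zero, ← sq_abs]
    exact pow_le_pow_left₀ (abs_nonneg _) (hM α hα) 2
  rw [h1] at h2
  have := le_of_mul_le_mul_left h2 h0
  nlinarith [sq_nonneg (mean J r f t - 0)]

lemma mean_lip (hne : J.Nonempty) (hr : ∀ α ∈ J, ∑ i, α i = r) {δ : ℝ} (hδ : 0 < δ) {x y : ι → ℝ}
    (hx : ∀ i, δ ≤ x i) (hy : ∀ i, δ ≤ y i)
    (hD : ∑ i, (x i - y i) ^ 2 ≤ (δ / (2 * (r + 1))) ^ 2) :
    (mean J r f x - mean J r f y) ^ 2 ≤
      16 * r ^ 2 / δ ^ 2 * (∑ i, (x i - y i) ^ 2) * vari J r f y := by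
  have hx' : ∀ i, 0 < x i := fun i => hδ.trans_le (hx i)
  have hy' : ∀ i, 0 < y i := fun i => hδ.trans_le (hy i)
  set D := ∑ i, (x i - y i) ^ 2 with hDd
  have hD0 : 0 ≤ D := sum_nonneg fun i _ => sq_nonneg _
  set η := Real.sqrt D / δ with hη
  have hη0 : 0 ≤ η := by positivity
  have hη2 : η ^ 2 = D / δ ^ 2 := by rw [hη, div_pow, Real.sq_sqrt hD0]
  have h1 : (r + 1) * η ≤ 1 / 2 := by
    have : Real.sqrt D ≤ δ / (2 * (r + 1)) := Real.sqrt_le_iff.2 ⟨by positivity, hD⟩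
    rw [le_div_iff₀ (by positivity)] at this
    rw [hη, ← mul_div_assoc, div_le_iff₀ hδ]
    linarith
  have h2 : ∀ i, |x i - y i| ≤ η * y i := fun i => by
    have a1 : |x i - y i| ≤ Real.sqrt D := Real.abs_le_sqrt
      (single_le_sum (f := fun i => (x i - y i) ^ 2) (fun i _ => sq_nonneg _) (mem_univ i))
    have a2 : Real.sqrt D = η * δ := by rw [hη]; field_simp
    exact a1.trans (a2 ▸ mul_le_mul_of_nonneg_left (hy i) hη0)
  have h3 := fun α hα => wt_ratio hy' hη0 h1 h2 (hr α hα)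
  have zx := ZZ_pos (r := r) hne hx'
  have zy := ZZ_pos (r := r) hne hy'
  have hr0 : (0 : ℝ) ≤ r * η := by positivity
  have h4 : ZZ J r y ≤ 2 * ZZ J r x := by
    simp only [ZZ, mul_sum]
    refine sum_le_sum fun α hα => ?_
    have := (h3 α hα).1
    have := wt_pos hy' r α
    nlinarith
  set m := mean J r f y
  have h5 : ZZ J r x * (mean J r f x - m) = ∑ α ∈ J, (wt r x α - wt r y α) * (f α - m) := by
    simp only [sub_mul, sum_sub_distrib, dev_sum hne hx', dev_sum hne hy', m]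
    ring
  have h6 : (∑ α ∈ J, (wt r x α - wt r y α) * (f α - m)) ^ 2 ≤
      (∑ α ∈ J, (wt r x α - wt r y α) ^ 2 / wt r y α) * ∑ α ∈ J, wt r y α * (f α - m) ^ 2 :=
    sum_sq_le_sum_mul_sum_of_sq_eq_mul J (fun α _ => div_nonneg (sq_nonneg _) (wt_pos hy' r α).le)
      (fun α _ => mul_nonneg (wt_pos hy' r α).le (sq_nonneg _)) fun α _ => by
        have := (wt_pos hy' r α).ne'
        field_simp
  have h7 : ∑ α ∈ J, (wt r x α - wt r y α) ^ 2 / wt r y α ≤ (2 * (r * η)) ^ 2 * ZZ J r y := by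
    rw [ZZ, mul_sum]
    refine sum_le_sum fun α hα => ?_
    have hw := wt_pos hy' r α
    rw [div_le_iff₀ hw]
    have : |wt r x α - wt r y α| ≤ 2 * (r * η) * wt r y α :=
      abs_le.2 ⟨by nlinarith [(h3 α hα).1, mul_nonneg hr0 hw.le], by linarith [(h3 α hα).2]⟩
    have := pow_le_pow_left₀ (abs_nonneg _) this 2
    rw [sq_abs] at this
    nlinarith
  have hV := vari_nonneg (r := r) (f := f) hne hy'
  rw [← h5, dev_sq hne hy', sub_self] at h6
  have h8 : (ZZ J r x * (mean J r f x - m)) ^ 2 ≤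
      (2 * (r * η)) ^ 2 * vari J r f y * ZZ J r y ^ 2 := by
    refine h6.trans ((mul_le_mul_of_nonneg_right h7 (by positivity)).trans (le_of_eq (by ring)))
  have h9 : ZZ J r y ^ 2 ≤ 4 * ZZ J r x ^ 2 := by nlinarith
  have h10 := h8.trans (mul_le_mul_of_nonneg_left h9 (by positivity))
  have h11 : 16 * r ^ 2 / δ ^ 2 * D = 16 * r ^ 2 * η ^ 2 := by rw [hη2]; ring
  rw [h11]
  refine le_of_mul_le_mul_left ?_ (pow_pos zx 2)
  nlinarith

variable [DecidableEq ι]

lemma ZZ_eq (hr : ∀ α ∈ J, ∑ i, α i = r) (t : ι → ℝ) : ZZ J r t = Z t J r 0 := by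
  have := S_explicit t hr 1
  simp only [Pi.one_apply, mul_one] at this
  exact this.symm

lemma vari_le (hJ : Exch J) (hne : J.Nonempty) (hr : ∀ α ∈ J, ∑ i, α i = r) {t : ι → ℝ}
    (ht : ∀ i, 0 < t i) : ZZ J r t * vari J r f t ≤ r * ∑ α ∈ J, wt r t α * En J f α := by
  have h1 := poincare_t ht hJ f r 0
  have h2 := dev_sq (r := r) (f := f) hne ht 0
  have h0 := (ZZ_pos (r := r) hne ht).ne'
  rw [U, S_explicit t hr, S_explicit t hr, S_explicit t hr, ← ZZ_eq hr] at h1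
  simp only [sub_zero] at h2
  have h3 : (∑ α ∈ J, wt r t α * f α) ^ 2 / ZZ J r t = ZZ J r t * mean J r f t ^ 2 := by
    rw [mean]; field_simp
  linarith

/-- Poincare inequality for the exchange walk -/
theorem poincare (hJ : Exch J) (hne : J.Nonempty) (hr : ∀ α ∈ J, ∑ i, α i = r)
    (f : (ι → ℕ) → ℝ) : ∃ m : ℝ, ∑ α ∈ J, (f α - m) ^ 2 ≤
      13000 * (Fintype.card ι + 1) ^ 3 * (r + 2) ^ 5 * ∑ α ∈ J, En J f α := by
  set n : ℝ := (Fintype.card ι : ℝ) with hn
  have hn0 : 0 ≤ n := Nat.cast_nonneg _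
  have hr0 : (0 : ℝ) ≤ r := Nat.cast_nonneg _
  set δ : ℝ := 1 / (4 * (n + 1)) with hδ
  set c : ℝ := 1 / (2 * (n + 1) * (r + 2) ^ 2) with hc
  have δ0 : 0 < δ := by positivity
  have δ1 : δ ≤ 1 := by rw [hδ, div_le_one (by positivity)]; linarith
  have c0 : 0 < c := by positivity
  set cl : (ι → ℝ) → ι → ℝ := fun t i => max δ (t i) with hcl
  have clp : ∀ t i, 0 < cl t i := fun t i => δ0.trans_le (le_max_left _ _)
  set Ω : (ι → ℝ) → ℝ := fun t => ∏ i, om δ c (t i) with hΩ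
  have Ω0 : ∀ t, 0 ≤ Ω t := fun t => prod_nonneg fun i _ => om_nonneg _ _ _
  have Ωs : ∀ t, Ω t ≠ 0 → ∀ i, δ ≤ t i := fun t h i => by
    by_contra hi
    exact h (prod_eq_zero (mem_univ i) (if_neg hi))
  have Ωc : ∀ t, Ω t ≠ 0 → cl t = t := fun t h => funext fun i => max_eq_right (Ωs t h i)
  have Ωe : ∀ t, (∀ i, δ ≤ t i) → Ω t = Real.exp (∑ i, (-t i - c / 2 * t i ^ 2)) := fun t h => by
    rw [Real.exp_sum]
    exact prod_congr rfl fun i _ => if_pos (h i)
  set b : (ι → ℕ) → (ι → ℝ) → ℝ := fun α t => Ω t * wt r (cl t) α with hb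
  have be : ∀ α, b α = fun t => r.factorial * ∏ i, om δ c (t i) * (t i ^ α i / (α i).factorial) := by
    intro α
    funext t
    simp only [hb, prod_mul_distrib]
    by_cases h : Ω t = 0
    · rw [h]
      change _ = _ * (Ω t * _)
      rw [h]; ring
    · rw [Ωc t h, wt]
      change _ = _ * (Ω t * _)
      ring
  have bi : ∀ α, Integrable (b α) := fun α => by
    rw [be]
    exact (Integrable.fintype_prod (f := fun i s => om δ c s * (s ^ α i / (α i).factorial))
      fun i => (om_int δ0 δ1 c0.le (α i)).1).const_mul _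
  have bW : ∀ α ∈ J, (r.factorial : ℝ) / 2 ≤ ∫ t, b α t ∧ ∫ t, b α t ≤ r.factorial := by
    intro α hα
    have hf : (0 : ℝ) < r.factorial := by positivity
    rw [be, integral_const_mul, integral_fintype_prod_volume_eq_prod
      (fun i s => om δ c s * (s ^ α i / (α i).factorial))]
    have lo : ∀ i, 1 - 1 / (2 * (n + 1)) ≤ ∫ s, om δ c s * (s ^ α i / (α i).factorial) := by
      intro i
      refine le_trans ?_ (om_int δ0 δ1 c0.le (α i)).2.2
      have a1 : (α i : ℝ) ≤ r := by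
        exact_mod_cast hr α hα ▸ single_le_sum (fun _ _ => Nat.zero_le _) (mem_univ i)
      have a2 : ((α i : ℝ) + 1) * (α i + 2) ≤ (r + 2) ^ 2 := by
        nlinarith [(Nat.cast_nonneg (α i) : (0 : ℝ) ≤ α i)]
      have a3 : c / 2 * (r + 2) ^ 2 = δ := by rw [hc, hδ]; field_simp; ring
      have a4 : 1 / (2 * (n + 1)) = 2 * δ := by rw [hδ]; field_simp; ring
      have := mul_le_mul_of_nonneg_left a2 (show 0 ≤ c / 2 by positivity)
      linarith
    have q : 1 / (2 * (n + 1)) ≤ 1 / 2 := by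
      rw [div_le_div_iff₀ (by positivity) (by positivity)]; linarith
    constructor
    · have a1 := prod_le_prod (s := univ) (fun i _ => show 0 ≤ 1 - 1 / (2 * (n + 1)) by linarith)
        fun i _ => lo i
      rw [prod_const, card_univ] at a1
      have a2 := one_add_mul_le_pow (show (-2 : ℝ) ≤ -(1 / (2 * (n + 1))) by linarith)
        (Fintype.card ι)
      have a3 : n * (1 / (2 * (n + 1))) ≤ 1 / 2 := by
        rw [mul_one_div, div_le_div_iff₀ (by positivity) (by positivity)]; linarith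
      rw [← sub_eq_add_neg, ← hn] at a2
      nlinarith
    · have := prod_le_one (s := univ) (fun i _ => le_trans (by linarith) (lo i))
        fun i _ => (om_int δ0 δ1 c0.le (α i)).2.1
      nlinarith
  set ρ : (ι → ℝ) → ℝ := fun t => Ω t * ZZ J r (cl t) with hρ
  have ρe : ρ = fun t => ∑ α ∈ J, b α t := by funext t; simp only [hρ, hb, ZZ, mul_sum]
  have ρi : Integrable ρ := by rw [ρe]; exact integrable_finsetSum _ fun α _ => bi α
  have Ωm : Measurable Ω := Finset.measurable_prod _ fun i _ =>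
    (om_meas δ c).comp (measurable_pi_apply i)
  have wm : ∀ α, Measurable fun t => wt r (cl t) α := fun α => by
    simp only [wt, hcl]; fun_prop
  have Zm : Measurable fun t => ZZ J r (cl t) := Finset.measurable_sum _ fun α _ => wm α
  have mm : Measurable fun t => mean J r f (cl t) :=
    (Finset.measurable_sum _ fun α _ => (wm α).mul_const _).div Zm
  have vm : Measurable fun t => vari J r f (cl t) :=
    (Finset.measurable_sum _ fun α _ => (wm α).mul ((measurable_const.sub mm).pow_const 2)).div Zm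
  have ρ0 : ∀ t, 0 ≤ ρ t := fun t => mul_nonneg (Ω0 t) (ZZ_pos hne (clp t)).le
  have hZ : 0 < ∫ t, ρ t := by
    rw [ρe, integral_finsetSum _ fun α _ => bi α]
    exact sum_pos (fun α hα => lt_of_lt_of_le (by positivity) (bW α hα).1) hne
  set M := ∑ α ∈ J, |f α| with hM
  have hfM : ∀ α ∈ J, |f α| ≤ M := fun α hα =>
    single_le_sum (f := fun α => |f α|) (fun _ _ => abs_nonneg _) hα
  have M0 : 0 ≤ M := sum_nonneg fun _ _ => abs_nonneg _
  have i1 := int_mul ρi mm fun t => mean_bd hne (clp t) hfM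
  have i2 := int_mul ρi vm (M := M ^ 2) fun t => by
    rw [abs_of_nonneg (vari_nonneg hne (clp t))]; exact vari_bd hne (clp t) hfM
  set m := (∫ t, ρ t * mean J r f (cl t)) / ∫ t, ρ t with hm
  set κ : ℝ := 16 * r ^ 2 / δ ^ 2 / c with hκ
  have κ0 : 0 ≤ κ := by positivity
  have gb : ∀ t, |mean J r f (cl t) - m| ≤ M + |m| + κ * M ^ 2 := fun t => by
    have := abs_sub (mean J r f (cl t)) m
    have := mean_bd (r := r) hne (clp t) hfM
    have : 0 ≤ κ * M ^ 2 := by positivity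
    linarith
  have key := tau_poincare (ρ := ρ) (g := fun t => mean J r f (cl t) - m) (Γ := fun t => κ * vari J r f (cl t))
    (Ωm.mul Zm) ρi ρ0 hZ c0 (show 0 < (δ / (2 * (r + 1))) ^ 2 by positivity) (fun x y => by
      by_cases hx : Ω x = 0
      · simp only [hρ, hx, zero_mul]; exact sq_nonneg _
      by_cases hy : Ω y = 0
      · simp only [hρ, hy, zero_mul, mul_zero]; exact sq_nonneg _
      have hmid : ∀ i, δ ≤ (x i + y i) / 2 := fun i => by linarith [Ωs x hx i, Ωs y hy i]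
      have e1 : (cl fun i => (x i + y i) / 2) = fun i => (x i + y i) / 2 :=
        funext fun i => max_eq_right (hmid i)
      have e2 : Ω x * Ω y * Real.exp (c / 4 * ∑ i, (x i - y i) ^ 2) =
          Ω (fun i => (x i + y i) / 2) ^ 2 := by
        rw [Ωe x (Ωs x hx), Ωe y (Ωs y hy), Ωe _ hmid, sq, ← Real.exp_add, ← Real.exp_add,
          ← Real.exp_add, mul_sum, ← sum_add_distrib, ← sum_add_distrib, ← sum_add_distrib]
        exact congrArg _ (sum_congr rfl fun i _ => by ring)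
      have e3 := logconc hJ r 0 (fun i => δ0.trans_le (Ωs x hx i)) fun i => δ0.trans_le (Ωs y hy i)
      simp only [hρ, e1, Ωc x hx, Ωc y hy, ZZ_eq hr, mul_pow, ← e2]
      have := mul_le_mul_of_nonneg_left e3 (e2 ▸ sq_nonneg (Ω fun i => (x i + y i) / 2))
      linarith) (mm.sub_const m) (vm.const_mul κ) gb
    (fun t => mul_nonneg κ0 (vari_nonneg hne (clp t))) (fun t => by
      have := mul_le_mul_of_nonneg_left (vari_bd (r := r) hne (clp t) hfM) κ0
      have := abs_nonneg m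
      linarith) (fun x y hx hy hD => by
      have hx' : Ω x ≠ 0 := left_ne_zero_of_mul hx.ne'
      have hy' : Ω y ≠ 0 := left_ne_zero_of_mul hy.ne'
      rw [Ωc x hx', Ωc y hy', sub_sub_sub_cancel_right]
      refine (mean_lip hne hr δ0 (Ωs x hx') (Ωs y hy') hD).trans (le_of_eq ?_)
      rw [hκ]; field_simp) (by
      simp only [mul_sub]
      rw [integral_sub i1 (ρi.mul_const m), integral_mul_const, hm]
      field_simp
      ring)
  have i3 : Integrable fun t => ρ t * (mean J r f (cl t) - m) ^ 2 :=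
    int_mul ρi ((mm.sub_const m).pow_const 2) (M := (M + |m| + κ * M ^ 2) ^ 2) fun t => by
      rw [abs_pow]; exact pow_le_pow_left₀ (abs_nonneg _) (gb t) 2
  have s1 : ∑ α ∈ J, (∫ t, b α t) * (f α - m) ^ 2 =
      (∫ t, ρ t * vari J r f (cl t)) + ∫ t, ρ t * (mean J r f (cl t) - m) ^ 2 := by
    simp only [← integral_mul_const]
    rw [← integral_finsetSum _ fun α _ => (bi α).mul_const _, ← integral_add i2 i3]
    congr 1
    funext t
    simp only [hb, hρ, mul_assoc, ← mul_sum, dev_sq hne (clp t)]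
    ring
  have s2 : ∫ t, ρ t * vari J r f (cl t) ≤ r * ∑ α ∈ J, (∫ t, b α t) * En J f α := by
    simp only [← integral_mul_const]
    rw [← integral_finsetSum _ fun α _ => (bi α).mul_const _, ← integral_const_mul]
    refine integral_mono i2 ((integrable_finsetSum _ fun α _ => (bi α).mul_const _).const_mul _)
      fun t => ?_
    have := mul_le_mul_of_nonneg_left (vari_le (f := f) hJ hne hr (clp t)) (Ω0 t)
    simp only [hb, hρ, mul_assoc, ← mul_sum]
    linarith
  have s3 : ∫ t, ρ t * (κ * vari J r f (cl t)) = κ * ∫ t, ρ t * vari J r f (cl t) := by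
    rw [← integral_const_mul]
    congr 1; funext t; ring
  have s4 : (r.factorial : ℝ) / 2 * ∑ α ∈ J, (f α - m) ^ 2 ≤
      ∑ α ∈ J, (∫ t, b α t) * (f α - m) ^ 2 := by
    rw [mul_sum]
    exact sum_le_sum fun α hα => mul_le_mul_of_nonneg_right (bW α hα).1 (sq_nonneg _)
  have s5 : ∑ α ∈ J, (∫ t, b α t) * En J f α ≤ r.factorial * ∑ α ∈ J, En J f α := by
    rw [mul_sum]
    exact sum_le_sum fun α hα => mul_le_mul_of_nonneg_right (bW α hα).2 (En_nonneg J f α)
  have hE : 0 ≤ ∑ α ∈ J, En J f α := sum_nonneg fun α _ => En_nonneg J f α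
  refine ⟨m, ?_⟩
  rw [s3] at key
  have hf : (0 : ℝ) < r.factorial := by positivity
  have s6 : (r.factorial : ℝ) / 2 * ∑ α ∈ J, (f α - m) ^ 2 ≤
      (1 + 12 * κ) * (r * (r.factorial * ∑ α ∈ J, En J f α)) := by
    have := mul_le_mul_of_nonneg_left (s2.trans (mul_le_mul_of_nonneg_left s5 hr0))
      (show 0 ≤ 1 + 12 * κ by positivity)
    linarith
  have s7 : ∑ α ∈ J, (f α - m) ^ 2 ≤ 2 * (1 + 12 * κ) * r * ∑ α ∈ J, En J f α := by
    refine le_of_mul_le_mul_left ?_ (half_pos hf)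
    linarith
  refine s7.trans (mul_le_mul_of_nonneg_right ?_ hE)
  have s8 : κ = 512 * r ^ 2 * (r + 2) ^ 2 * (n + 1) ^ 3 := by rw [hκ, hδ, hc]; field_simp; ring
  have s9 : (1 : ℝ) ≤ (n + 1) ^ 3 := one_le_pow₀ (by linarith)
  have s10 : (1 : ℝ) ≤ (r + 2) ^ 4 := one_le_pow₀ (by linarith)
  have s11 : (r : ℝ) ^ 2 * (r + 2) ^ 2 ≤ (r + 2) ^ 4 := by nlinarith [sq_nonneg ((r : ℝ) + 2)]
  have s12 : 1 + 12 * κ ≤ 6500 * (n + 1) ^ 3 * (r + 2) ^ 4 := by
    rw [s8]
    nlinarith [mul_le_mul_of_nonneg_left s11 (show 0 ≤ (n + 1) ^ 3 by positivity),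
      one_le_mul_of_one_le_of_one_le s9 s10]
  calc 2 * (1 + 12 * κ) * r ≤ 2 * (6500 * (n + 1) ^ 3 * (r + 2) ^ 4) * (r + 2) := by
        gcongr; linarith
    _ = _ := by ring

end

end Pool.Agent.Lib.MP_b67cc8_lc
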