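import Pool.Agent.Lib.MP_b67cc8_lc.Graph2
import Pool.Agent.Lib.MP_b67cc8_lc.Chain

/-! Totally cyclic orientations: reachability, path reversal, a first orientation. -/

namespace Pool.Agent.Lib.MP_b67cc8_lc

open Finset

def grow (D : EL) (j : ℕ) (R : List ℕ) : List ℕ :=
  j :: (D.filter fun e => decide (e.1 ∈ R)).map fun e => e.2

/-- the vertices reachable from `j` -/
def reach (D : EL) (j : ℕ) : List ℕ := ((j, j) :: D).foldl (fun R _ => grow D j R) [j]

lemma mem_grow {D : EL} {j w : ℕ} {R : List ℕ} :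
    w ∈ grow D j R ↔ w = j ∨ ∃ e ∈ D, e.1 ∈ R ∧ e.2 = w := by
  simp [grow, and_assoc]

lemma grow_len (D : EL) (j : ℕ) (R : List ℕ) : (grow D j R).length ≤ D.length + 1 := by
  simpa [grow] using List.length_filter_le _ _

lemma reach_eq (D : EL) (j : ℕ) : reach D j = (grow D j)^[D.length + 1] [j] := by
  rw [reach, List.foldl_const, List.length_cons]

lemma reach_self (D : EL) (j : ℕ) : j ∈ reach D j := by
  rw [reach_eq, Function.iterate_succ_apply']
  exact mem_grow.2 (.inl rfl)

lemma reach_min {D : EL} {j : ℕ} (P : ℕ → Prop) (h0 : P j) (h : ∀ e ∈ D, P e.1 → P e.2) :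
    ∀ w ∈ reach D j, P w := by
  rw [reach_eq]
  induction D.length + 1 with
  | zero => simpa using h0
  | succ t ih =>
    intro w hw
    rw [Function.iterate_succ_apply', mem_grow] at hw
    rcases hw with rfl | ⟨e, he, h1, rfl⟩
    exacts [h0, h e he (ih _ h1)]

lemma reach_closed {D : EL} {j : ℕ} : ∀ e ∈ D, e.1 ∈ reach D j → e.2 ∈ reach D j := by
  have mono : ∀ t, (grow D j)^[t] [j] ⊆ (grow D j)^[t + 1] [j] := fun t => by
    induction t with
    | zero => simp [grow]
    | succ t ih =>
      intro w hw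
      rw [Function.iterate_succ_apply', mem_grow] at hw ⊢
      exact hw.imp id fun ⟨e, he, h1, h2⟩ => ⟨e, he, ih h1, h2⟩
  have key : ∀ t, (∀ e ∈ D, e.1 ∈ (grow D j)^[t] [j] → e.2 ∈ (grow D j)^[t] [j]) ∨
      t + 1 ≤ ((grow D j)^[t] [j]).toFinset.card := fun t => by
    induction t with
    | zero => simp
    | succ t ih =>
      by_cases h : ∀ e ∈ D, e.1 ∈ (grow D j)^[t] [j] → e.2 ∈ (grow D j)^[t] [j]
      · refine .inl fun e he h1 => ?_
        rw [Function.iterate_succ_apply', mem_grow] at h1 ⊢
        refine .inr ⟨e, he, ?_, rfl⟩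
        rcases h1 with h1 | ⟨a, ha, h1, h2⟩
        · rw [h1]
          cases t
          · simp
          · rw [Function.iterate_succ_apply']; exact mem_grow.2 (.inl rfl)
        · exact h2 ▸ h a ha h1
      · have h1 := ih.resolve_left h
        push Not at h
        obtain ⟨e, he, h2, h3⟩ := h
        refine .inr (h1.trans_lt (card_lt_card ⟨fun w hw => ?_, fun hs => h3 ?_⟩))
        · exact List.mem_toFinset.2 (mono t (List.mem_toFinset.1 hw))
        · refine List.mem_toFinset.1 (hs (List.mem_toFinset.2 ?_))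
          rw [Function.iterate_succ_apply']
          exact mem_grow.2 (.inr ⟨e, he, h2, rfl⟩)
  rw [reach_eq]
  refine (key _).resolve_right fun h => ?_
  have h1 := List.toFinset_card_le ((grow D j)^[D.length + 1] [j])
  rw [Function.iterate_succ_apply'] at h h1
  have := grow_len D j ((grow D j)^[D.length] [j])
  omega

/-- totally cyclic: every nonempty cut has an entering arc -/
def TC (D : EL) : Prop := ∀ S : Finset ℕ, cr D S ≠ 0 → ent D S ≠ 0

def tcb (D : EL) : Bool := D.all fun e => decide (e.1 ∈ reach D e.2)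

lemma tcb_iff {D : EL} : tcb D = true ↔ TC D := by
  simp only [tcb, List.all_eq_true, decide_eq_true_eq, TC, ne_eq, cr_eq_zero, ent_eq_zero]
  constructor
  · intro h S h1 h2
    exact h1 fun e he => ⟨fun a => by_contra fun b =>
      reach_min (· ∉ S) b (fun z hz c d => c (h2 z hz d)) _ (h e he) a, h2 e he⟩
  · intro h e he
    by_contra c
    refine h ((D.map Prod.fst).toFinset.filter (· ∉ reach D e.2) ∪
      (D.map Prod.snd).toFinset.filter (· ∉ reach D e.2)) (fun a => ?_) fun z hz a => ?_
    · have := (a e he).1 (mem_union_left _ (mem_filter.2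
        ⟨List.mem_toFinset.2 (List.mem_map_of_mem he), c⟩))
      simp [reach_self] at this
    · refine mem_union_left _ (mem_filter.2 ⟨List.mem_toFinset.2 (List.mem_map_of_mem hz),
        fun b => ?_⟩)
      simp [reach_closed z hz b] at a

lemma sum_indeg (D : EL) (S : Finset ℕ) : ∑ v ∈ S, indeg D v = ins D S + ent D S := by
  induction D with
  | nil => simp [indeg, ins, ent]
  | cons e D ih =>
    simp only [indeg, ins, ent, sm_cons, sum_add_distrib, sum_ite_eq] at ih ⊢
    rw [ih]
    by_cases a : e.1 ∈ S <;> by_cases b : e.2 ∈ S <;> simp [a, b] <;> omega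

lemma indeg_mem {U : Finset ℕ} {D : EL} (hD : In U D) : indeg D ∈ JJ U D ↔ TC D := by
  have h1 : ent D U = 0 := ent_eq_zero.2 fun e he _ => (hD e he).1
  have h2 : ∀ v ∉ U, indeg D v = 0 := fun v hv => sm_eq_zero.2 fun e he =>
    if_neg fun (h : e.2 = v) => hv (h ▸ (hD e he).2)
  simp only [mem_JJ, sum_indeg, h1, ins_all hD subset_rfl, add_zero, true_and, Ok, TC]
  exact ⟨fun h S => by have := h.2 S; omega, fun h => ⟨h2, fun S => by have := h S; omega⟩⟩

/-- the same undirected multigraph -/
def Same (D E : EL) : Prop := ∀ φ : ℕ × ℕ → ℕ, (∀ a b, φ (a, b) = φ (b, a)) → sm φ D = sm φ E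

lemma Same.len {D E : EL} (h : Same D E) : D.length = E.length := by
  simpa only [sm_one] using h (fun _ => 1) fun _ _ => rfl

lemma Same.cr {D E : EL} (h : Same D E) (S : Finset ℕ) : cr D S = cr E S :=
  h _ fun a b => by simp only [iff_comm]

lemma Same.jj {D E : EL} (h : Same D E) (U : Finset ℕ) : JJ U D = JJ U E := by
  have h1 : ∀ S, ins D S = ins E S := fun S => h _ fun a b => by simp only [and_comm]
  ext d
  simp only [mem_JJ, Ok, h.len, h1, h.cr]

lemma Same.in {D E : EL} (h : Same D E) {U : Finset ℕ} (hE : In U E) : In U D := by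
  have := h (fun e => if e.1 ∈ U ∧ e.2 ∈ U then 0 else 1) fun a b => by simp only [and_comm]
  rw [sm_eq_zero.2 fun e he => if_pos (hE e he), sm_eq_zero] at this
  intro e he
  simpa using this e he

/-- the arcs into `w` whose tail is reachable from `j` without arcs into `w` -/
def good (D : EL) (j w : ℕ) : EL :=
  D.filter fun e => decide (e.2 = w) && decide (e.1 ∈ reach (D.filter fun e => !decide (e.2 = w)) j)

def bad (D : EL) (j w : ℕ) : EL :=
  D.filter fun e => decide (e.2 = w) && !decide (e.1 ∈ reach (D.filter fun e => !decide (e.2 = w)) j)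

/-- reverse the last arc of a path from `j` to the current vertex -/
def rstep (j : ℕ) (s : EL × EL × ℕ) : EL × EL × ℕ :=
  bif decide (s.2.2 = j) || (good s.1 j s.2.2).isEmpty then s else
    (s.1.filter fun e => !decide (e.2 = s.2.2), (s.2.2, ((good s.1 j s.2.2).headD (0, 0)).1) ::
      ((good s.1 j s.2.2).tail ++ bad s.1 j s.2.2 ++ s.2.1), ((good s.1 j s.2.2).headD (0, 0)).1)

/-- reverse a path from `j` to `i` -/
def rev (D : EL) (i j : ℕ) : EL :=
  (D.foldl (fun s _ => rstep j s) (D, [], i)).1 ++ (D.foldl (fun s _ => rstep j s) (D, [], i)).2.1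

lemma sm_filter (φ : ℕ × ℕ → ℕ) (p : ℕ × ℕ → Bool) (D : EL) :
    sm φ (D.filter p) = sm (fun e => if p e then φ e else 0) D := by
  induction D with
  | nil => rfl
  | cons e D ih => cases h : p e <;> simp [h, ih]

lemma sm_three (φ : ℕ × ℕ → ℕ) (D : EL) (j w : ℕ) : sm φ D =
    sm φ (D.filter fun e => !decide (e.2 = w)) + sm φ (good D j w) + sm φ (bad D j w) := by
  simp only [good, bad, sm_filter φ _ D, ← sm_add]
  refine sm_congr fun e _ => ?_
  by_cases a : e.2 = w <;> simp [a]
  split_ifs <;> simp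

lemma rstep_cases (j : ℕ) (s : EL × EL × ℕ) :
    (rstep j s = s ∧ (s.2.2 = j ∨ good s.1 j s.2.2 = [])) ∨
    ((rstep j s).1 = (s.1.filter fun e => !decide (e.2 = s.2.2)) ∧
      ((rstep j s).2.2, s.2.2) ∈ s.1 ∧ (rstep j s).2.2 ∈ reach (rstep j s).1 j ∧
      ∀ φ, sm φ (rstep j s).1 + sm φ (rstep j s).2.1 + φ ((rstep j s).2.2, s.2.2) =
        sm φ s.1 + sm φ s.2.1 + φ (s.2.2, (rstep j s).2.2)) := by
  obtain ⟨D, D', w⟩ := s
  by_cases h : w = j
  · left; simp [rstep, h]
  rcases hg : good D j w with _ | ⟨⟨a, b⟩, G⟩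
  · left; simp [rstep, hg]
  right
  have h1 : (a, b) ∈ good D j w := by simp [hg]
  simp only [good, List.mem_filter, Bool.and_eq_true, decide_eq_true_eq] at h1
  obtain ⟨h1, rfl, h2⟩ := h1
  simp only [rstep, h, hg, decide_false, List.isEmpty_cons, Bool.or_self, cond_false,
    List.headD_cons, List.tail_cons, true_and]
  refine ⟨h1, h2, fun φ => ?_⟩
  rw [sm_three φ D j b, hg]
  simp only [sm_cons, sm_append]
  omega

lemma rstep_same (j : ℕ) (D : EL) (i t : ℕ) :
    Same (((rstep j)^[t] (D, [], i)).1 ++ ((rstep j)^[t] (D, [], i)).2.1) D ∧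
      (((rstep j)^[t] (D, [], i)).2.2 = i ∨ ∃ e ∈ D, ((rstep j)^[t] (D, [], i)).2.2 = e.1) ∧
      ((rstep j)^[t] (D, [], i)).1 ⊆ D := by
  induction t with
  | zero => simp [Same]
  | succ t ih =>
    rw [Function.iterate_succ_apply']
    generalize (rstep j)^[t] (D, [], i) = s at ih
    rcases rstep_cases j s with ⟨h, -⟩ | ⟨h1, h2, -, h3⟩
    · rwa [h]
    · refine ⟨fun φ hφ => ?_, .inr ⟨_, ih.2.2 h2, rfl⟩, ?_⟩
      · have a1 := ih.1 φ hφ
        have a2 := h3 φ
        rw [hφ] at a2
        rw [sm_append] at a1 ⊢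
        omega
      · rw [h1]
        exact fun e he => ih.2.2 (List.mem_of_mem_filter he)

lemma rev_same (D : EL) (i j : ℕ) : Same (rev D i j) D := by
  simp only [rev, List.foldl_const]
  exact (rstep_same j D i _).1

lemma rev_indeg {D : EL} {i j : ℕ} (h : i ∈ reach D j) (v : ℕ) :
    (indeg (rev D i j) v + if i = v then 1 else 0) = indeg D v + if j = v then 1 else 0 := by
  have key : ∀ t, ∀ s, s = (rstep j)^[t] (D, [], i) →
      (indeg (s.1 ++ s.2.1) v + if i = v then 1 else 0) = (indeg D v + if s.2.2 = v then 1 else 0) ∧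
      s.2.2 ∈ reach s.1 j ∧ (s.2.2 = j ∨ s.1.length + t ≤ D.length) := by
    intro t
    induction t with
    | zero => rintro s rfl; simpa using h
    | succ t ih =>
      rintro s rfl
      rw [Function.iterate_succ_apply']
      obtain ⟨i1, i2, i3⟩ := ih _ rfl
      generalize (rstep j)^[t] (D, [], i) = s at *
      rcases rstep_cases j s with ⟨h, h'⟩ | ⟨h1, h2, h3, h4⟩
      · rw [h]
        refine ⟨i1, i2, .inl (by_contra fun c => ?_)⟩
        have h0 := h'.resolve_left c
        simp only [good, List.filter_eq_nil_iff, Bool.and_eq_true, decide_eq_true_eq, not_and] at h0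
        refine (reach_min (fun z => z ≠ s.2.2 ∧
          z ∈ reach (s.1.filter fun e => !decide (e.2 = s.2.2)) j) ⟨Ne.symm c, reach_self _ _⟩
          (fun e he a => ?_) _ i2).1 rfl
        have b : e.2 ≠ s.2.2 := fun b => h0 e he b a.2
        exact ⟨b, reach_closed e (List.mem_filter.2 ⟨he, by simp [b]⟩) a.2⟩
      · refine ⟨?_, h3, ?_⟩
        · have := h4 fun e => if e.2 = v then 1 else 0
          simp only [indeg, sm_append] at this i1 ⊢
          omega
        · rcases i3 with c | c
          · left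
            simp [rstep, c]
          · right
            rw [h1]
            have := List.length_filter_lt_length_iff_exists (p := fun e => !decide (e.2 = s.2.2)).2
              ⟨_, h2, by simp⟩
            omega
  obtain ⟨h1, h2, h3⟩ := key D.length _ rfl
  simp only [rev, List.foldl_const]
  generalize (rstep j)^[D.length] (D, [], i) = s at *
  have : s.2.2 = j := by
    refine h3.elim id fun c => ?_
    rw [List.length_eq_zero_iff.1 (show s.1.length = 0 by omega)] at h2
    exact reach_min (· = j) rfl (by simp) _ h2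
  rwa [this] at h1

/-- is the exchange from `i` to `j` possible -/
def can (D : EL) (i j : ℕ) : Bool := decide (i ∈ reach D j) && tcb (rev D i j)

def step (D : EL) (i j : ℕ) : EL := bif can D i j then rev D i j else D

lemma step_same (D : EL) (i j : ℕ) : Same (step D i j) D := by
  unfold step
  cases can D i j
  exacts [fun _ _ => rfl, rev_same D i j]

lemma step_tc {D : EL} (h : TC D) (i j : ℕ) : TC (step D i j) := by
  unfold step
  cases c : can D i j
  exacts [h, tcb_iff.1 (Bool.and_eq_true_iff.1 c).2]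

lemma rev_mv {D : EL} {i j : ℕ} (h : i ∈ reach D j) (hij : i ≠ j) :
    0 < indeg D i ∧ indeg (rev D i j) = mv (indeg D) i j := by
  have h0 := rev_indeg h i
  rw [if_pos rfl, if_neg hij.symm] at h0
  refine ⟨by omega, funext fun v => ?_⟩
  have := rev_indeg h v
  simp only [mv, up, @eq_comm _ v]
  split_ifs at this ⊢ <;> subst_vars <;> omega

open scoped Classical in
lemma can_iff {U : Finset ℕ} {D : EL} (hD : In U D) {i j : ℕ} (hij : i ≠ j) :
    can D i j = true ↔ 0 < indeg D i ∧ mv (indeg D) i j ∈ JJ U D := by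
  rw [can, Bool.and_eq_true, decide_eq_true_eq, tcb_iff, ← indeg_mem ((rev_same D i j).in hD),
    (rev_same D i j).jj]
  by_cases h : i ∈ reach D j
  · simp [h, rev_mv h hij]
  · simp only [h, false_and, false_iff, not_and]
    intro h0 h1
    have hi : i ∈ U := by
      by_contra c
      have : indeg D i = 0 := sm_eq_zero.2 fun e he => if_neg fun (h : e.2 = i) =>
        c (h ▸ (hD e he).2)
      omega
    have a1 := (mem_JJ.1 h1).2 (U.filter (· ∉ reach D j))
    have a2 := sum_mv h0 j (U.filter (· ∉ reach D j))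
    rw [sum_indeg, (ent_eq_zero (S := U.filter (· ∉ reach D j))).2 fun e he b => mem_filter.2 ⟨(hD e he).1, fun c =>
      (mem_filter.1 b).2 (reach_closed e he c)⟩] at a2
    simp [hi, h, reach_self] at a2
    omega

lemma step_indeg {U : Finset ℕ} {D : EL} (hD : In U D) (i j : ℕ) :
    indeg (step D i j) = stp (JJ U D) (indeg D) i j := by
  unfold step stp
  by_cases hij : i = j
  · subst hij
    have e1 : indeg (rev D i i) = indeg D := funext fun v => by
      have := rev_indeg (reach_self D i) v
      omega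
    have e2 : 0 < indeg D i → mv (indeg D) i i = indeg D := fun h => funext fun v => by
      simp only [mv, up]
      split_ifs <;> subst_vars <;> omega
    split_ifs with h
    · rw [e2 h.1]; cases can D i i; exacts [rfl, e1]
    · cases can D i i; exacts [rfl, e1]
  · cases c : can D i j
    · rw [if_neg (by rw [← can_iff hD hij, c]; simp)]; rfl
    · rw [if_pos ((can_iff hD hij).1 c)]
      exact (rev_mv (of_decide_eq_true (Bool.and_eq_true_iff.1 c).1) hij).2

/-! ### A first totally cyclic orientation -/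

def swp (R : EL) : EL := R.map fun e => (e.2, e.1)

def istep (s : EL × EL) : EL × EL :=
  (bif tcb (s.2.headD (0, 0) :: s.1 ++ s.2.tail ++ swp s.2.tail) then s.2.headD (0, 0) :: s.1
    else ((s.2.headD (0, 0)).2, (s.2.headD (0, 0)).1) :: s.1, s.2.tail)

def init (E : EL) : EL := (E.foldl (fun s _ => istep s) ([], E)).1

lemma tc_mix (D R : EL) : TC (D ++ R ++ swp R) ↔
    ∀ S, cr D S + cr R S ≠ 0 → ent D S + cr R S ≠ 0 := by
  refine forall_congr' fun S => ?_
  have h1 : cr (swp R) S = cr R S := by simp only [cr, swp, sm_map, iff_comm]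
  have h2 : ent R S + ent (swp R) S = cr R S := by
    simp only [ent, cr, swp, sm_map, ← sm_add]
    refine sm_congr fun e _ => ?_
    by_cases a : e.1 ∈ S <;> by_cases b : e.2 ∈ S <;> simp [a, b]
  simp only [cr, ent, sm_append] at *
  omega

lemma mix_step {D R : EL} {u v : ℕ} (h : TC (D ++ (u, v) :: R ++ swp ((u, v) :: R)))
    (h1 : ∀ S, cr (D ++ (u, v) :: R) S ≠ 1) :
    TC ((u, v) :: D ++ R ++ swp R) ∨ TC ((v, u) :: D ++ R ++ swp R) := by
  by_contra c
  simp only [tc_mix, not_or, not_forall, not_not, cr_cons] at h c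
  obtain ⟨⟨S, s1, s2⟩, T, t1, t2⟩ := c
  have a1 := h S
  have a2 := h T
  simp only [ent, sm_cons] at s2 t2 a1 a2
  have s3 : u ∈ S ∧ v ∉ S := by
    by_cases a : u ∈ S <;> by_cases b : v ∈ S <;> simp [a, b] at s1 s2 a1 ⊢ <;> omega
  have t3 : v ∈ T ∧ u ∉ T := by
    by_cases a : u ∈ T <;> by_cases b : v ∈ T <;> simp [a, b] at t1 t2 a2 ⊢ <;> omega
  have s4 := ent_eq_zero.1 (show ent D S = 0 by unfold ent; omega)
  have t4 := ent_eq_zero.1 (show ent D T = 0 by unfold ent; omega)
  have s5 := cr_eq_zero.1 (show cr R S = 0 by omega)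
  have t5 := cr_eq_zero.1 (show cr R T = 0 by omega)
  have b1 := h (S ∪ T)
  have b2 := h (S ∩ T)
  rw [ent_eq_zero.2 fun e he => by have := s4 e he; have := t4 e he; grind,
    cr_eq_zero (E := R).2 fun e he => by have := s5 e he; have := t5 e he; grind,
    if_pos (by grind)] at b1 b2
  have c1 := cr_eq_zero.1 (show cr D (S ∪ T) = 0 by omega)
  have c2 := cr_eq_zero.1 (show cr D (S ∩ T) = 0 by omega)
  have c3 : cr D S = 0 := cr_eq_zero.2 fun e he => by
    have := s4 e he; have := t4 e he; have := c1 e he; have := c2 e he; grind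
  have := h1 S
  simp only [cr, sm_append, sm_cons, s3, iff_false, not_true, if_false] at this c3 s2
  omega

lemma istep_iter (E : EL) (t : ℕ) (ht : t ≤ E.length) : (istep^[t] ([], E)).2 = E.drop t ∧
    Same ((istep^[t] ([], E)).1 ++ E.drop t) E ∧ ((∀ S, cr E S ≠ 1) →
      TC ((istep^[t] ([], E)).1 ++ E.drop t ++ swp (E.drop t))) := by
  induction t with
  | zero => exact ⟨rfl, fun _ _ => rfl, fun _ => (tc_mix [] E).2 fun S => by simp [cr, ent]⟩
  | succ t ih =>
    obtain ⟨i1, i2, i3⟩ := ih (by omega)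
    rw [Function.iterate_succ_apply']
    generalize istep^[t] ([], E) = s at *
    rw [List.drop_eq_getElem_cons (by omega : t < E.length)] at i1 i2 i3
    generalize E[t] = e at *
    obtain ⟨u, v⟩ := e
    simp only [istep, i1, List.headD_cons, List.tail_cons, true_and]
    refine ⟨fun φ hφ => ?_, fun h => ?_⟩
    · rw [← i2 φ hφ]
      cases tcb _ <;> simp [hφ u v] <;> omega
    · cases c : tcb _
      · exact (mix_step (i3 h) fun S => i2.cr S ▸ h S).resolve_left fun a => by
          rw [tcb_iff.2 a] at c; cases c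
      · exact tcb_iff.1 c

lemma init_same (E : EL) : Same (init E) E := by
  simpa [init, List.foldl_const] using (istep_iter E _ le_rfl).2.1

lemma init_tc {U : Finset ℕ} {E : EL} (hE : In U E) (h : (JJ U E).Nonempty) : TC (init E) := by
  obtain ⟨d, hd⟩ := h
  simpa [init, List.foldl_const, swp] using (istep_iter E _ le_rfl).2.2 fun S hS => by
    have h1 : ins E S + ins E ((U ∪ S) \ S) + cr E S = E.length ∧
        cr E ((U ∪ S) \ S) = cr E S := by
      simp only [← sm_one, ins, cr, ← sm_add]
      constructor <;> refine sm_congr fun e he => ?_ <;> have := hE e he <;>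
        by_cases a : e.1 ∈ S <;> by_cases b : e.2 ∈ S <;> simp [a, b, this]
    have h2 := sum_sdiff (f := d) (subset_union_right (s₁ := U) (s₂ := S))
    rw [JJ_sum hd subset_union_left] at h2
    have h3 := (mem_JJ.1 hd).2 S
    have h4 := (mem_JJ.1 hd).2 ((U ∪ S) \ S)
    omega

/-- contract the first edge -/
def nxt (L : EL) : EL := rl (mrg id (L.headD (0, 0)).1 (L.headD (0, 0)).2) L.tail

lemma nxt_tc {u v : ℕ} {D : EL} (h : TC ((u, v) :: D)) : TC (rl (mrg id u v) D) := by
  intro S hS
  obtain ⟨T, hT⟩ : ∃ T : Finset ℕ, ∀ w, mrg id u v w ∈ S ↔ w ∈ T := by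
    by_cases hu : u ∈ S
    · exact ⟨insert v S, fun w => by
        simp only [mrg, id, mem_insert]
        split_ifs with h <;> simp [h, hu]⟩
    · exact ⟨S.erase v, fun w => by
        simp only [mrg, id, mem_erase]
        split_ifs with h <;> simp [h, hu]⟩
  have h1 : u ∈ T ↔ v ∈ T := by simp [← hT, mrg]
  have h2 := h T
  simp only [cr, ent, rl, sm_map, hT, sm_cons, h1, if_true, not_and_self_iff, if_false,
    zero_add] at *
  exact h2 hS

lemma nxt_in {U : Finset ℕ} {u v : ℕ} {D : EL} (h : In U ((u, v) :: D)) :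
    In U (rl (mrg id u v) D) := fun e he => by
  obtain ⟨a, ha, rfl⟩ := List.mem_map.1 he
  have h1 := h a (List.mem_cons_of_mem _ ha)
  have h2 := h _ List.mem_cons_self
  simp only [mrg, id]
  constructor <;> split_ifs
  exacts [h2.1, h1.1, h2.1, h1.2]

end Pool.Agent.Lib.MP_b67cc8_lc
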