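import Mathlib

/-! Quadratic form lemmas: the trickle-down step and the rank two base case. -/

namespace Pool.Agent.Lib.MP_b67cc8_lc

open Finset

variable {ι : Type} [Fintype ι]

/-- the bilinear form of a matrix -/
def bil (K : ι → ι → ℝ) (g h : ι → ℝ) : ℝ := ∑ i, ∑ j, K i j * g i * h j

lemma bil_comm {K : ι → ι → ℝ} (hK : ∀ i j, K i j = K j i) (g h : ι → ℝ) :
    bil K g h = bil K h g := by
  unfold bil
  rw [sum_comm]
  refine sum_congr rfl fun i _ => sum_congr rfl fun j _ => ?_
  rw [hK]; ring

lemma bil_comb {K : ι → ι → ℝ} (hK : ∀ i j, K i j = K j i) (g h : ι → ℝ) (a b : ℝ) :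
    bil K (fun i => a * g i + b * h i) (fun i => a * g i + b * h i) =
      a ^ 2 * bil K g g + 2 * a * b * bil K g h + b ^ 2 * bil K h h := by
  have h1 : 2 * a * b * bil K g h = a * b * bil K g h + a * b * bil K h g := by
    rw [bil_comm hK h g]; ring
  rw [h1]
  simp only [bil, mul_sum, ← sum_add_distrib]
  refine sum_congr rfl fun i _ => sum_congr rfl fun j _ => ?_
  ring

/-- a form bounded by the square of a linear form satisfies the reverse Cauchy-Schwarz
inequality -/
lemma rcs_of_le_sq {K : ι → ι → ℝ} (hK : ∀ i j, K i j = K j i) (a : ι → ℝ)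
    (h : ∀ y, bil K y y ≤ (∑ i, a i * y i) ^ 2) (t y : ι → ℝ) (ht : 0 < bil K t t) :
    bil K y y * bil K t t ≤ bil K y t ^ 2 := by
  set A := ∑ i, a i * t i
  set B := ∑ i, a i * y i
  have h1 := h fun i => A * y i + (-B) * t i
  have h2 : ∑ i, a i * (A * y i + (-B) * t i) = 0 := by
    have : ∀ i, a i * (A * y i + (-B) * t i) = A * (a i * y i) - B * (a i * t i) := fun i => by ring
    simp only [this, sum_sub_distrib, ← mul_sum]
    ring
  rw [h2, bil_comb hK] at h1
  have h3 : 0 < A ^ 2 := ht.trans_le (h t)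
  have h4 := mul_le_mul_of_nonneg_right h1 ht.le
  have h5 := sq_nonneg (A * bil K y t - B * bil K t t)
  refine le_of_mul_le_mul_left ?_ h3
  nlinarith

/-- the matrix of a symmetric and transitive relation is positive semidefinite -/
lemma per_psd (M : ι → ι → Prop) [DecidableRel M] (hs : ∀ i j, M i j → M j i)
    (ht : ∀ i j k, M i k → M j k → M i j) (y : ι → ℝ) :
    0 ≤ bil (fun i j => if M i j then 1 else 0) y y := by
  classical
  set c : ι → ℝ := fun k => ((univ.filter fun l => M l k).card : ℝ) with hc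
  have key : ∀ i j, (if M i j then (1 : ℝ) else 0) =
      ∑ k, (if M i k then 1 else 0) * (if M j k then 1 else 0) / c k := by
    intro i j
    split_ifs with h
    · have hi : M i i := ht i i j h h
      have h1 : ∀ k, (if M i k then (1 : ℝ) else 0) * (if M j k then 1 else 0) / c k =
          if M k i then 1 / c i else 0 := by
        intro k
        by_cases hk : M i k
        · have h2 : M j k := ht j k i (hs _ _ h) (hs _ _ hk)
          have h3 : c k = c i := by
            simp only [hc]
            congr 2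
            ext l
            simp only [mem_filter, mem_univ, true_and]
            exact ⟨fun hl => ht l i k hl hk, fun hl => ht l k i hl (hs _ _ hk)⟩
          simp [hk, h2, hs _ _ hk, h3]
        · have : ¬ M k i := fun h' => hk (hs _ _ h')
          simp [hk, this]
      simp only [h1]
      rw [← sum_filter, sum_const, nsmul_eq_mul]
      have : c i ≠ 0 := by
        simp only [hc, ne_eq, Nat.cast_eq_zero, card_eq_zero]
        exact ne_empty_of_mem (mem_filter.2 ⟨mem_univ i, hi⟩)
      change 1 = c i * (1 / c i)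
      field_simp
    · refine (sum_eq_zero fun k _ => ?_).symm
      by_cases h1 : M i k
      · have : ¬ M j k := fun h2 => h (ht i j k h1 h2)
        simp [this]
      · simp [h1]
  have h2 : bil (fun i j => if M i j then 1 else 0) y y =
      ∑ k, (∑ i, (if M i k then 1 else 0) * y i) ^ 2 / c k := by
    unfold bil
    calc _ = ∑ i, ∑ j, ∑ k, (if M i k then 1 else 0) * y i * ((if M j k then 1 else 0) * y j) /
          c k := by
          refine sum_congr rfl fun i _ => sum_congr rfl fun j _ => ?_
          beta_reduce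
          rw [key, sum_mul, sum_mul]
          exact sum_congr rfl fun k _ => by ring
      _ = ∑ i, ∑ k, ∑ j, (if M i k then 1 else 0) * y i * ((if M j k then 1 else 0) * y j) /
          c k := sum_congr rfl fun i _ => sum_comm
      _ = _ := by
          rw [sum_comm]
          refine sum_congr rfl fun k _ => ?_
          rw [sq, sum_mul_sum, sum_div]
          exact sum_congr rfl fun i _ => by rw [sum_div]
  rw [h2]
  exact sum_nonneg fun k _ => div_nonneg (sq_nonneg _) (Nat.cast_nonneg _)


lemma lin_zero {a b : ℝ} (h : ∀ s : ℝ, 0 ≤ 2 * s * a + s ^ 2 * b) : a = 0 := by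
  by_contra ha
  have h1 := h (-a / (|b| + 1))
  have h2 : 0 < |b| + 1 := by positivity
  have h3 : 0 < a ^ 2 := by positivity
  have h4 : b ≤ |b| := le_abs_self b
  have h5 : 2 * (-a / (|b| + 1)) * a + (-a / (|b| + 1)) ^ 2 * b =
      a ^ 2 * (b - 2 * (|b| + 1)) / (|b| + 1) ^ 2 := by
    field_simp
    ring
  rw [h5] at h1
  have h6 : a ^ 2 * (b - 2 * (|b| + 1)) < 0 := mul_neg_of_pos_of_neg h3 (by linarith [abs_nonneg b])
  exact absurd (div_neg_of_neg_of_pos h6 (by positivity)) (not_lt.2 h1)

/-- trickle-down step -/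
lemma trickle {K : ι → ι → ℝ} (hK : ∀ i j, K i j = K j i) (h0 : ∀ i j, 0 ≤ K i j)
    (hconn : ∀ h : ι → ℝ, (∀ i j, 0 < K i j → h i = h j) →
      ∀ i j, 0 < ∑ l, K i l → 0 < ∑ l, K j l → h i = h j)
    (hB : ∀ h : ι → ℝ, bil K h h ≤ ∑ l, (∑ j, K l j * h j) ^ 2 / ∑ j, K l j) (y : ι → ℝ) :
    bil K y y * bil K 1 1 ≤ bil K y 1 ^ 2 := by
  classical
  set w : ι → ℝ := fun l => ∑ j, K l j with hw
  have hw0 : ∀ l, 0 ≤ w l := fun l => sum_nonneg fun j _ => h0 l j
  have hz : ∀ l j, w l = 0 → K l j = 0 := fun l j h =>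
    (sum_eq_zero_iff_of_nonneg fun j _ => h0 l j).1 h j (mem_univ j)
  have b1 : ∀ h : ι → ℝ, bil K h 1 = ∑ l, w l * h l := fun h => by
    simp only [bil, hw, sum_mul, Pi.one_apply, mul_one]
  have brow : ∀ h g : ι → ℝ, bil K g h = ∑ l, (∑ j, K l j * h j) * g l := fun h g => by
    simp only [bil, sum_mul]
    exact sum_congr rfl fun i _ => sum_congr rfl fun j _ => by ring
  -- the form is nonpositive on the normalised centred vectors
  have main : ∀ h : ι → ℝ, (∀ l, w l = 0 → h l = 0) → ∑ l, w l * h l = 0 →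
      ∑ l, w l * h l ^ 2 = 1 → bil K h h ≤ 0 := by
    intro h1 a1 a2 a3
    set C : Set (ι → ℝ) := {h | (∀ l, w l = 0 → h l = 0) ∧ ∑ l, w l * h l = 0 ∧
      ∑ l, w l * h l ^ 2 = 1} with hC
    have hcl : IsClosed C := by
      have : C = (⋂ l, {h : ι → ℝ | w l = 0 → h l = 0}) ∩ ({h | ∑ l, w l * h l = 0} ∩
          {h | ∑ l, w l * h l ^ 2 = 1}) := by ext; simp [hC]
      rw [this]
      refine (isClosed_iInter fun l => ?_).inter ((isClosed_eq (by fun_prop) continuous_const).inter
        (isClosed_eq (by fun_prop) continuous_const))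
      by_cases hl : w l = 0
      · simpa [hl] using isClosed_eq (continuous_apply l) continuous_const
      · simp [hl]
    have hcp : IsCompact C := by
      refine (isCompact_univ_pi fun l => isCompact_Icc (a := -(1 + 1 / w l))
        (b := 1 + 1 / w l)).of_isClosed_subset hcl fun h hh l _ => ?_
      rcases (hw0 l).lt_or_eq with hl | hl
      · have e1 : w l * h l ^ 2 ≤ 1 := hh.2.2 ▸ single_le_sum (f := fun l => w l * h l ^ 2)
          (fun l _ => mul_nonneg (hw0 l) (sq_nonneg _)) (mem_univ l)
        have e2 : h l ^ 2 ≤ 1 / w l := by rw [le_div_iff₀ hl]; linarith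
        constructor <;> nlinarith [sq_nonneg (h l - 1), sq_nonneg (h l + 1), one_div_pos.2 hl]
      · simp [hh.1 l hl.symm, ← hl]
    obtain ⟨h, hh, hmax⟩ := hcp.exists_isMaxOn ⟨h1, a1, a2, a3⟩
      (f := fun h => bil K h h) (by unfold bil; fun_prop)
    refine (hmax ⟨a1, a2, a3⟩).trans ?_
    simp only
    set θ := bil K h h with hθ
    -- the bound on the whole subspace
    have hsub : ∀ g : ι → ℝ, (∀ l, w l = 0 → g l = 0) → ∑ l, w l * g l = 0 →
        bil K g g ≤ θ * ∑ l, w l * g l ^ 2 := by
      intro g g1 g2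
      have hq : 0 ≤ ∑ l, w l * g l ^ 2 := sum_nonneg fun l _ => mul_nonneg (hw0 l) (sq_nonneg _)
      rcases hq.lt_or_eq with hq | hq
      · set q := ∑ l, w l * g l ^ 2
        have hs : 0 < Real.sqrt q := Real.sqrt_pos.2 hq
        have hs2 : Real.sqrt q ^ 2 = q := Real.sq_sqrt hq.le
        have hm : (fun l => (Real.sqrt q)⁻¹ * g l + 0 * g l) ∈ C := by
          refine ⟨fun l hl => by simp [g1 l hl], ?_, ?_⟩
          · have : ∀ l, w l * ((Real.sqrt q)⁻¹ * g l + 0 * g l) = (Real.sqrt q)⁻¹ * (w l * g l) :=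
              fun l => by ring
            simp only [this, ← mul_sum, g2, mul_zero]
          · have : ∀ l, w l * ((Real.sqrt q)⁻¹ * g l + 0 * g l) ^ 2 =
                (Real.sqrt q ^ 2)⁻¹ * (w l * g l ^ 2) := fun l => by ring
            simp only [this, ← mul_sum, hs2]
            exact inv_mul_cancel₀ hq.ne'
        have := hmax hm
        simp only [Set.mem_ofPred_eq, bil_comb hK, inv_pow, hs2] at this
        have h3 : q⁻¹ * bil K g g ≤ θ := by linarith
        rwa [inv_mul_le_iff₀ hq, mul_comm] at h3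
      · have hg : g = 0 := by
          funext l
          by_contra hl
          have := (sum_eq_zero_iff_of_nonneg fun l _ => mul_nonneg (hw0 l) (sq_nonneg _)).1 hq.symm
            l (mem_univ l)
          rcases mul_eq_zero.1 this with h2 | h2
          · exact hl (g1 l h2)
          · exact hl (pow_eq_zero_iff two_ne_zero |>.1 h2)
        simp [hg, bil]
    set P : ι → ℝ := fun l => (∑ j, K l j * h j) / w l with hP
    have hwP : ∀ l, w l * P l = ∑ j, K l j * h j := fun l => by
      by_cases hl : w l = 0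
      · simp [hl, hz l _ hl]
      · simp only [hP]; field_simp
    set g : ι → ℝ := fun l => P l - θ * h l with hg
    have g1 : ∀ l, w l = 0 → g l = 0 := fun l hl => by simp [hg, hP, hl, hh.1 l hl]
    have g2 : ∑ l, w l * g l = 0 := by
      have e1 : ∑ l, w l * P l = 0 := by
        simp only [hwP]
        rw [sum_comm, ← hh.2.1]
        refine sum_congr rfl fun j _ => ?_
        rw [← sum_mul]
        exact congrArg (· * h j) (sum_congr rfl fun l _ => hK l j)
      have : ∀ l, w l * g l = w l * P l - θ * (w l * h l) := fun l => by simp only [hg]; ring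
      simp only [this, sum_sub_distrib, ← mul_sum, e1, hh.2.1, mul_zero, sub_zero]
    have g3 : θ * ∑ l, w l * h l * g l - bil K h g = 0 := by
      refine lin_zero (b := θ * ∑ l, w l * g l ^ 2 - bil K g g) fun s => ?_
      have e1 := hsub (fun l => 1 * h l + s * g l) (fun l hl => by simp [g1 l hl, hh.1 l hl]) (by
        have : ∀ l, w l * (1 * h l + s * g l) = w l * h l + s * (w l * g l) := fun l => by ring
        simp only [this, sum_add_distrib, ← mul_sum, g2, hh.2.1, mul_zero, add_zero])
      have e2 : ∀ l, w l * (1 * h l + s * g l) ^ 2 = w l * h l ^ 2 + 2 * s * (w l * h l * g l) +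
          s ^ 2 * (w l * g l ^ 2) := fun l => by ring
      simp only [bil_comb hK, e2, sum_add_distrib, ← mul_sum, hh.2.2] at e1
      nlinarith
    have g4 : ∑ l, w l * g l ^ 2 = 0 := by
      rw [bil_comm hK, brow, mul_sum, ← sum_sub_distrib] at g3
      rw [← neg_eq_zero, ← g3, ← sum_neg_distrib]
      refine sum_congr rfl fun l _ => ?_
      rw [← hwP]
      simp only [hg]
      ring
    have g5 : ∀ l, w l * g l ^ 2 = 0 := fun l =>
      (sum_eq_zero_iff_of_nonneg fun l _ => mul_nonneg (hw0 l) (sq_nonneg _)).1 g4 l (mem_univ l)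
    have g6 : θ ≤ θ ^ 2 := by
      refine (hB h).trans (le_of_eq ?_)
      rw [← mul_one (θ ^ 2), ← hh.2.2, mul_sum]
      refine sum_congr rfl fun l _ => ?_
      change _ / w l = _
      by_cases hl : w l = 0
      · simp [hl]
      · have e1 : P l = θ * h l := by
          have := (mul_eq_zero.1 (g5 l)).resolve_left hl
          have := pow_eq_zero_iff two_ne_zero |>.1 this
          simp only [hg] at this
          linarith
        rw [← hwP, e1]
        field_simp
    by_contra hpos
    push Not at hpos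
    have h1θ : 1 ≤ θ := by nlinarith
    have e1 : ∑ i, ∑ j, K i j * (h i - h j) ^ 2 = 2 - 2 * θ := by
      have e2 : ∑ i, ∑ j, K i j * h i ^ 2 = 1 := by
        rw [← hh.2.2]
        exact sum_congr rfl fun i _ => by rw [← sum_mul]
      have e3 : ∑ i, ∑ j, K i j * h j ^ 2 = 1 := by
        rw [sum_comm, ← e2]
        exact sum_congr rfl fun i _ => sum_congr rfl fun j _ => by rw [hK]
      have : ∀ i j, K i j * (h i - h j) ^ 2 = K i j * h i ^ 2 + K i j * h j ^ 2 -
          2 * (K i j * h i * h j) := fun i j => by ring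
      simp only [this, sum_sub_distrib, sum_add_distrib, ← mul_sum, e2, e3]
      simp only [hθ, bil]
      ring
    have e4 : ∀ i j, 0 ≤ K i j * (h i - h j) ^ 2 := fun i j => mul_nonneg (h0 i j) (sq_nonneg _)
    have e5 : ∀ i j, 0 < K i j → h i = h j := by
      intro i j hij
      have e6 : K i j * (h i - h j) ^ 2 ≤ ∑ i, ∑ j, K i j * (h i - h j) ^ 2 :=
        (single_le_sum (fun j _ => e4 i j) (mem_univ j)).trans
          (single_le_sum (f := fun i => ∑ j, K i j * (h i - h j) ^ 2)
            (fun i _ => sum_nonneg fun j _ => e4 i j) (mem_univ i))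
      have e7 : (h i - h j) ^ 2 ≤ 0 := by
        by_contra hc
        push Not at hc
        have := mul_pos hij hc
        linarith
      have := pow_eq_zero_iff two_ne_zero |>.1 (le_antisymm e7 (sq_nonneg _))
      linarith
    obtain ⟨l0, -, hl0⟩ := exists_ne_zero_of_sum_ne_zero (hh.2.2.trans_ne one_ne_zero)
    have hl1 : 0 < w l0 := (hw0 l0).lt_of_ne' (left_ne_zero_of_mul hl0)
    have e8 : ∑ l, w l * h l ^ 2 = h l0 * ∑ l, w l * h l := by
      rw [mul_sum]
      refine sum_congr rfl fun l _ => ?_
      rcases (hw0 l).lt_or_eq with hl | hl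
      · rw [hconn h e5 l l0 hl hl1]; ring
      · rw [← hl]; ring
    rw [hh.2.2, hh.2.1] at e8
    simp at e8
  -- nonpositive on all centred vectors
  have main2 : ∀ h : ι → ℝ, ∑ l, w l * h l = 0 → bil K h h ≤ 0 := by
    intro h a2
    set h' : ι → ℝ := fun l => if w l = 0 then 0 else h l with hh'
    have e0 : ∀ l, w l * h' l = w l * h l := fun l => by
      by_cases hl : w l = 0 <;> simp [hh', hl]
    have e1 : bil K h h = bil K h' h' := by
      refine sum_congr rfl fun i _ => sum_congr rfl fun j _ => ?_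
      by_cases hi : w i = 0
      · simp [hz i j hi]
      · by_cases hj : w j = 0
        · simp [hK i j, hz j i hj]
        · simp [hh', hi, hj]
    rw [e1]
    have hq : 0 ≤ ∑ l, w l * h' l ^ 2 := sum_nonneg fun l _ => mul_nonneg (hw0 l) (sq_nonneg _)
    rcases hq.lt_or_eq with hq | hq
    · set q := ∑ l, w l * h' l ^ 2
      have hs2 : Real.sqrt q ^ 2 = q := Real.sq_sqrt hq.le
      have := main (fun l => (Real.sqrt q)⁻¹ * h' l + 0 * h' l) (fun l hl => by simp [hh', hl]) (by
        have : ∀ l, w l * ((Real.sqrt q)⁻¹ * h' l + 0 * h' l) = (Real.sqrt q)⁻¹ * (w l * h' l) :=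
          fun l => by ring
        simp only [this, ← mul_sum, e0, a2, mul_zero]) (by
        have : ∀ l, w l * ((Real.sqrt q)⁻¹ * h' l + 0 * h' l) ^ 2 =
            (Real.sqrt q ^ 2)⁻¹ * (w l * h' l ^ 2) := fun l => by ring
        simp only [this, ← mul_sum, hs2]
        exact inv_mul_cancel₀ hq.ne')
      simp only [bil_comb hK, inv_pow, hs2] at this
      have h3 : q⁻¹ * bil K h' h' ≤ 0 := by linarith
      by_contra hc
      push Not at hc
      exact absurd (mul_pos (inv_pos.2 hq) hc) (not_lt.2 h3)
    · have hg : h' = 0 := by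
        funext l
        have := (sum_eq_zero_iff_of_nonneg fun l _ => mul_nonneg (hw0 l) (sq_nonneg _)).1 hq.symm
          l (mem_univ l)
        by_cases hl : w l = 0
        · simp [hh', hl]
        · exact pow_eq_zero_iff two_ne_zero |>.1 ((mul_eq_zero.1 this).resolve_left hl)
      simp [hg, bil]
  have e1 := main2 (fun l => bil K 1 1 * y l + (-bil K y 1) * (1 : ι → ℝ) l) (by
    have : ∀ l, w l * (bil K 1 1 * y l + (-bil K y 1) * (1 : ι → ℝ) l) =
        bil K 1 1 * (w l * y l) - bil K y 1 * (w l * (1 : ι → ℝ) l) := fun l => by ring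
    simp only [this, sum_sub_distrib, ← mul_sum, ← b1]
    ring)
  rw [bil_comb hK] at e1
  have hW : 0 ≤ bil K 1 1 := by
    rw [b1]; exact sum_nonneg fun l _ => by simpa using hw0 l
  rcases hW.lt_or_eq with hW | hW
  · refine le_of_mul_le_mul_left ?_ hW
    nlinarith
  · rw [← hW, mul_zero]; exact sq_nonneg _

end Pool.Agent.Lib.MP_b67cc8_lc
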